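import Pool.Agent.TH608.FX.Loc

/-!
# The area swept by the geodesic from `x₀` to `x₁`
-/

open scoped ContDiff Topology
open Set Filter

noncomputable section

namespace Pool.Agent.TH608.FX

lemma sp_comm (x y : ℂ × ℝ) : sp x y = sp y x := by
  simp only [sp, dt]; ring

lemma idA {x0 x1 v w : ℂ × ℝ} (h0 : sp x0 x0 = 1) (h1 : sp x1 x1 = 1) (hv : sp x1 v = 0)
    (hw : sp x1 w = 0) :
    (1 + sp x0 x1) * T3 x0 v w - T3 x0 x1 w * sp x0 v - (1 + sp x0 x1) * T3 x0 w v +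
      T3 x0 x1 v * sp x0 w = (1 + sp x0 x1) ^ 2 * T3 x1 v w := by
  obtain ⟨⟨a1, a2⟩, a3⟩ := x0
  obtain ⟨⟨b1, b2⟩, b3⟩ := x1
  obtain ⟨⟨v1, v2⟩, v3⟩ := v
  obtain ⟨⟨w1, w2⟩, w3⟩ := w
  simp only [T3, sp, dt, cr] at *
  have E1 : (v2 * w3 - v3 * w2) - (b1 * (v2 * w3 - v3 * w2) + b2 * (v3 * w1 - v1 * w3) +
      b3 * (v1 * w2 - v2 * w1)) * b1 = 0 := by
    linear_combination (-(v2 * w3 - v3 * w2)) * h1 - (b2 * v3 - b3 * v2) * hw +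
      (b2 * w3 - b3 * w2) * hv
  have E2 : (v3 * w1 - v1 * w3) - (b1 * (v2 * w3 - v3 * w2) + b2 * (v3 * w1 - v1 * w3) +
      b3 * (v1 * w2 - v2 * w1)) * b2 = 0 := by
    linear_combination (-(v3 * w1 - v1 * w3)) * h1 - (b3 * v1 - b1 * v3) * hw +
      (b3 * w1 - b1 * w3) * hv
  have E3 : (v1 * w2 - v2 * w1) - (b1 * (v2 * w3 - v3 * w2) + b2 * (v3 * w1 - v1 * w3) +
      b3 * (v1 * w2 - v2 * w1)) * b3 = 0 := by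
    linear_combination (-(v1 * w2 - v2 * w1)) * h1 - (b1 * v2 - b2 * v1) * hw +
      (b1 * w2 - b2 * w1) * hv
  linear_combination (2 + (a1 * b1 + a2 * b2 + a3 * b3)) * (a1 * E1 + a2 * E2 + a3 * E3) +
    (b1 * (v2 * w3 - v3 * w2) + b2 * (v3 * w1 - v1 * w3) + b3 * (v1 * w2 - v2 * w1)) * h0

lemma idB {x0 x1 v w : ℂ × ℝ} (h0 : sp x0 x0 = 1) (h1 : sp x1 x1 = 1) (hv : sp x0 v = 0)
    (hw : sp x1 w = 0) :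
    (1 + sp x0 x1) * T3 v x1 w - T3 x0 x1 w * sp v x1 - (1 + sp x0 x1) * T3 x0 w v +
      T3 x0 x1 v * sp x0 w = 0 := by
  obtain ⟨⟨a1, a2⟩, a3⟩ := x0
  obtain ⟨⟨b1, b2⟩, b3⟩ := x1
  obtain ⟨⟨v1, v2⟩, v3⟩ := v
  obtain ⟨⟨w1, w2⟩, w3⟩ := w
  simp only [T3, sp, dt, cr] at *
  linear_combination (-(b3 * (w1 * v2 - w2 * v1) + b1 * (w2 * v3 - w3 * v2) +
      b2 * (w3 * v1 - w1 * v3))) * h0 +
    (a3 * (w1 * v2 - w2 * v1) + a1 * (w2 * v3 - w3 * v2) + a2 * (w3 * v1 - w1 * v3)) * h1 -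
    (v3 * (a1 * b2 - a2 * b1) + v1 * (a2 * b3 - a3 * b2) + v2 * (a3 * b1 - a1 * b3)) * hw +
    (w3 * (a1 * b2 - a2 * b1) + w1 * (a2 * b3 - a3 * b2) + w2 * (a3 * b1 - a1 * b3)) * hv

lemma idT {x0 x1 v0 v1 w0 w1 : ℂ × ℝ} (h0 : sp x0 x0 = 1) (h1 : sp x1 x1 = 1)
    (hv0 : sp x0 v0 = 0) (hw0 : sp x0 w0 = 0) (hv1 : sp x1 v1 = 0) (hw1 : sp x1 w1 = 0) :
    ((1 + sp x0 x1) * (T3 v0 x1 (w0 + w1) + T3 x0 v1 (w0 + w1)) -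
      T3 x0 x1 (w0 + w1) * (sp v0 x1 + sp x0 v1)) -
    ((1 + sp x0 x1) * (T3 w0 x1 (v0 + v1) + T3 x0 w1 (v0 + v1)) -
      T3 x0 x1 (v0 + v1) * (sp w0 x1 + sp x0 w1)) =
    (1 + sp x0 x1) ^ 2 * (T3 x1 v1 w1 - T3 x0 v0 w0) := by
  have A := idA h0 h1 hv1 hw1
  have A' := idA h1 h0 hv0 hw0
  have B := idB h0 h1 hv0 hw1
  have B' := idB h0 h1 hw0 hv1
  rw [sp_comm x1 x0] at A'
  obtain ⟨⟨a1, a2⟩, a3⟩ := x0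
  obtain ⟨⟨b1, b2⟩, b3⟩ := x1
  obtain ⟨⟨p1, p2⟩, p3⟩ := v0
  obtain ⟨⟨q1, q2⟩, q3⟩ := w0
  obtain ⟨⟨r1, r2⟩, r3⟩ := v1
  obtain ⟨⟨s1, s2⟩, s3⟩ := w1
  simp only [T3, sp, dt, cr, Prod.fst_add, Prod.snd_add, Complex.add_re, Complex.add_im] at *
  linear_combination A - A' + B - B'

end Pool.Agent.TH608.FX
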