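import Pool.Agent.TH608.FX.Loop2

/-!
# The twist maps which are Hamiltonian
-/

open scoped ContDiff Topology Manifold
open Set Filter

noncomputable section

namespace Pool.Agent.TH608.FX

open Pool.Agent.H844R2.AG

variable {a : Fin 3 → ℝ}

/-- `χ / a_0` as a function of the height in the factor `0` -/
def Gt (a : Fin 3 → ℝ) (k : Fin 3) (h : ℝ) : ℝ :=
  if k = 0 then Real.smoothTransition (1 / 2 - h) / a 0 else 0

/-- its derivative -/
def gt (a : Fin 3 → ℝ) (k : Fin 3) (h : ℝ) : ℝ := deriv (Gt a k) h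

lemma contDiff_Gt (k : Fin 3) : ContDiff ℝ ∞ (Gt a k) := by
  by_cases h : k = 0
  · have e : Gt a k = fun h => Real.smoothTransition (1 / 2 - h) / a 0 := by
      funext x; unfold Gt; rw [if_pos h]
    rw [e]
    exact (Real.smoothTransition.contDiff.comp (contDiff_const.sub contDiff_id)).div_const _
  · have e : Gt a k = fun _ => 0 := by
      funext x; unfold Gt; rw [if_neg h]
    rw [e]
    exact contDiff_const

lemma contDiff_gt (k : Fin 3) : ContDiff ℝ ∞ (gt a k) :=
  (contDiff_infty_iff_deriv.1 (contDiff_Gt k)).2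

lemma hasDerivAt_Gt (k : Fin 3) (h : ℝ) : HasDerivAt (Gt a k) (gt a k h) h :=
  (((contDiff_Gt k).differentiable (by simp)) h).hasDerivAt

/-- the twist maps -/
def tht (a : Fin 3 → ℝ) (s : ℝ) (x : M) : M := RM (gt a) s x

/-- the Hamiltonian of the twist maps -/
def chi (a : Fin 3 → ℝ) (x : M) : ℝ := HG a (Gt a) x

lemma chi_eq (h0 : a 0 ≠ 0) (x : M) : chi a x = Real.smoothTransition (1 / 2 - (co x 0).2) := by
  unfold chi HG Gt
  rw [Fin.sum_univ_three]
  have e1 : (1 : Fin 3) ≠ 0 := by decide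
  have e2 : (2 : Fin 3) ≠ 0 := by decide
  simp only [if_true, e1, e2, if_false, mul_zero, add_zero]
  field_simp

lemma gt_zero_of {a : Fin 3 → ℝ} {h c : ℝ} {U : Set ℝ} (hU : U ∈ 𝓝 h) (k : Fin 3)
    (hc : ∀ y ∈ U, Gt a k y = c) : gt a k h = 0 := by
  have : Gt a k =ᶠ[𝓝 h] fun _ => c := by
    filter_upwards [hU] with y hy
    exact hc y hy
  unfold gt
  rw [this.deriv_eq, deriv_const]

lemma tht_fix {x : M} (h : ∀ k, gt a k (co x k).2 = 0) (s : ℝ) : tht a s x = x := by
  apply co_inj
  unfold tht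
  rw [co_RM]
  funext k
  unfold twA tw
  rw [h, mul_zero, ee_zero, one_mul]

lemma gt_up {h : ℝ} (hh : 1 / 2 < h) (k : Fin 3) : gt a k h = 0 := by
  refine gt_zero_of (c := 0) (Ioi_mem_nhds hh) k fun y hy => ?_
  unfold Gt
  split_ifs
  · rw [Real.smoothTransition.zero_of_nonpos (by have := mem_Ioi.1 hy; linarith), zero_div]
  · rfl

lemma gt_down {h : ℝ} (hh : h < -1 / 2) (k : Fin 3) : gt a k h = 0 := by
  by_cases hk : k = 0
  · refine gt_zero_of (c := 1 / a 0) (Iio_mem_nhds hh) k fun y hy => ?_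
    unfold Gt
    rw [if_pos hk, Real.smoothTransition.one_of_one_le (by have := mem_Iio.1 hy; linarith)]
  · refine gt_zero_of (c := 0) univ_mem k fun y _ => ?_
    unfold Gt
    rw [if_neg hk]

section

variable (ha : ∀ k, 1 ≤ a k)
include ha

lemma height_p {x : M} (h : rp a (co x) < 1) (k : Fin 3) : 1 / 2 < (co x k).2 := by
  have := height_of_rp ha (sp_co x) h k
  linarith

lemma height_q {x : M} (h : rq a (co x) < 1) (k : Fin 3) : (co x k).2 < -1 / 2 := by
  have := height_of_rp ha (sp_co (sM x)) (by rw [rp_sM]; exact h) k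
  rw [sM_snd] at this
  linarith

lemma TP_tht : TP a (fun _ x => chi a x) (tht a) (fun t x => tht a (-t) x) 1 := by
  refine ⟨HP_RM a contDiff_gt contDiff_Gt hasDerivAt_Gt, ?_, ?_, ?_, ?_⟩
  · intro t x hx
    exact tht_fix (fun k => gt_up (height_p ha hx k) k) t
  · intro t x hx
    rw [chi_eq (apos ha 0).ne', Real.smoothTransition.zero_of_nonpos
      (by have := height_p ha hx 0; linarith)]
  · intro t x hx
    exact tht_fix (fun k => gt_down (height_q ha hx k) k) t
  · intro t x hx
    rw [chi_eq (apos ha 0).ne', Real.smoothTransition.one_of_one_le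
      (by have := height_q ha hx 0; linarith)]

end

/-- the compact set which supports the isotopies -/
def Kc (a : Fin 3 → ℝ) : Set M := {x | 1 ≤ rp a (co x) ∧ 1 ≤ rq a (co x)}

lemma continuous_rq : Continuous (rq a) := by
  have e : rq a = fun x => ∑ k, a k * 4 - rp a x := by
    funext x
    rw [← rp_add_rq (a := a) x]; ring
  rw [e]
  exact continuous_const.sub continuous_rp

lemma isCompact_sphere1 : IsCompact {x : ℂ × ℝ | sp x x = 1} := by
  have hcl : IsClosed {x : ℂ × ℝ | sp x x = 1} := isClosed_eq continuous_sp continuous_const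
  refine (Metric.isCompact_iff_isClosed_bounded).2 ⟨hcl, ?_⟩
  refine (Metric.isBounded_iff_subset_closedBall 0).2 ⟨1, ?_⟩
  intro x hx
  have hx' : sp x x = 1 := hx
  rw [mem_closedBall_zero_iff, Prod.norm_def]
  unfold sp dt at hx'
  refine max_le ?_ ?_
  · rw [Complex.norm_def, Complex.normSq_apply]
    refine Real.sqrt_le_one.mpr ?_
    nlinarith [sq_nonneg x.2]
  · rw [Real.norm_eq_abs]
    refine abs_le_one_iff_mul_self_le_one.mpr ?_
    nlinarith [sq_nonneg x.1.re, sq_nonneg x.1.im]

lemma isCompact_Kc : IsCompact (Kc a) := by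
  rw [isEmbedding_co.isCompact_iff]
  have e : co '' Kc a = (Set.univ.pi fun _ => {x : ℂ × ℝ | sp x x = 1}) ∩
      ({x : A | 1 ≤ rp a x} ∩ {x : A | 1 ≤ rq a x}) := by
    ext x
    constructor
    · rintro ⟨y, hy, rfl⟩
      exact ⟨fun k _ => sp_co y k, hy.1, hy.2⟩
    · rintro ⟨h1, h2, h3⟩
      have hI : InM x := by
        refine ⟨fun k => h1 k (mem_univ k), ?_, ?_⟩
        · by_contra hcon
          push Not at hcon
          have : rp a x = 0 := by
            unfold rp
            exact Finset.sum_eq_zero fun k _ => by rw [hcon k]; ring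
          have h2' : 1 ≤ rp a x := h2
          linarith
        · by_contra hcon
          push Not at hcon
          have : rq a x = 0 := by
            unfold rq
            exact Finset.sum_eq_zero fun k _ => by rw [hcon k]; ring
          have h3' : 1 ≤ rq a x := h3
          linarith
      exact ⟨mkM x hI, ⟨h2, h3⟩, rfl⟩
  rw [e]
  refine (isCompact_univ_pi fun _ => isCompact_sphere1).inter_right ?_
  exact (isClosed_le continuous_const continuous_rp).inter
    (isClosed_le continuous_const continuous_rq)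

lemma not_mem_Kc {x : M} (h : x ∉ Kc a) : rp a (co x) < 1 ∨ rq a (co x) < 1 := by
  by_contra hcon
  push Not at hcon
  exact h hcon

/-- a path with vanishing Hamiltonian near `q` too is a Hamiltonian isotopy with compact support -/
lemma TP.isHam {h : ℝ → M → ℝ} {Φ Ψ : ℝ → M → M} (H : TP a h Φ Ψ 0) :
    IsHamIsotopy (eta a) (Kc a) h Φ where
  compact := isCompact_Kc
  smooth_h := H.hp.smooth_h
  smooth := H.hp.smooth
  supp_h t _ x hx := by
    rcases not_mem_Kc hx with h | h
    · exact H.ph t x h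
    · exact H.qh t x h
  supp t _ x hx := by
    rcases not_mem_Kc hx with h | h
    · exact H.pΦ t x h
    · exact H.qΦ t x h
  zero := H.hp.zero
  flow t _ x := H.hp.flow t x

/-- the values of the parameter for which we get Hamiltonian diffeomorphisms -/
def vv (a : Fin 3 → ℝ) (k l : ℤ) : ℝ :=
  2 * Real.pi * (4 * (k * (a 0 - a 1) + l * (a 1 - a 2)))

theorem tht_isHam (ha : ∀ k, 1 ≤ a k) (k l : ℤ) :
    ∃ h Φ, IsHamIsotopy (eta a) (Kc a) h Φ ∧ ∀ x, Φ 1 x = tht a (vv a k l) x := by
  have h01 : (0 : Fin 3) ≠ 1 := by decide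
  have h12 : (1 : Fin 3) ≠ 2 := by decide
  have H1 := (TP_tht ha).scale (4 * (k * (a 0 - a 1) + l * (a 1 - a 2)))
  have H2 := (TP_lam ha h01).scale (k : ℝ)
  have H3 := (TP_lam ha h12).scale (l : ℝ)
  have H4 := (H1.comp (H2.comp H3)).scale (2 * Real.pi)
  have e : 2 * Real.pi * (4 * (k * (a 0 - a 1) + l * (a 1 - a 2)) * 1 +
      (k * (-4 * (a 0 - a 1)) + l * (-4 * (a 1 - a 2)))) = 0 := by ring
  rw [e] at H4
  refine ⟨_, _, TP.isHam H4, ?_⟩
  intro x
  have e1 : (l : ℝ) * (2 * Real.pi * 1) = 2 * Real.pi * l := by ring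
  have e2 : (k : ℝ) * (2 * Real.pi * 1) = 2 * Real.pi * k := by ring
  rw [e1, e2, lam_two_pi ha h12, lam_two_pi ha h01]
  congr 1
  unfold vv
  ring

theorem tht_isSymp (ha : ∀ k, 1 ≤ a k) (v : ℝ) :
    ∃ Φ, IsSympIsotopy (eta a) (Kc a) Φ ∧ ∀ x, Φ 1 x = tht a v x := by
  have H := (TP_tht ha).scale v
  refine ⟨fun t x => tht a (v * t) x, ⟨isCompact_Kc, H.hp.smooth, ?_, H.hp.zero, ?_, ?_⟩, ?_⟩
  · intro t _ x hx
    rcases not_mem_Kc hx with h | h
    · exact H.pΦ t x h
    · exact H.qΦ t x h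
  · intro t _
    exact ⟨Function.LeftInverse.injective (H.hp.left_inv t),
      Function.RightInverse.surjective (H.hp.right_inv t)⟩
  · intro t _ x v w
    exact H.hp.pres t x v w
  · intro x
    simp only [mul_one]

end Pool.Agent.TH608.FX
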