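import Pool.Agent.TH608.FX.Defs

/-!
# Composition of Hamiltonian isotopies
-/

open scoped Manifold ContDiff Topology
open Set Filter

noncomputable section

namespace Pool.Agent.TH608.FX

open Pool.Agent.H844R2.AG

variable {E : Type} [NormedAddCommGroup E] [NormedSpace ℝ E]
  {H : Type} [TopologicalSpace H] {I : ModelWithCorners ℝ E H}
  {M : Type} [TopologicalSpace M] [ChartedSpace H M]

lemma smulRight_key (L : ℝ × E →L[ℝ] E) (Y : E) :
    (((1 : ℝ →L[ℝ] ℝ).smulRight (L (1, Y)) : ℝ →L[ℝ] E)) =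
      L.comp ((ContinuousLinearMap.id ℝ ℝ).prod ((1 : ℝ →L[ℝ] ℝ).smulRight Y : ℝ →L[ℝ] E)) := by
  ext
  simp

lemma hasMFDerivAt_two {Φ : ℝ → M → M}
    (hΦ : ContMDiff (𝓘(ℝ, ℝ).prod I) I ∞ (fun p : ℝ × M => Φ p.1 p.2)) {c : ℝ → M} {t : ℝ}
    {X Y : E}
    (h1 : HasMFDerivAt 𝓘(ℝ, ℝ) I (fun s => Φ s (c t)) t
      (((1 : ℝ →L[ℝ] ℝ).smulRight X : ℝ →L[ℝ] E)))
    (h2 : HasMFDerivAt 𝓘(ℝ, ℝ) I c t (((1 : ℝ →L[ℝ] ℝ).smulRight Y : ℝ →L[ℝ] E))) :
    HasMFDerivAt 𝓘(ℝ, ℝ) I (fun s => Φ s (c s)) t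
      (((1 : ℝ →L[ℝ] ℝ).smulRight (X + derivAt I (Φ t) (c t) Y) : ℝ →L[ℝ] E)) := by
  have hd : MDifferentiableAt (𝓘(ℝ, ℝ).prod I) I (fun p : ℝ × M => Φ p.1 p.2) (t, c t) :=
    (hΦ _).mdifferentiableAt (by simp)
  have h3 := (hasMFDerivAt_id (I := 𝓘(ℝ, ℝ)) t).prodMk h2
  have h4 := HasMFDerivAt.comp t hd.hasMFDerivAt h3
  have h5 : (mfderiv (𝓘(ℝ, ℝ).prod I) I (fun p : ℝ × M => Φ p.1 p.2) (t, c t) :
      ℝ × E →L[ℝ] E) (1, Y) = X + derivAt I (Φ t) (c t) Y := by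
    have h6 := mfderiv_prod_eq_add_apply (p := (t, c t)) (v := ((1, Y) : ℝ × E)) hd
    have h7 : (mfderiv 𝓘(ℝ, ℝ) I (fun z : ℝ => Φ z (c t)) t : ℝ →L[ℝ] E) (1 : ℝ) = X := by
      rw [h1.mfderiv]
      exact one_smul ℝ X
    refine h6.trans ?_
    exact congrArg (fun z : E => z + derivAt I (Φ t) (c t) Y) h7
  have h8 : (((1 : ℝ →L[ℝ] ℝ).smulRight (X + derivAt I (Φ t) (c t) Y) : ℝ →L[ℝ] E)) =
      (mfderiv (𝓘(ℝ, ℝ).prod I) I (fun p : ℝ × M => Φ p.1 p.2) (t, c t) :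
      ℝ × E →L[ℝ] E).comp ((ContinuousLinearMap.id ℝ ℝ).prod
        ((1 : ℝ →L[ℝ] ℝ).smulRight Y : ℝ →L[ℝ] E)) := by
    rw [← h5]
    exact smulRight_key _ Y
  rw [h8]
  exact h4

/-- preservation of the form by a map, at a point -/
def PresAt (η : TwoForm I M) (f : M → M) (x : M) : Prop :=
  ∀ v w : E, formAt η (f x) ![derivAt I f x v, derivAt I f x w] = formAt η x ![v, w]

lemma formAt_add (η : TwoForm I M) (x : M) (u v w : E) :
    formAt η x ![u + v, w] = formAt η x ![u, w] + formAt η x ![v, w] := by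
  have h := (formAt η x).map_update_add ![u, w] 0 u v
  have e : ∀ z : E, Function.update ![u, w] 0 z = ![z, w] := by
    intro z; ext i; fin_cases i <;> simp
  rwa [e, e, e] at h

/-- composition of a Hamiltonian isotopy with a curve satisfying Hamilton's equation -/
lemma FlowAt.two {η : TwoForm I M} {Φ : ℝ → M → M}
    (hΦ : ContMDiff (𝓘(ℝ, ℝ).prod I) I ∞ (fun p : ℝ × M => Φ p.1 p.2)) {c : ℝ → M} {t : ℝ}
    {f g : M → ℝ} {X Y : E} {Ψ : M → M} (hf : MDifferentiable I 𝓘(ℝ, ℝ) f)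
    (hg : MDifferentiable I 𝓘(ℝ, ℝ) g) (hΨ : MDifferentiable I I Ψ)
    (hi : ∀ z, Φ t (Ψ z) = z) (hi' : Ψ (Φ t (c t)) = c t)
    (hp : PresAt η (Φ t) (c t))
    (h1 : FlowAt η f (fun s => Φ s (c t)) t X) (h2 : FlowAt η g c t Y) :
    FlowAt η (fun z => f z + g (Ψ z)) (fun s => Φ s (c s)) t
      (X + derivAt I (Φ t) (c t) Y) := by
  refine ⟨hasMFDerivAt_two hΦ h1.1 h2.1, ?_⟩
  intro w
  have hdΦ : MDifferentiable I I (Φ t) := by
    intro x
    have e1 : ContMDiff I (𝓘(ℝ, ℝ).prod I) ∞ (fun x : M => (t, x)) :=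
      contMDiff_const.prodMk contMDiff_id
    exact ((hΦ.comp e1) x).mdifferentiableAt (by simp)
  set z := Φ t (c t) with hz
  have k1 : HasMFDerivAt I I (Φ t ∘ Ψ) z
      ((derivAt I (Φ t) (Ψ z)).comp (derivAt I Ψ z) : E →L[ℝ] E) :=
    HasMFDerivAt.comp z (hdΦ _).hasMFDerivAt (hΨ _).hasMFDerivAt
  have k2 : Φ t ∘ Ψ = id := funext hi
  rw [k2] at k1
  have k3 : ((derivAt I (Φ t) (Ψ z)).comp (derivAt I Ψ z) : E →L[ℝ] E) =
      ContinuousLinearMap.id ℝ E := by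
    have := k1.mfderiv
    rw [mfderiv_id] at this
    exact this.symm
  rw [hi'] at k3
  have k4 : derivAt I (Φ t) (c t) (derivAt I Ψ z w) = w :=
    congrArg (fun L : E →L[ℝ] E => L w) k3
  have k5 : dAt I (fun z => f z + g (Ψ z)) z w = dAt I f z w + dAt I g (c t) (derivAt I Ψ z w) := by
    have m1 : HasMFDerivAt I 𝓘(ℝ, ℝ) (g ∘ Ψ) z
        ((dAt I g (Ψ z)).comp (derivAt I Ψ z) : E →L[ℝ] ℝ) :=
      HasMFDerivAt.comp z (hg _).hasMFDerivAt (hΨ _).hasMFDerivAt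
    have m2 : HasMFDerivAt I 𝓘(ℝ, ℝ) (f + g ∘ Ψ) z
        (dAt I f z + (dAt I g (Ψ z)).comp (derivAt I Ψ z) : E →L[ℝ] ℝ) :=
      (hf z).hasMFDerivAt.add m1
    have m3 : dAt I (fun z => f z + g (Ψ z)) z =
        dAt I f z + (dAt I g (Ψ z)).comp (derivAt I Ψ z) := m2.mfderiv
    rw [m3, hi']
    rfl
  change formAt η z ![X + derivAt I (Φ t) (c t) Y, w] = dAt I (fun z => f z + g (Ψ z)) z w
  rw [k5, formAt_add]
  congr 1
  · exact h1.2 w
  · conv_lhs => rw [← k4]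
    have := hp Y (derivAt I Ψ z w)
    rw [← hz] at this
    rw [this]
    exact h2.2 _

/-- the image of a curve satisfying Hamilton's equation under a symplectic diffeomorphism -/
lemma FlowAt.map {η : TwoForm I M} {b : M → M} (hb : ContMDiff I I ∞ b) {c : ℝ → M} {t : ℝ}
    {g : M → ℝ} {Y : E} {b' : M → M}
    (hg : MDifferentiable I 𝓘(ℝ, ℝ) g) (hb' : MDifferentiable I I b')
    (hi : ∀ z, b (b' z) = z) (hi' : ∀ z, b' (b z) = z)
    (hp : PresAt η b (c t)) (h2 : FlowAt η g c t Y) :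
    FlowAt η (fun z => g (b' z)) (fun s => b (c s)) t (derivAt I b (c t) Y) := by
  have h1 : FlowAt η (fun _ => (0 : ℝ)) (fun s : ℝ => b (c t)) t (0 : E) := by
    constructor
    · have := hasMFDerivAt_const (I := 𝓘(ℝ, ℝ)) (I' := I) (b (c t)) t
      have e : (((1 : ℝ →L[ℝ] ℝ).smulRight (0 : E) : ℝ →L[ℝ] E)) = 0 := by ext; simp
      rw [e]
      exact this
    · intro w
      have e1 : dAt I (fun _ : M => (0 : ℝ)) (b (c t)) = 0 := mfderiv_const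
      rw [e1]
      have h := (formAt η (b (c t))).map_update_zero ![0, w] 0
      have e2 : Function.update ![(0 : E), w] 0 0 = ![0, w] := by
        ext i; fin_cases i <;> simp
      rw [e2] at h
      exact h
  have h3 := FlowAt.two (Φ := fun _ => b) (Ψ := b') (hb.comp contMDiff_snd)
    (f := fun _ => 0) mdifferentiable_const hg hb' hi (hi' _) hp h1 h2
  simp only [zero_add] at h3
  exact h3

end Pool.Agent.TH608.FX
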