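import Pool.Agent.TH608.FX.Rot

/-!
# The manifold `M` is connected
-/

open scoped ContDiff Topology Manifold
open Set Filter

noncomputable section

namespace Pool.Agent.TH608.FX

/-- cylindrical coordinates on the sphere -/
def cs (p : ℝ × ℝ) : ℂ × ℝ := (√(1 - p.2 ^ 2) • ee p.1, p.2)

lemma continuous_cs : Continuous cs := by
  unfold cs
  exact ((continuous_const.sub (continuous_snd.pow 2)).sqrt.smul
    (contDiff_ee.continuous.comp continuous_fst)).prodMk continuous_snd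

lemma sp_cs {p : ℝ × ℝ} (h1 : -1 ≤ p.2) (h2 : p.2 ≤ 1) : sp (cs p) (cs p) = 1 := by
  have h3 : 0 ≤ 1 - p.2 ^ 2 := by nlinarith
  have h4 := Real.sq_sqrt h3
  have h5 := Real.cos_sq_add_sin_sq p.1
  unfold sp cs
  simp only [dt_smul_left, dt_smul_right]
  have h6 : dt (ee p.1) (ee p.1) = 1 := by
    unfold dt; rw [ee_re, ee_im]; linarith
  rw [h6]
  linarith

lemma cs_surj {x : ℂ × ℝ} (hx : sp x x = 1) : ∃ φ : ℝ, cs (φ, x.2) = x := by
  refine ⟨Complex.arg x.1, ?_⟩
  unfold cs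
  refine Prod.ext ?_ rfl
  simp only
  have h1 : √(1 - x.2 ^ 2) = ‖x.1‖ := by
    rw [Complex.norm_def, Complex.normSq_apply]
    congr 1
    unfold sp dt at hx
    linarith
  rw [h1, Complex.real_smul]
  unfold ee
  rw [mul_comm Complex.I]
  exact Complex.norm_mul_exp_arg_mul_I x.1

/-- the parameter domain -/
def PD (k l : Fin 3) : Set (Fin 3 → ℝ × ℝ) :=
  {P | (∀ m, -1 ≤ (P m).2 ∧ (P m).2 ≤ 1) ∧ (P k).2 < 1 ∧ -1 < (P l).2}

lemma convex_PD (k l : Fin 3) : Convex ℝ (PD k l) := by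
  intro P hP Q hQ s t hs ht hst
  refine ⟨fun m => ⟨?_, ?_⟩, ?_, ?_⟩
  · have h1 := (hP.1 m).1
    have h2 := (hQ.1 m).1
    simp only [Pi.add_apply, Pi.smul_apply, Prod.snd_add, Prod.smul_snd, smul_eq_mul]
    nlinarith
  · have h1 := (hP.1 m).2
    have h2 := (hQ.1 m).2
    simp only [Pi.add_apply, Pi.smul_apply, Prod.snd_add, Prod.smul_snd, smul_eq_mul]
    nlinarith
  · have h1 := hP.2.1
    have h2 := hQ.2.1
    simp only [Pi.add_apply, Pi.smul_apply, Prod.snd_add, Prod.smul_snd, smul_eq_mul]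
    rcases hs.eq_or_lt with h | h
    · rw [← h] at hst ⊢
      have : t = 1 := by linarith
      rw [this]; linarith
    · nlinarith
  · have h1 := hP.2.2
    have h2 := hQ.2.2
    simp only [Pi.add_apply, Pi.smul_apply, Prod.snd_add, Prod.smul_snd, smul_eq_mul]
    rcases hs.eq_or_lt with h | h
    · rw [← h] at hst ⊢
      have : t = 1 := by linarith
      rw [this]; linarith
    · nlinarith

/-- the corresponding point of the ambient space -/
def csA (P : Fin 3 → ℝ × ℝ) : A := fun m => cs (P m)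

lemma csA_InM {k l : Fin 3} {P : Fin 3 → ℝ × ℝ} (hP : P ∈ PD k l) : InM (csA P) :=
  ⟨fun m => sp_cs (hP.1 m).1 (hP.1 m).2, ⟨k, hP.2.1.ne⟩, ⟨l, hP.2.2.ne'⟩⟩

/-- the pieces of `M` -/
def PC (k l : Fin 3) : Set M := {x | (co x k).2 ≠ 1 ∧ (co x l).2 ≠ -1}

lemma PC_eq (k l : Fin 3) : PC k l = (fun P => toM (csA P)) '' PD k l := by
  ext x
  constructor
  · rintro ⟨h1, h2⟩
    choose φ hφ using fun m => cs_surj (sp_co x m)
    refine ⟨fun m => (φ m, (co x m).2), ⟨fun m => ⟨le_snd (sp_co x m), snd_le (sp_co x m)⟩,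
      lt_of_le_of_ne (snd_le (sp_co x k)) h1, lt_of_le_of_ne (le_snd (sp_co x l)) h2.symm⟩, ?_⟩
    apply co_inj
    have e : csA (fun m => (φ m, (co x m).2)) = co x := funext fun m => hφ m
    simp only
    rw [e]
    exact co_toM x.2
  · rintro ⟨P, hP, rfl⟩
    simp only [PC, mem_ofPred_eq]
    rw [co_toM (csA_InM hP)]
    exact ⟨hP.2.1.ne, hP.2.2.ne'⟩

lemma isPreconnected_PC (k l : Fin 3) : IsPreconnected (PC k l) := by
  rw [PC_eq]
  refine (convex_PD k l).isPreconnected.image _ ?_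
  rw [isEmbedding_co.isInducing.continuousOn_iff]
  have h : Continuous csA := continuous_pi fun m => continuous_cs.comp (continuous_apply m)
  refine h.continuousOn.congr ?_
  intro P hP
  exact co_toM (csA_InM hP)

instance : ConnectedSpace M where
  isPreconnected_univ := by
    have e : (univ : Set M) = ⋃ i : Fin 3 × Fin 3, PC i.1 i.2 := by
      ext x
      simp only [mem_univ, mem_iUnion, true_iff]
      obtain ⟨k, hk⟩ := x.2.2.1
      obtain ⟨l, hl⟩ := x.2.2.2
      exact ⟨(k, l), hk, hl⟩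
    rw [e]
    refine isPreconnected_iUnion ⟨pt0, ?_⟩ fun i => isPreconnected_PC i.1 i.2
    rw [mem_iInter]
    intro i
    refine ⟨?_, ?_⟩
    · change (0 : ℝ) ≠ 1
      norm_num
    · change (0 : ℝ) ≠ -1
      norm_num
  toNonempty := ⟨pt0⟩

end Pool.Agent.TH608.FX
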