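import Pool.Agent.TH608.FX.Flux

/-!
# Only countably many twist maps are Hamiltonian
-/

open scoped ContDiff Topology Manifold
open Set Filter MeasureTheory

noncomputable section

namespace Pool.Agent.TH608.FX

open Pool.Agent.H844R2.AG

variable {a : Fin 3 → ℝ}

/-- the points `δ(N)`, `δ(-N)` are close to `q`, `p` and outside of `K` -/
def Good (a : Fin 3 → ℝ) (N : ℝ) (K : Set M) : Prop :=
  del N ∉ K ∧ del (-N) ∉ K ∧ rq a (co (del N)) < 1 ∧ rp a (co (del (-N))) < 1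

lemma AR_ham {K : Set M} {h : ℝ → M → ℝ} {Φ : ℝ → M → M} {N : ℝ}
    (H : IsHamIsotopy (eta a) K h Φ) (g : Good a N K) : AR a N Φ = 0 := by
  unfold AR
  rw [intervalIntegral.integral_congr (g := fun _ => 0)]
  · simp
  · intro t ht
    rw [uIcc_of_le zero_le_one] at ht
    have h1 := inner_int (a := a) H.smooth (slice_md H.smooth_h t) (t := t) (fun x => H.flow t ht x)
      N
    change ∫ s in (-N)..N, FF a Φ (t, s) = 0
    rw [h1, H.supp t ht _ g.1, H.supp t ht _ g.2.1, H.supp_h t ht _ g.1, H.supp_h t ht _ g.2.1,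
      sub_zero]

lemma AR_TP {h : ℝ → M → ℝ} {Φ Ψ : ℝ → M → M} {N ℓ : ℝ} {K : Set M}
    (H : TP a h Φ Ψ ℓ) (g : Good a N K) : AR a N Φ = ℓ := by
  unfold AR
  rw [intervalIntegral.integral_congr (g := fun _ => ℓ)]
  · simp
  · intro t _
    have h1 := inner_int (a := a) H.hp.smooth (slice_md H.hp.smooth_h t) (t := t)
      (fun x => H.hp.flow t x) N
    change ∫ s in (-N)..N, FF a Φ (t, s) = ℓ
    rw [h1, H.qΦ t _ g.2.2.1, H.pΦ t _ g.2.2.2, H.qh t _ g.2.2.1, H.ph t _ g.2.2.2, sub_zero]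

/-- Two twist maps which are time-one maps of `C⁰`-close Hamiltonian isotopies are equal. -/
theorem key (ha : ∀ k, 1 ≤ a k) {v v' : ℝ} {K K' : Set M} {h h' : ℝ → M → ℝ}
    {Φ Φ' : ℝ → M → M} {N : ℝ} (hN : 0 ≤ N)
    (H : IsHamIsotopy (eta a) K h Φ) (H' : IsHamIsotopy (eta a) K' h' Φ')
    (e : ∀ x, Φ 1 x = tht a v x) (e' : ∀ x, Φ' 1 x = tht a v' x)
    (g : Good a N K) (g' : Good a N K')
    (hD : ∀ t ∈ Icc (0 : ℝ) 1, ∀ s ∈ Icc (-N) N, ∀ k,
      0 < 1 + sp (UU Φ k (t, s)) (UU Φ' k (t, s)))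
    (hD' : ∀ t ∈ Icc (0 : ℝ) 1, ∀ s ∈ Icc (-N) N, ∀ k,
      0 < 1 + sp (UU (fun t x => tht a (v * t) x) k (t, s))
        (UU (fun t x => tht a (v' * t) x) k (t, s))) : v = v' := by
  have H1 := (TP_tht ha).scale v
  have H2 := (TP_tht ha).scale v'
  have k1 := AR_sub (a := a) hN H.smooth H'.smooth hD H.zero H'.zero
    (fun t ht => ⟨H.supp t ht _ g.1, H.supp t ht _ g.2.1⟩)
    (fun t ht => ⟨H'.supp t ht _ g'.1, H'.supp t ht _ g'.2.1⟩)
  have k2 := AR_sub (a := a) hN H1.hp.smooth H2.hp.smooth hD' H1.hp.zero H2.hp.zero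
    (fun t _ => ⟨H1.qΦ t _ g.2.2.1, H1.pΦ t _ g.2.2.2⟩)
    (fun t _ => ⟨H2.qΦ t _ g.2.2.1, H2.pΦ t _ g.2.2.2⟩)
  rw [AR_ham H g, AR_ham H' g', sub_zero] at k1
  rw [AR_TP H1 g, AR_TP H2 g, mul_one, mul_one] at k2
  have k3 := BD_congr (a := a) (N := N) (T := fun t x => tht a (v * t) x)
    (T' := fun t x => tht a (v' * t) x) H.smooth H'.smooth H1.hp.smooth H2.hp.smooth
    (fun x => by rw [e, mul_one]) (fun x => by rw [e', mul_one])
  rw [← k1] at k3
  rw [← k3] at k2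
  linarith

lemma tendsto_dl_top : Tendsto dl atTop (𝓝 (fun _ => ((0 : ℂ), (-1 : ℝ)))) := by
  have h1 : Tendsto Real.arctan atTop (𝓝 (Real.pi / 2)) :=
    Real.tendsto_arctan_atTop.mono_right nhdsWithin_le_nhds
  refine tendsto_pi_nhds.2 fun k => ?_
  refine Tendsto.prodMk_nhds ?_ ?_
  · have h2 := (Real.continuous_cos.tendsto (Real.pi / 2)).comp h1
    rw [Real.cos_pi_div_two] at h2
    have h3 := (Complex.continuous_ofReal.tendsto 0).comp h2
    rw [Complex.ofReal_zero] at h3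
    exact h3
  · have h2 := ((Real.continuous_sin.tendsto (Real.pi / 2)).comp h1).neg
    rw [Real.sin_pi_div_two] at h2
    exact h2

lemma tendsto_dl_bot : Tendsto dl atBot (𝓝 (fun _ => ((0 : ℂ), (1 : ℝ)))) := by
  have h1 : Tendsto Real.arctan atBot (𝓝 (-(Real.pi / 2))) :=
    Real.tendsto_arctan_atBot.mono_right nhdsWithin_le_nhds
  refine tendsto_pi_nhds.2 fun k => ?_
  refine Tendsto.prodMk_nhds ?_ ?_
  · have h2 := (Real.continuous_cos.tendsto (-(Real.pi / 2))).comp h1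
    rw [Real.cos_neg, Real.cos_pi_div_two] at h2
    have h3 := (Complex.continuous_ofReal.tendsto 0).comp h2
    rw [Complex.ofReal_zero] at h3
    exact h3
  · have h2 := ((Real.continuous_sin.tendsto (-(Real.pi / 2))).comp h1).neg
    rw [Real.sin_neg, Real.sin_pi_div_two, neg_neg] at h2
    exact h2

lemma exists_good {K : Set M} (hK : IsCompact K) : ∃ n : ℕ, Good a n K := by
  have hcl : IsClosed (co '' K) := (hK.image continuous_co).isClosed
  have hq : (fun _ => ((0 : ℂ), (-1 : ℝ)) : A) ∉ co '' K := by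
    rintro ⟨x, -, hx⟩
    obtain ⟨k, hk⟩ := x.2.2.2
    apply hk
    change (co x k).2 = -1
    rw [hx]
  have hp : (fun _ => ((0 : ℂ), (1 : ℝ)) : A) ∉ co '' K := by
    rintro ⟨x, -, hx⟩
    obtain ⟨k, hk⟩ := x.2.2.1
    apply hk
    change (co x k).2 = 1
    rw [hx]
  have h1 : ∀ᶠ s in atTop, dl s ∉ co '' K :=
    tendsto_dl_top.eventually (hcl.isOpen_compl.mem_nhds hq)
  have h2 : ∀ᶠ s in atBot, dl s ∉ co '' K :=
    tendsto_dl_bot.eventually (hcl.isOpen_compl.mem_nhds hp)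
  have h3 : ∀ᶠ s in atTop, rq a (dl s) < 1 := by
    refine tendsto_dl_top.eventually ((isOpen_lt continuous_rq continuous_const).mem_nhds ?_)
    have : rq a (fun _ => ((0 : ℂ), (-1 : ℝ))) = 0 := by simp [rq]
    change rq a _ < 1
    rw [this]; norm_num
  have h4 : ∀ᶠ s in atBot, rp a (dl s) < 1 := by
    refine tendsto_dl_bot.eventually ((isOpen_lt continuous_rp continuous_const).mem_nhds ?_)
    have : rp a (fun _ => ((0 : ℂ), (1 : ℝ))) = 0 := by simp [rp]
    change rp a _ < 1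
    rw [this]; norm_num
  have t1 : Tendsto (fun n : ℕ => (n : ℝ)) atTop atTop := tendsto_natCast_atTop_atTop
  have t2 : Tendsto (fun n : ℕ => -(n : ℝ)) atTop atBot := tendsto_neg_atTop_atBot.comp t1
  obtain ⟨n, hn1, hn2, hn3, hn4⟩ := ((t1.eventually h1).and ((t2.eventually h2).and
    ((t1.eventually h3).and (t2.eventually h4)))).exists
  exact ⟨n, fun h => hn1 ⟨_, h, rfl⟩, fun h => hn2 ⟨_, h, rfl⟩, hn3, hn4⟩

/-- the parameters whose twist map is Hamiltonian, with control on the support -/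
def VN (a : Fin 3 → ℝ) (n : ℕ) : Set ℝ :=
  {v | ∃ K h Φ, IsHamIsotopy (eta a) K h Φ ∧ (∀ x, Φ 1 x = tht a v x) ∧ Good a n K}

lemma sp_of_dist {x y : ℂ × ℝ} (hx : sp x x = 1) (hy : sp y y = 1) (h : dist x y < 1) :
    0 < 1 + sp x y := by
  rw [Prod.dist_eq, max_lt_iff] at h
  obtain ⟨h1, h2⟩ := h
  rw [Complex.dist_eq, Complex.norm_def, Real.sqrt_lt' one_pos, Complex.normSq_apply] at h1
  rw [Real.dist_eq, ← sq_lt_one_iff_abs_lt_one] at h2
  simp only [Complex.sub_re, Complex.sub_im] at h1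
  unfold sp dt at *
  nlinarith

lemma continuous_two {Φ : ℝ → M → M}
    (hΦ : ContMDiff (𝓘(ℝ, ℝ).prod 𝓘(ℝ, V)) 𝓘(ℝ, V) ∞ (fun p : ℝ × M => Φ p.1 p.2)) :
    Continuous fun p : ℝ × ℝ => co (Φ p.1 (del p.2)) := by
  have h1 : Continuous fun p : ℝ × ℝ => (p.1, del p.2) :=
    continuous_fst.prodMk (contMDiff_del.continuous.comp continuous_snd)
  exact continuous_co.comp (hΦ.continuous.comp h1)

lemma countable_VN (ha : ∀ k, 1 ≤ a k) (n : ℕ) : (VN a n).Countable := by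
  let X : Type := (Icc (0 : ℝ) 1 ×ˢ Icc (-(n : ℝ)) n : Set (ℝ × ℝ))
  have : CompactSpace X := isCompact_iff_compactSpace.1 (isCompact_Icc.prod isCompact_Icc)
  have ch1 : ∀ v : VN a n, ∃ K h Φ, IsHamIsotopy (eta a) K h Φ ∧ (∀ x, Φ 1 x = tht a v x) ∧
      Good a n K := fun v => v.2
  choose K h Φ hH he hg using ch1
  have cT : ∀ v : ℝ, ContMDiff (𝓘(ℝ, ℝ).prod 𝓘(ℝ, V)) 𝓘(ℝ, V) ∞
      (fun p : ℝ × M => (fun t x => tht a (v * t) x) p.1 p.2) := fun v =>
    ((TP_tht ha).scale v).hp.smooth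
  let W1 : VN a n → C(X, A) := fun v =>
    ⟨fun p => co (Φ v p.1.1 (del p.1.2)), (continuous_two (hH v).smooth).comp continuous_subtype_val⟩
  let W2 : VN a n → C(X, A) := fun v =>
    ⟨fun p => co ((fun t x => tht a ((v : ℝ) * t) x) p.1.1 (del p.1.2)),
      (continuous_two (Φ := fun t x => tht a ((v : ℝ) * t) x) (cT v)).comp
        continuous_subtype_val⟩
  let W : VN a n → C(X, A) × C(X, A) := fun v => (W1 v, W2 v)
  have hW : ∀ v v' : VN a n, dist (W v) (W v') < 1 → v = v' := by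
    intro v v' hd
    rw [Prod.dist_eq, max_lt_iff] at hd
    obtain ⟨d1, d2⟩ := hd
    apply Subtype.ext
    have hn : (0 : ℝ) ≤ n := Nat.cast_nonneg n
    refine key ha hn (hH v) (hH v') (he v) (he v') (hg v) (hg v') ?_ ?_
    · intro t ht s hs k
      refine sp_of_dist (sp_UU _ _ _) (sp_UU _ _ _) ?_
      have h1 := (W1 v).dist_apply_le_dist (g := W1 v') (⟨(t, s), ht, hs⟩ : X)
      have h2 := dist_le_pi_dist ((W1 v) (⟨(t, s), ht, hs⟩ : X)) ((W1 v') ⟨(t, s), ht, hs⟩) k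
      exact lt_of_le_of_lt (h2.trans h1) d1
    · intro t ht s hs k
      refine sp_of_dist (sp_UU _ _ _) (sp_UU _ _ _) ?_
      have h1 := (W2 v).dist_apply_le_dist (g := W2 v') (⟨(t, s), ht, hs⟩ : X)
      have h2 := dist_le_pi_dist ((W2 v) (⟨(t, s), ht, hs⟩ : X)) ((W2 v') ⟨(t, s), ht, hs⟩) k
      exact lt_of_le_of_lt (h2.trans h1) d2
  obtain ⟨S, hSc, hSd⟩ := TopologicalSpace.exists_countable_dense (C(X, A) × C(X, A))
  have hc : ∀ v : VN a n, ∃ y ∈ S, dist (W v) y < 1 / 2 := fun v => by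
    exact hSd.exists_dist_lt (W v) (by norm_num)
  choose f hf1 hf2 using hc
  have : Countable S := hSc.to_subtype
  have hinj : Function.Injective (fun v : VN a n => (⟨f v, hf1 v⟩ : S)) := by
    intro v v' hvv
    have e : f v = f v' := congrArg Subtype.val hvv
    apply hW
    calc dist (W v) (W v') ≤ dist (W v) (f v) + dist (f v) (W v') := dist_triangle _ _ _
      _ < 1 / 2 + 1 / 2 := by
        refine add_lt_add (hf2 v) ?_
        rw [e, dist_comm]
        exact hf2 v'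
      _ = 1 := by norm_num
  exact (hinj.countable).to_set

theorem countable_ham (ha : ∀ k, 1 ≤ a k) : {v : ℝ | tht a v ∈ HamC (eta a)}.Countable := by
  refine (countable_iUnion fun n => countable_VN ha n).mono ?_
  rintro v ⟨K, h, Φ, hH, he⟩
  obtain ⟨n, hn⟩ := exists_good (a := a) hH.compact
  exact mem_iUnion.2 ⟨n, K, h, Φ, hH, he, hn⟩

end Pool.Agent.TH608.FX
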