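import Pool.Agent.H844R2.AG.HamPath

/-!
# Compactly supported Hamiltonian and symplectic isotopies: definitions
-/

open scoped Manifold ContDiff Topology
open Set Filter

noncomputable section

namespace Pool.Agent.TH608.FX

open Pool.Agent.H844R2.AG

variable {E : Type} [NormedAddCommGroup E] [NormedSpace ℝ E]
  {H : Type} [TopologicalSpace H] {I : ModelWithCorners ℝ E H}
  {M : Type} [TopologicalSpace M] [ChartedSpace H M]

/-- `Φ` is a Hamiltonian isotopy (for the times `t ∈ [0, 1]`) with support in the compact set `K`: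
it is smooth, `Φ 0` is the identity, and for `t ∈ [0, 1]` the velocity `X = ∂Φ/∂t` satisfies
`ι(X) η = dh_t`, where the smooth function `h` vanishes off `K`. -/
structure IsHamIsotopy (η : TwoForm I M) (K : Set M) (h : ℝ → M → ℝ) (Φ : ℝ → M → M) : Prop where
  compact : IsCompact K
  smooth_h : ContMDiff (𝓘(ℝ, ℝ).prod I) 𝓘(ℝ, ℝ) ∞ (fun p : ℝ × M => h p.1 p.2)
  smooth : ContMDiff (𝓘(ℝ, ℝ).prod I) I ∞ (fun p : ℝ × M => Φ p.1 p.2)
  supp_h : ∀ t ∈ Icc (0 : ℝ) 1, ∀ x ∉ K, h t x = 0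
  supp : ∀ t ∈ Icc (0 : ℝ) 1, ∀ x ∉ K, Φ t x = x
  zero : ∀ x, Φ 0 x = x
  flow : ∀ t ∈ Icc (0 : ℝ) 1, ∀ x, ∃ X : TangentSpace I (Φ t x),
    HasMFDerivAt 𝓘(ℝ, ℝ) I (fun s => Φ s x) t ((1 : ℝ →L[ℝ] ℝ).smulRight X) ∧
    ∀ w : TangentSpace I (Φ t x), η (Φ t x) ![X, w] = mfderiv I 𝓘(ℝ, ℝ) (h t) (Φ t x) w

/-- `Φ` is a symplectic isotopy (for the times `t ∈ [0, 1]`) with support in the compact set `K`:
it is smooth, `Φ 0` is the identity, and for `t ∈ [0, 1]` the map `Φ t` is a bijection which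
preserves `η` and is the identity off `K`. -/
structure IsSympIsotopy (η : TwoForm I M) (K : Set M) (Φ : ℝ → M → M) : Prop where
  compact : IsCompact K
  smooth : ContMDiff (𝓘(ℝ, ℝ).prod I) I ∞ (fun p : ℝ × M => Φ p.1 p.2)
  supp : ∀ t ∈ Icc (0 : ℝ) 1, ∀ x ∉ K, Φ t x = x
  zero : ∀ x, Φ 0 x = x
  bijective : ∀ t ∈ Icc (0 : ℝ) 1, Function.Bijective (Φ t)
  symplectic : ∀ t ∈ Icc (0 : ℝ) 1, ∀ x, ∀ v w : TangentSpace I x,
    η (Φ t x) ![mfderiv I I (Φ t) x v, mfderiv I I (Φ t) x w] = η x ![v, w]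

/-- `Ham_c(M, η)`: the time-one maps of the compactly supported Hamiltonian isotopies. -/
def HamC (η : TwoForm I M) : Set (M → M) :=
  {f | ∃ K h Φ, IsHamIsotopy η K h Φ ∧ ∀ x, Φ 1 x = f x}

/-- `Symp_{c,0}(M, η)`: the time-one maps of the compactly supported symplectic isotopies. -/
def SympC0 (η : TwoForm I M) : Set (M → M) :=
  {f | ∃ K Φ, IsSympIsotopy η K Φ ∧ ∀ x, Φ 1 x = f x}

end Pool.Agent.TH608.FX
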