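import Pool.Agent.TH608.FX.Count
import Pool.Agent.TH608.FX.Conn

/-!
# A non-Hamiltonian limit of Hamiltonian maps
-/

open scoped ContDiff Topology Manifold
open Set Filter

noncomputable section

namespace Pool.Agent.TH608.FX

open Pool.Agent.H844R2.AG

/-- `C⁰`-convergence of maps supported in a common compact set: the maps `f n` and `g` are the
identity off some compact set `K`, and for every metric on `M` which induces the topology of `M`
(for instance the distance function of any Riemannian metric on a connected `M`) the maps `f n`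
converge to `g` uniformly on `M`. -/
def C0Lim {M : Type} [T : TopologicalSpace M] (f : ℕ → M → M) (g : M → M) : Prop :=
  ∃ K : Set M, IsCompact K ∧ (∀ n, ∀ x ∉ K, f n x = x) ∧ (∀ x ∉ K, g x = x) ∧
    ∀ d : MetricSpace M, T = d.toPseudoMetricSpace.toUniformSpace.toTopologicalSpace →
      ∀ ε > 0, ∀ᶠ n in atTop, ∀ x, d.dist (f n x) (g x) < ε

lemma unif {X : Type} [MetricSpace X] {F : ℝ → X → X}
    (hF : Continuous fun p : ℝ × X => F p.1 p.2) {K : Set X} (hK : IsCompact K) {v : ℝ}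
    {w : ℕ → ℝ} (hw : Tendsto w atTop (𝓝 v)) (hs : ∀ t, ∀ x ∉ K, F t x = x) :
    ∀ ε > 0, ∀ᶠ n in atTop, ∀ x, dist (F (w n) x) (F v x) < ε := by
  intro ε hε
  let G : C(ℝ × X, X) := ⟨fun p : ℝ × X => F p.1 p.2, hF⟩
  have h1 : Tendsto (fun n => G.curry (w n)) atTop (𝓝 (G.curry v)) :=
    (G.curry.continuous.tendsto v).comp hw
  rw [ContinuousMap.tendsto_iff_forall_isCompact_tendstoUniformlyOn] at h1
  have h2 := h1 K hK
  rw [Metric.tendstoUniformlyOn_iff] at h2
  filter_upwards [h2 ε hε] with n hn x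
  by_cases hx : x ∈ K
  · rw [dist_comm]
    exact hn x hx
  · rw [hs _ x hx, hs _ x hx, dist_self]
    exact hε

lemma c0lim_of {X : Type} [T : TopologicalSpace X] {F : ℝ → X → X}
    (hF : Continuous fun p : ℝ × X => F p.1 p.2) {K : Set X} (hK : IsCompact K) {v : ℝ}
    {w : ℕ → ℝ} (hw : Tendsto w atTop (𝓝 v)) (hs : ∀ t, ∀ x ∉ K, F t x = x) :
    C0Lim (fun n => F (w n)) (F v) := by
  refine ⟨K, hK, fun n => hs _, hs _, ?_⟩
  intro d hd
  exact @unif X (d.replaceTopology hd) F hF K hK v w hw hs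

/-- the areas -/
def aa : Fin 3 → ℝ := ![2 + √2, 2, 1]

lemma aa_ge (k : Fin 3) : 1 ≤ aa k := by
  have := Real.sqrt_nonneg 2
  fin_cases k
  · change (1 : ℝ) ≤ 2 + √2; linarith
  · change (1 : ℝ) ≤ 2; linarith
  · change (1 : ℝ) ≤ 1; exact le_refl _

lemma vv_aa (k l : ℤ) : vv aa k l = 8 * Real.pi * (k * √2 + l) := by
  unfold vv aa
  simp only [Fin.isValue, Matrix.cons_val_zero, Matrix.cons_val_one, Matrix.cons_val]
  ring

lemma exists_seq (v : ℝ) : ∃ k l : ℕ → ℤ, Tendsto (fun n => vv aa (k n) (l n)) atTop (𝓝 v) := by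
  have hpi : (0 : ℝ) < 8 * Real.pi := by positivity
  have hd : Dense (AddSubgroup.closure {√2, (1 : ℝ)} : Set ℝ) := by
    rw [dense_addSubgroupClosure_pair_iff, div_one]
    exact irrational_sqrt_two
  obtain ⟨x, hx1, hx2⟩ := mem_closure_iff_seq_limit.1 (hd (v / (8 * Real.pi)))
  have h1 : ∀ n, ∃ k l : ℤ, k • √2 + l • (1 : ℝ) = x n := fun n =>
    AddSubgroup.mem_closure_pair.1 (hx1 n)
  choose k l hkl using h1
  refine ⟨k, l, ?_⟩
  have h2 : (fun n => vv aa (k n) (l n)) = fun n => 8 * Real.pi * x n := by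
    funext n
    rw [vv_aa, ← hkl n]
    simp only [zsmul_eq_mul, mul_one]
  rw [h2]
  have h3 := hx2.const_mul (8 * Real.pi)
  have h4 : 8 * Real.pi * (v / (8 * Real.pi)) = v := by field_simp
  rwa [h4] at h3

lemma continuous_tht {a : Fin 3 → ℝ} : Continuous fun p : ℝ × M => tht a p.1 p.2 :=
  (contMDiff_RM contDiff_gt).continuous

lemma tht_supp {a : Fin 3 → ℝ} (ha : ∀ k, 1 ≤ a k) (t : ℝ) (x : M) (hx : x ∉ Kc a) :
    tht a t x = x := by
  rcases not_mem_Kc hx with h | h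
  · exact (TP_tht ha).pΦ t x h
  · exact (TP_tht ha).qΦ t x h

theorem main :
    ∃ ψ : M → M, ψ ∈ SympC0 (eta aa) ∧ ψ ∉ HamC (eta aa) ∧
      ∃ f : ℕ → M → M, (∀ n, f n ∈ HamC (eta aa)) ∧ C0Lim f ψ := by
  obtain ⟨v, hv⟩ : ∃ v : ℝ, v ∉ {v : ℝ | tht aa v ∈ HamC (eta aa)} := by
    by_contra hcon
    push Not at hcon
    apply Cardinal.not_countable_real
    have e : (univ : Set ℝ) = {v : ℝ | tht aa v ∈ HamC (eta aa)} := by
      ext x
      simp only [mem_univ, true_iff]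
      exact hcon x
    rw [e]
    exact countable_ham aa_ge
  obtain ⟨k, l, hkl⟩ := exists_seq v
  refine ⟨tht aa v, ?_, hv, fun n => tht aa (vv aa (k n) (l n)), ?_, ?_⟩
  · obtain ⟨Φ, h1, h2⟩ := tht_isSymp aa_ge v
    exact ⟨_, Φ, h1, h2⟩
  · intro n
    obtain ⟨h, Φ, h1, h2⟩ := tht_isHam aa_ge (k n) (l n)
    exact ⟨_, h, Φ, h1, h2⟩
  · exact c0lim_of continuous_tht isCompact_Kc hkl (tht_supp aa_ge)

end Pool.Agent.TH608.FX
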