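import Pool.Agent.TH608.FX.Green
import Pool.Agent.TH608.FX.Base

/-!
# The area swept by the image of a path from `p` to `q`
-/

open scoped ContDiff Topology Manifold
open Set Filter MeasureTheory

noncomputable section

namespace Pool.Agent.TH608.FX

open Pool.Agent.H844R2.AG

/-! ### The path -/

/-- the path from `p` to `q` in the ambient space -/
def dl (s : ℝ) : A := fun _ => ((Real.cos (Real.arctan s) : ℂ), -Real.sin (Real.arctan s))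

lemma dl_InM (s : ℝ) : InM (dl s) := by
  have h := Real.cos_sq_add_sin_sq (Real.arctan s)
  have hp := Real.cos_arctan_pos s
  refine ⟨fun k => ?_, ⟨0, ?_⟩, ⟨0, ?_⟩⟩
  · unfold sp dt dl
    simp only [Complex.ofReal_re, Complex.ofReal_im]
    linarith
  · unfold dl
    simp only
    intro h1
    nlinarith
  · unfold dl
    simp only
    intro h1
    nlinarith

/-- the path from `p` to `q` -/
def del (s : ℝ) : M := mkM (dl s) (dl_InM s)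

lemma co_del (s : ℝ) : co (del s) = dl s := rfl

lemma contDiff_dl : ContDiff ℝ ∞ dl := by
  refine contDiff_pi.2 fun k => ?_
  have h1 : ContDiff ℝ ∞ (fun s : ℝ => Real.cos (Real.arctan s)) :=
    Real.contDiff_cos.comp Real.contDiff_arctan
  have h2 : ContDiff ℝ ∞ (fun s : ℝ => Real.sin (Real.arctan s)) :=
    Real.contDiff_sin.comp Real.contDiff_arctan
  exact (Complex.ofRealCLM.contDiff.comp h1).prodMk h2.neg

lemma contMDiff_del : ContMDiff 𝓘(ℝ, ℝ) 𝓘(ℝ, V) ∞ del :=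
  contMDiff_to (contDiff_dl.contMDiff)

/-! ### The swept area -/

/-- the components of the map `(t, s) ↦ Φ_t (δ s)` -/
def UU (Φ : ℝ → M → M) (k : Fin 3) (p : ℝ × ℝ) : ℂ × ℝ := co (Φ p.1 (del p.2)) k

lemma contDiff_UU {Φ : ℝ → M → M}
    (hΦ : ContMDiff (𝓘(ℝ, ℝ).prod 𝓘(ℝ, V)) 𝓘(ℝ, V) ∞ (fun p : ℝ × M => Φ p.1 p.2)) (k : Fin 3) :
    ContDiff ℝ ∞ (UU Φ k) := by
  have h1 : ContMDiff 𝓘(ℝ, ℝ × ℝ) (𝓘(ℝ, ℝ).prod 𝓘(ℝ, V)) ∞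
      (fun p : ℝ × ℝ => (p.1, del p.2)) :=
    (contDiff_fst.contMDiff).prodMk (contMDiff_del.comp contDiff_snd.contMDiff)
  have h2 : ContMDiff 𝓘(ℝ, ℝ × ℝ) 𝓘(ℝ, A) ∞ (fun p : ℝ × ℝ => co (Φ p.1 (del p.2))) :=
    contMDiff_co.comp (hΦ.comp h1)
  have h3 : ContDiff ℝ ∞ (fun p : ℝ × ℝ => co (Φ p.1 (del p.2))) := h2.contDiff
  exact (contDiff_apply ℝ (ℂ × ℝ) k).comp h3

lemma sp_UU (Φ : ℝ → M → M) (k : Fin 3) (p : ℝ × ℝ) : sp (UU Φ k p) (UU Φ k p) = 1 := sp_co _ _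

lemma vel {c : ℝ → M} {t : ℝ} {X : V}
    (h : HasMFDerivAt 𝓘(ℝ, ℝ) 𝓘(ℝ, V) c t (((1 : ℝ →L[ℝ] ℝ).smulRight X : ℝ →L[ℝ] V))) :
    HasDerivAt (fun s => co (c s)) (dco (c t) X) t := by
  have h1 : HasMFDerivAt 𝓘(ℝ, ℝ) 𝓘(ℝ, A) (co ∘ c) t
      ((dco (c t)).comp ((1 : ℝ →L[ℝ] ℝ).smulRight X : ℝ →L[ℝ] V) : ℝ →L[ℝ] A) :=
    HasMFDerivAt.comp t (hasMFDerivAt_co (c t)) h
  have h2 : HasFDerivAt (fun s => co (c s))
      ((dco (c t)).comp ((1 : ℝ →L[ℝ] ℝ).smulRight X : ℝ →L[ℝ] V) : ℝ →L[ℝ] A) t :=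
    h1.hasFDerivAt
  have h3 := h2.hasDerivAt
  simpa using h3

lemma vel_fun {c : ℝ → M} {t : ℝ} {X : V} {g : M → ℝ}
    (hg : MDifferentiable 𝓘(ℝ, V) 𝓘(ℝ, ℝ) g)
    (h : HasMFDerivAt 𝓘(ℝ, ℝ) 𝓘(ℝ, V) c t (((1 : ℝ →L[ℝ] ℝ).smulRight X : ℝ →L[ℝ] V))) :
    HasDerivAt (fun s => g (c s)) (dAt 𝓘(ℝ, V) g (c t) X) t := by
  have h1 : HasMFDerivAt 𝓘(ℝ, ℝ) 𝓘(ℝ, ℝ) (g ∘ c) t
      ((dAt 𝓘(ℝ, V) g (c t)).comp ((1 : ℝ →L[ℝ] ℝ).smulRight X : ℝ →L[ℝ] V) : ℝ →L[ℝ] ℝ) :=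
    HasMFDerivAt.comp t (hg (c t)).hasMFDerivAt h
  have h2 : HasFDerivAt (fun s => g (c s))
      ((dAt 𝓘(ℝ, V) g (c t)).comp ((1 : ℝ →L[ℝ] ℝ).smulRight X : ℝ →L[ℝ] V) : ℝ →L[ℝ] ℝ) t :=
    h1.hasFDerivAt
  have h3 := h2.hasDerivAt
  simpa using h3

lemma pd_first {u : ℝ × ℝ → ℂ × ℝ} (hu : ContDiff ℝ ∞ u) (t s : ℝ) :
    HasDerivAt (fun t' => u (t', s)) (pd u (1, 0) (t, s)) t := by
  have h1 : HasDerivAt (fun t' : ℝ => ((t', s) : ℝ × ℝ)) (1, 0) t :=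
    (hasDerivAt_id t).prodMk (hasDerivAt_const t s)
  have h2 : HasFDerivAt u (fderiv ℝ u (t, s)) ((fun t' : ℝ => ((t', s) : ℝ × ℝ)) t) :=
    ((hu.differentiable (by simp)) _).hasFDerivAt
  exact h2.comp_hasDerivAt t h1

lemma pd_second {u : ℝ × ℝ → ℂ × ℝ} (hu : ContDiff ℝ ∞ u) (t s : ℝ) :
    HasDerivAt (fun s' => u (t, s')) (pd u (0, 1) (t, s)) s := by
  have h1 : HasDerivAt (fun s' : ℝ => ((t, s') : ℝ × ℝ)) (0, 1) s :=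
    (hasDerivAt_const s t).prodMk (hasDerivAt_id s)
  have h2 : HasFDerivAt u (fderiv ℝ u (t, s)) ((fun s' : ℝ => ((t, s') : ℝ × ℝ)) s) :=
    ((hu.differentiable (by simp)) _).hasFDerivAt
  exact h2.comp_hasDerivAt s h1

/-- the total area integrand -/
def FF (a : Fin 3 → ℝ) (Φ : ℝ → M → M) (p : ℝ × ℝ) : ℝ := ∑ k, a k * Fa (UU Φ k) p

lemma continuous_Fa {u : ℝ × ℝ → ℂ × ℝ} (hu : ContDiff ℝ ∞ u) : Continuous (Fa u) := by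
  refine continuous_iff_continuousAt.2 fun p => ?_
  exact (cda_T3 hu.contDiffAt (contDiff_pd hu _).contDiffAt
    (contDiff_pd hu _).contDiffAt).continuousAt

lemma continuous_FF {a : Fin 3 → ℝ} {Φ : ℝ → M → M}
    (hΦ : ContMDiff (𝓘(ℝ, ℝ).prod 𝓘(ℝ, V)) 𝓘(ℝ, V) ∞ (fun p : ℝ × M => Φ p.1 p.2)) :
    Continuous (FF a Φ) :=
  continuous_finsetSum _ fun k _ => continuous_const.mul (continuous_Fa (contDiff_UU hΦ k))

/-- the integrand is the derivative of the Hamiltonian along the curve -/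
lemma FF_deriv {a : Fin 3 → ℝ} {Φ : ℝ → M → M}
    (hΦ : ContMDiff (𝓘(ℝ, ℝ).prod 𝓘(ℝ, V)) 𝓘(ℝ, V) ∞ (fun p : ℝ × M => Φ p.1 p.2)) {g : M → ℝ}
    (hg : MDifferentiable 𝓘(ℝ, V) 𝓘(ℝ, ℝ) g) {t : ℝ}
    (hfl : ∀ x, ∃ X : V, FlowAt (eta a) g (fun s => Φ s x) t X) (s : ℝ) :
    HasDerivAt (fun s => g (Φ t (del s))) (FF a Φ (t, s)) s := by
  obtain ⟨X, hX1, hX2⟩ := hfl (del s)
  have hc : ContMDiff 𝓘(ℝ, ℝ) 𝓘(ℝ, V) ∞ (fun s => Φ t (del s)) :=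
    (slice_mdiff hΦ t).comp contMDiff_del
  have hd : MDifferentiableAt 𝓘(ℝ, ℝ) 𝓘(ℝ, V) (fun s => Φ t (del s)) s :=
    (hc s).mdifferentiableAt (by simp)
  obtain ⟨L, hL⟩ : ∃ L : ℝ →L[ℝ] V, HasMFDerivAt 𝓘(ℝ, ℝ) 𝓘(ℝ, V) (fun s => Φ t (del s)) s L :=
    ⟨_, hd.hasMFDerivAt⟩
  have e : L = (1 : ℝ →L[ℝ] ℝ).smulRight (L 1) := by ext; simp
  rw [e] at hL
  have k1 := vel hX1
  have k2 := vel hL
  have k3 := vel_fun hg hL
  refine k3.congr_deriv ?_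
  rw [← hX2 (L 1)]
  change OA a (co (Φ t (del s))) (dco (Φ t (del s)) X) (dco (Φ t (del s)) (L 1)) = _
  unfold OA FF
  refine Finset.sum_congr rfl fun k _ => ?_
  have m1 : (dco (Φ t (del s)) X) k = pd (UU Φ k) (1, 0) (t, s) :=
    (hasDerivAt_pi.1 k1 k).unique (pd_first (contDiff_UU hΦ k) t s)
  have m2 : (dco (Φ t (del s)) (L 1)) k = pd (UU Φ k) (0, 1) (t, s) :=
    (hasDerivAt_pi.1 k2 k).unique (pd_second (contDiff_UU hΦ k) t s)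
  rw [m1, m2]
  rfl

lemma inner_int {a : Fin 3 → ℝ} {Φ : ℝ → M → M}
    (hΦ : ContMDiff (𝓘(ℝ, ℝ).prod 𝓘(ℝ, V)) 𝓘(ℝ, V) ∞ (fun p : ℝ × M => Φ p.1 p.2)) {g : M → ℝ}
    (hg : MDifferentiable 𝓘(ℝ, V) 𝓘(ℝ, ℝ) g) {t : ℝ}
    (hfl : ∀ x, ∃ X : V, FlowAt (eta a) g (fun s => Φ s x) t X) (N : ℝ) :
    ∫ s in (-N)..N, FF a Φ (t, s) = g (Φ t (del N)) - g (Φ t (del (-N))) := by
  refine intervalIntegral.integral_eq_sub_of_hasDerivAt (fun s _ => FF_deriv hΦ hg hfl s) ?_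
  have : Continuous fun s => FF a Φ (t, s) :=
    (continuous_FF hΦ).comp (continuous_const.prodMk continuous_id)
  exact this.intervalIntegrable _ _

/-- the area -/
def AR (a : Fin 3 → ℝ) (N : ℝ) (Φ : ℝ → M → M) : ℝ :=
  ∫ t in (0 : ℝ)..1, ∫ s in (-N)..N, FF a Φ (t, s)

/-- the boundary term -/
def BD (a : Fin 3 → ℝ) (N : ℝ) (Φ Φ' : ℝ → M → M) : ℝ :=
  ∑ k, a k * ∫ s in (-N)..N, Lm (UU Φ k) (UU Φ' k) (0, 1) (1, s)

lemma lin_int {N : ℝ} (a : Fin 3 → ℝ) {G : Fin 3 → ℝ × ℝ → ℝ} (hG : ∀ k, Continuous (G k)) :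
    ∫ t in (0 : ℝ)..1, ∫ s in (-N)..N, ∑ k, a k * G k (t, s) =
      ∑ k, a k * ∫ t in (0 : ℝ)..1, ∫ s in (-N)..N, G k (t, s) := by
  have h1 : ∀ t : ℝ, (∫ s in (-N)..N, ∑ k, a k * G k (t, s)) =
      ∑ k, a k * ∫ s in (-N)..N, G k (t, s) := by
    intro t
    rw [intervalIntegral.integral_finsetSum]
    · exact Finset.sum_congr rfl fun k _ => intervalIntegral.integral_const_mul _ _
    · intro k _
      have : Continuous fun s => a k * G k (t, s) :=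
        continuous_const.mul ((hG k).comp (continuous_const.prodMk continuous_id))
      exact this.intervalIntegrable _ _
  simp only [h1]
  rw [intervalIntegral.integral_finsetSum]
  · exact Finset.sum_congr rfl fun k _ => intervalIntegral.integral_const_mul _ _
  · intro k _
    have h2 : Continuous fun t => ∫ s in (-N)..N, G k (t, s) :=
      intervalIntegral.continuous_parametric_intervalIntegral_of_continuous'
        (f := fun t s => G k (t, s)) (hG k) _ _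
    exact (continuous_const.mul h2).intervalIntegrable _ _

theorem AR_sub {a : Fin 3 → ℝ} {N : ℝ} (hN : 0 ≤ N) {Φ Φ' : ℝ → M → M}
    (hΦ : ContMDiff (𝓘(ℝ, ℝ).prod 𝓘(ℝ, V)) 𝓘(ℝ, V) ∞ (fun p : ℝ × M => Φ p.1 p.2))
    (hΦ' : ContMDiff (𝓘(ℝ, ℝ).prod 𝓘(ℝ, V)) 𝓘(ℝ, V) ∞ (fun p : ℝ × M => Φ' p.1 p.2))
    (hD : ∀ t ∈ Icc (0 : ℝ) 1, ∀ s ∈ Icc (-N) N, ∀ k,
      0 < 1 + sp (UU Φ k (t, s)) (UU Φ' k (t, s)))
    (z : ∀ x, Φ 0 x = x) (z' : ∀ x, Φ' 0 x = x)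
    (b : ∀ t ∈ Icc (0 : ℝ) 1, Φ t (del N) = del N ∧ Φ t (del (-N)) = del (-N))
    (b' : ∀ t ∈ Icc (0 : ℝ) 1, Φ' t (del N) = del N ∧ Φ' t (del (-N)) = del (-N)) :
    AR a N Φ' - AR a N Φ = BD a N Φ Φ' := by
  have h1 : ∀ k, (∫ t in (0 : ℝ)..1, ∫ s in (-N)..N, (Fa (UU Φ' k) (t, s) - Fa (UU Φ k) (t, s))) =
      ∫ s in (-N)..N, Lm (UU Φ k) (UU Φ' k) (0, 1) (1, s) := by
    intro k
    refine green (contDiff_UU hΦ k) (contDiff_UU hΦ' k) (sp_UU Φ k) (sp_UU Φ' k) hN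
      (fun t ht s hs => hD t ht s hs k) ?_ ?_ ?_
    · intro s _
      unfold UU
      simp only
      rw [z, z']
    · intro t ht
      unfold UU
      simp only
      rw [(b t ht).1, (b' t ht).1]
    · intro t ht
      unfold UU
      simp only
      rw [(b t ht).2, (b' t ht).2]
  have h2 := lin_int (N := N) a (G := fun k p => Fa (UU Φ' k) p - Fa (UU Φ k) p)
    (fun k => (continuous_Fa (contDiff_UU hΦ' k)).sub (continuous_Fa (contDiff_UU hΦ k)))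
  unfold BD
  rw [Finset.sum_congr rfl (fun k _ => by rw [← h1 k])]
  rw [← h2]
  unfold AR
  have cI : ∀ {Φ : ℝ → M → M}
      (_ : ContMDiff (𝓘(ℝ, ℝ).prod 𝓘(ℝ, V)) 𝓘(ℝ, V) ∞ (fun p : ℝ × M => Φ p.1 p.2)),
      Continuous fun t => ∫ s in (-N)..N, FF a Φ (t, s) := by
    intro Φ hΦ
    exact intervalIntegral.continuous_parametric_intervalIntegral_of_continuous'
      (f := fun t s => FF a Φ (t, s)) (continuous_FF hΦ) _ _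
  rw [← intervalIntegral.integral_sub ((cI hΦ').intervalIntegrable _ _)
    ((cI hΦ).intervalIntegrable _ _)]
  refine intervalIntegral.integral_congr fun t _ => ?_
  rw [← intervalIntegral.integral_sub]
  · refine intervalIntegral.integral_congr fun s _ => ?_
    unfold FF
    rw [← Finset.sum_sub_distrib]
    exact Finset.sum_congr rfl fun k _ => by ring
  · exact ((continuous_FF hΦ').comp (continuous_const.prodMk continuous_id)).intervalIntegrable _ _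
  · exact ((continuous_FF hΦ).comp (continuous_const.prodMk continuous_id)).intervalIntegrable _ _

/-- the boundary term only depends on the maps at time one -/
lemma BD_congr {a : Fin 3 → ℝ} {N : ℝ} {Φ Φ' T T' : ℝ → M → M}
    (hΦ : ContMDiff (𝓘(ℝ, ℝ).prod 𝓘(ℝ, V)) 𝓘(ℝ, V) ∞ (fun p : ℝ × M => Φ p.1 p.2))
    (hΦ' : ContMDiff (𝓘(ℝ, ℝ).prod 𝓘(ℝ, V)) 𝓘(ℝ, V) ∞ (fun p : ℝ × M => Φ' p.1 p.2))
    (hT : ContMDiff (𝓘(ℝ, ℝ).prod 𝓘(ℝ, V)) 𝓘(ℝ, V) ∞ (fun p : ℝ × M => T p.1 p.2))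
    (hT' : ContMDiff (𝓘(ℝ, ℝ).prod 𝓘(ℝ, V)) 𝓘(ℝ, V) ∞ (fun p : ℝ × M => T' p.1 p.2))
    (h : ∀ x, Φ 1 x = T 1 x) (h' : ∀ x, Φ' 1 x = T' 1 x) : BD a N Φ Φ' = BD a N T T' := by
  unfold BD
  refine Finset.sum_congr rfl fun k _ => ?_
  congr 1
  refine intervalIntegral.integral_congr fun s _ => ?_
  have e : ∀ {Φ T : ℝ → M → M}
      (_ : ContMDiff (𝓘(ℝ, ℝ).prod 𝓘(ℝ, V)) 𝓘(ℝ, V) ∞ (fun p : ℝ × M => Φ p.1 p.2))
      (_ : ContMDiff (𝓘(ℝ, ℝ).prod 𝓘(ℝ, V)) 𝓘(ℝ, V) ∞ (fun p : ℝ × M => T p.1 p.2))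
      (_ : ∀ x, Φ 1 x = T 1 x), UU Φ k (1, s) = UU T k (1, s) ∧
        pd (UU Φ k) (0, 1) (1, s) = pd (UU T k) (0, 1) (1, s) := by
    intro Φ T hΦ hT h
    have e0 : ∀ s, UU Φ k (1, s) = UU T k (1, s) := fun s => by unfold UU; simp only; rw [h]
    refine ⟨e0 s, ?_⟩
    have k1 := pd_second (contDiff_UU hΦ k) 1 s
    have k2 := pd_second (contDiff_UU hT k) 1 s
    have e1 : (fun s' => UU Φ k (1, s')) = fun s' => UU T k (1, s') := funext e0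
    rw [e1] at k1
    exact k1.unique k2
  obtain ⟨m1, m2⟩ := e hΦ hT h
  obtain ⟨m3, m4⟩ := e hΦ' hT' h'
  unfold Lm
  rw [m1, m2, m3, m4]

end Pool.Agent.TH608.FX
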