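import Pool.Agent.TH608.FX.Mfd
import Pool.Agent.H844R2.AG.HamPath

/-!
# The symplectic form of `M`
-/

open scoped ContDiff Topology Manifold
open Set Filter

noncomputable section

namespace Pool.Agent.TH608.FX

open Pool.Agent.H844R2.AG

/-- The two-form on a real normed space given by an alternating continuous bilinear function. -/
def mk2 {E : Type} [NormedAddCommGroup E] [NormedSpace ℝ E] (B : E → E → ℝ)
    (hadd : ∀ u u' v, B (u + u') v = B u v + B u' v)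
    (hsmul : ∀ (c : ℝ) u v, B (c • u) v = c * B u v)
    (hsw : ∀ u v, B u v = - B v u)
    (hc : Continuous fun p : E × E => B p.1 p.2) : E [⋀^Fin 2]→L[ℝ] ℝ where
  toFun v := B (v 0) (v 1)
  map_update_add' v i x y := by
    fin_cases i
    · simp [hadd]
    · simp only [Fin.mk_one, Fin.isValue, Function.update_self, ne_eq, zero_ne_one,
        not_false_eq_true, Function.update_of_ne]
      rw [hsw, hadd, hsw x, hsw y]; ring
  map_update_smul' v i c x := by
    fin_cases i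
    · simp [hsmul]
    · simp only [Fin.mk_one, Fin.isValue, Function.update_self, ne_eq, zero_ne_one,
        not_false_eq_true, Function.update_of_ne, smul_eq_mul]
      rw [hsw, hsmul, hsw x]; ring
  map_eq_zero_of_eq' v i j h hij := by
    have h01 : v 0 = v 1 := by
      fin_cases i <;> fin_cases j
      · exact absurd rfl hij
      · exact h
      · exact h.symm
      · exact absurd rfl hij
    have := hsw (v 0) (v 1)
    rw [h01] at this ⊢
    linarith
  cont := Continuous.comp (g := fun p : E × E => B p.1 p.2) (f := fun v : Fin 2 → E => (v 0, v 1))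
    hc ((continuous_apply 0).prodMk (continuous_apply 1))

@[simp] lemma mk2_apply {E : Type} [NormedAddCommGroup E] [NormedSpace ℝ E] (B : E → E → ℝ)
    (hadd) (hsmul) (hsw) (hc) (u v : E) : mk2 B hadd hsmul hsw hc ![u, v] = B u v := rfl

lemma continuous_cr : Continuous fun p : ℂ × ℂ => cr p.1 p.2 := by
  unfold cr
  have h1 := Complex.continuous_re.comp (continuous_fst (X := ℂ) (Y := ℂ))
  have h2 := Complex.continuous_im.comp (continuous_fst (X := ℂ) (Y := ℂ))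
  have h3 := Complex.continuous_re.comp (continuous_snd (X := ℂ) (Y := ℂ))
  have h4 := Complex.continuous_im.comp (continuous_snd (X := ℂ) (Y := ℂ))
  exact (h1.mul h4).sub (h2.mul h3)

lemma T3_add (x u u' w : ℂ × ℝ) : T3 x (u + u') w = T3 x u w + T3 x u' w := by
  simp only [T3, Prod.fst_add, Prod.snd_add, cr_add_left, cr_add_right]; ring

lemma T3_smul (x : ℂ × ℝ) (c : ℝ) (u w : ℂ × ℝ) : T3 x (c • u) w = c * T3 x u w := by
  simp only [T3, Prod.smul_fst, Prod.smul_snd, cr_smul_left, cr_smul_right, smul_eq_mul]; ring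

lemma T3_swap (x u w : ℂ × ℝ) : T3 x u w = - T3 x w u := by
  simp only [T3]; rw [cr_swap u.1 w.1]; ring

lemma continuous_T3 : Continuous fun p : (ℂ × ℝ) × (ℂ × ℝ) × (ℂ × ℝ) => T3 p.1 p.2.1 p.2.2 := by
  unfold T3
  have c1 : Continuous fun p : (ℂ × ℝ) × (ℂ × ℝ) × (ℂ × ℝ) => cr p.2.1.1 p.2.2.1 :=
    continuous_cr.comp ((by fun_prop : Continuous fun p : (ℂ × ℝ) × (ℂ × ℝ) × (ℂ × ℝ) =>
      (p.2.1.1, p.2.2.1)))
  have c2 : Continuous fun p : (ℂ × ℝ) × (ℂ × ℝ) × (ℂ × ℝ) => cr p.1.1 p.2.1.1 :=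
    continuous_cr.comp ((by fun_prop : Continuous fun p : (ℂ × ℝ) × (ℂ × ℝ) × (ℂ × ℝ) =>
      (p.1.1, p.2.1.1)))
  have c3 : Continuous fun p : (ℂ × ℝ) × (ℂ × ℝ) × (ℂ × ℝ) => cr p.1.1 p.2.2.1 :=
    continuous_cr.comp ((by fun_prop : Continuous fun p : (ℂ × ℝ) × (ℂ × ℝ) × (ℂ × ℝ) =>
      (p.1.1, p.2.2.1)))
  fun_prop

/-- the ambient bilinear form `∑ a_k x_k · (u_k × w_k)` -/
def OA (a : Fin 3 → ℝ) (x u w : A) : ℝ := ∑ k, a k * T3 (x k) (u k) (w k)

/-- the bilinear form `∑ a_k Im (conj u_k * w_k)` -/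
def OV (a : Fin 3 → ℝ) (u w : V) : ℝ := ∑ k, a k * cr (u k) (w k)

lemma OA_add (a : Fin 3 → ℝ) (x u u' w : A) : OA a x (u + u') w = OA a x u w + OA a x u' w := by
  unfold OA
  rw [← Finset.sum_add_distrib]
  refine Finset.sum_congr rfl fun k _ => ?_
  rw [Pi.add_apply, T3_add]; ring

lemma OA_smul (a : Fin 3 → ℝ) (x : A) (c : ℝ) (u w : A) : OA a x (c • u) w = c * OA a x u w := by
  unfold OA
  rw [Finset.mul_sum]
  refine Finset.sum_congr rfl fun k _ => ?_
  rw [Pi.smul_apply, T3_smul]; ring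

lemma OA_swap (a : Fin 3 → ℝ) (x u w : A) : OA a x u w = - OA a x w u := by
  unfold OA
  rw [← Finset.sum_neg_distrib]
  refine Finset.sum_congr rfl fun k _ => ?_
  rw [T3_swap]; ring

lemma OV_add (a : Fin 3 → ℝ) (u u' w : V) : OV a (u + u') w = OV a u w + OV a u' w := by
  unfold OV
  rw [← Finset.sum_add_distrib]
  refine Finset.sum_congr rfl fun k _ => ?_
  rw [Pi.add_apply, cr_add_left]; ring

lemma OV_smul (a : Fin 3 → ℝ) (c : ℝ) (u w : V) : OV a (c • u) w = c * OV a u w := by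
  unfold OV
  rw [Finset.mul_sum]
  refine Finset.sum_congr rfl fun k _ => ?_
  rw [Pi.smul_apply, cr_smul_left]; ring

lemma OV_swap (a : Fin 3 → ℝ) (u w : V) : OV a u w = - OV a w u := by
  unfold OV
  rw [← Finset.sum_neg_distrib]
  refine Finset.sum_congr rfl fun k _ => ?_
  rw [cr_swap]; ring

/-- the 2-form `∑ a_k x_k · (u_k × w_k)` at the point `x` of the ambient space -/
def omA (a : Fin 3 → ℝ) (x : A) : A [⋀^Fin 2]→L[ℝ] ℝ :=
  mk2 (OA a x) (OA_add a x) (OA_smul a x) (OA_swap a x) (by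
    unfold OA
    refine continuous_finsetSum _ fun k _ => continuous_const.mul ?_
    exact continuous_T3.comp ((by fun_prop : Continuous fun p : A × A =>
      (x k, p.1 k, p.2 k))))

/-- the constant 2-form `∑ a_k Im (conj u_k * w_k)` -/
def omV (a : Fin 3 → ℝ) : V [⋀^Fin 2]→L[ℝ] ℝ :=
  mk2 (OV a) (OV_add a) (OV_smul a) (OV_swap a) (by
    unfold OV
    refine continuous_finsetSum _ fun k _ => continuous_const.mul ?_
    exact continuous_cr.comp ((by fun_prop : Continuous fun p : V × V => (p.1 k, p.2 k))))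

lemma omV_nondeg {a : Fin 3 → ℝ} (ha : ∀ k, 0 < a k) {v : V} (h : ∀ w, OV a v w = 0) : v = 0 := by
  have h1 := h (fun k => Complex.I * v k)
  have h2 : ∀ k, a k * cr (v k) (Complex.I * v k) = a k * dt (v k) (v k) := by
    intro k
    simp [cr, dt]
  unfold OV at h1
  simp only [h2] at h1
  have h3 := (Finset.sum_eq_zero_iff_of_nonneg (fun k _ => mul_nonneg (ha k).le
    (dt_self_nonneg (v k)))).mp h1
  funext k
  have h4 := h3 k (Finset.mem_univ k)
  have h5 : dt (v k) (v k) = 0 := by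
    rcases mul_eq_zero.mp h4 with h | h
    · exact absurd h (ha k).ne'
    · exact h
  unfold dt at h5
  apply Complex.ext
  · simp only [Pi.zero_apply, Complex.zero_re]; nlinarith [sq_nonneg (v k).re, sq_nonneg (v k).im]
  · simp only [Pi.zero_apply, Complex.zero_im]; nlinarith [sq_nonneg (v k).re, sq_nonneg (v k).im]

/-! ### The inclusion -/

lemma coe_chartAt (x : M) (y : M) : extChartAt 𝓘(ℝ, V) x y = EA (sgA (idx x) (co y)) := rfl

lemma mem_src_of {x y : M} (h : y ∈ (extChartAt 𝓘(ℝ, V) x).source) : y ∈ (ch (idx x)).source := by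
  rwa [extChartAt_source] at h

lemma mem_tgt_of {x : M} {Z : V} (h : Z ∈ (extChartAt 𝓘(ℝ, V) x).target) :
    Z ∈ (ch (idx x)).target := by
  rw [extChartAt_target] at h
  exact h.1

lemma G_E_of {ε : Fin 3 → Bool} {x : M} (h : x ∈ (ch ε).source) :
    sgA ε (GA (EA (sgA ε (co x)))) = co x := by
  have hx1 : ∀ k, sp (sgA ε (co x) k) (sgA ε (co x) k) = 1 := fun k => by
    rw [sgA_apply, sp_sgL]; exact sp_co x k
  have e1 : GA (EA (sgA ε (co x))) = sgA ε (co x) := funext fun k => G_E (hx1 k) (h k)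
  rw [e1, sgA_sgA]

lemma contMDiff_co : ContMDiff 𝓘(ℝ, V) 𝓘(ℝ, A) ∞ co := by
  intro x
  have h1 := contMDiffAt_extChartAt (I := 𝓘(ℝ, V)) (n := ∞) (x := x)
  have hx := (ch (idx x)).map_source (mem_source_idx x)
  have h2 : ContDiffAt ℝ ∞ (fun Z => sgA (idx x) (GA Z)) (extChartAt 𝓘(ℝ, V) x x) :=
    (sgA (idx x)).contDiff.contDiffAt.comp _ (contDiffAt_GA hx.1)
  have h3 := ContMDiffAt.comp x h2.contMDiffAt h1
  refine h3.congr_of_eventuallyEq ?_
  filter_upwards [(ch (idx x)).open_source.mem_nhds (mem_source_idx x)] with y hy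
  exact (G_E_of hy).symm

section To

variable {E' : Type} [NormedAddCommGroup E'] [NormedSpace ℝ E'] {H' : Type} [TopologicalSpace H']
  {I' : ModelWithCorners ℝ E' H'} {N : Type} [TopologicalSpace N] [ChartedSpace H' N]

/-- smoothness of a map to `M` -/
lemma contMDiffAt_to {f : N → M} {x : N} (hf : ContMDiffAt I' 𝓘(ℝ, A) ∞ (fun y => co (f y)) x) :
    ContMDiffAt I' 𝓘(ℝ, V) ∞ f x := by
  rw [contMDiffAt_iff_target]
  have hc : ContinuousAt f x := isEmbedding_co.isInducing.continuousAt_iff.mpr hf.continuousAt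
  refine ⟨hc, ?_⟩
  have h2 : ContDiffAt ℝ ∞ (fun y => EA (sgA (idx (f x)) y)) (co (f x)) :=
    ContDiffAt.comp (g := EA) (f := fun y => sgA (idx (f x)) y) _
      (contDiffAt_EA (mem_source_idx (f x))) (sgA _).contDiff.contDiffAt
  exact ContMDiffAt.comp (g := fun y => EA (sgA (idx (f x)) y)) (f := fun y => co (f y)) x
    h2.contMDiffAt hf

lemma contMDiff_to {f : N → M} (hf : ContMDiff I' 𝓘(ℝ, A) ∞ (fun y => co (f y))) :
    ContMDiff I' 𝓘(ℝ, V) ∞ f := fun x => contMDiffAt_to (hf x)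

end To

/-- the derivative of the inclusion -/
def dco (x : M) : V →L[ℝ] A := mfderiv 𝓘(ℝ, V) 𝓘(ℝ, A) co x

lemma hasMFDerivAt_co (x : M) : HasMFDerivAt 𝓘(ℝ, V) 𝓘(ℝ, A) co x (dco x) :=
  ((contMDiff_co x).mdifferentiableAt (by simp)).hasMFDerivAt

lemma hasFDerivAt_sp (x : ℂ × ℝ) : HasFDerivAt (fun x : ℂ × ℝ => sp x x)
    ((2 : ℝ) • ((dtL x.1).comp (ContinuousLinearMap.fst ℝ ℂ ℝ) +
      x.2 • ContinuousLinearMap.snd ℝ ℂ ℝ)) x := by
  have h1 := (hasFDerivAt_dt x.1).comp x (hasFDerivAt_fst (𝕜 := ℝ) (p := x))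
  have h2 := (hasFDerivAt_snd (𝕜 := ℝ) (p := x)).mul (hasFDerivAt_snd (𝕜 := ℝ) (p := x))
  refine (h1.add h2).congr_fderiv ?_
  ext v
  · simp
  · simp; ring

/-- tangent vectors are orthogonal to the position -/
lemma sp_dco (x : M) (v : V) (k : Fin 3) : sp (co x k) (dco x v k) = 0 := by
  have h1 : HasFDerivAt (fun y : A => y k) (ContinuousLinearMap.proj k : A →L[ℝ] ℂ × ℝ) (co x) :=
    (ContinuousLinearMap.proj k : A →L[ℝ] ℂ × ℝ).hasFDerivAt
  have h2 := (hasFDerivAt_sp (co x k)).comp (co x) h1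
  have h3 := HasMFDerivAt.comp x h2.hasMFDerivAt (hasMFDerivAt_co x)
  have h4 : ((fun x : ℂ × ℝ => sp x x) ∘ fun y : A => y k) ∘ co = fun _ : M => (1 : ℝ) := by
    funext y
    exact sp_co y k
  rw [h4] at h3
  have h5 := h3.mfderiv
  rw [mfderiv_const] at h5
  have h6 := congrArg (fun L : V →L[ℝ] ℝ => L v) h5.symm
  have h7 : (2 : ℝ) * (dt (co x k).1 (dco x v k).1 + (co x k).2 * (dco x v k).2) = 0 := by
    rw [← dtL_apply]
    exact h6
  unfold sp
  linarith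

/-- the derivative of `GA` -/
def dGA (Z : V) : V →L[ℝ] A := fderiv ℝ GA Z

lemma hasFDerivAt_GA {Z : V} (hZ : Z ∈ TT) : HasFDerivAt GA (dGA Z) Z :=
  ((contDiffAt_GA hZ).differentiableAt (by simp)).hasFDerivAt

lemma dGA_apply {Z : V} (hZ : Z ∈ TT) (v : V) (k : Fin 3) : dGA Z v k = dGh (Z k) (v k) := by
  have h1 := hasFDerivAt_pi'.1 (hasFDerivAt_GA hZ) k
  have h2 : HasFDerivAt (fun Z : V => Z k) (ContinuousLinearMap.proj k : V →L[ℝ] ℂ) Z :=
    (ContinuousLinearMap.proj k : V →L[ℝ] ℂ).hasFDerivAt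
  have h3 := (((contDiffAt_G (hZ k)).differentiableAt (by simp)).hasFDerivAt).comp Z h2
  have h4 := h1.unique h3
  have h5 := congrArg (fun L : V →L[ℝ] ℂ × ℝ => L v) h4
  rw [← hasFDerivAt_G (hZ k)]
  exact h5

/-- the derivative of `EA` -/
def dEA (x : A) : A →L[ℝ] V := fderiv ℝ EA x

lemma hasFDerivAt_EA {x : A} (hx : ∀ k, -1 < (x k).2) : HasFDerivAt EA (dEA x) x :=
  ((contDiffAt_EA hx).differentiableAt (by simp)).hasFDerivAt

lemma dEA_apply {x : A} (hx : ∀ k, -1 < (x k).2) (u : A) (k : Fin 3) :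
    dEA x u k = dEh (x k) (u k) := by
  have h1 := hasFDerivAt_pi'.1 (hasFDerivAt_EA hx) k
  have h2 : HasFDerivAt (fun y : A => y k) (ContinuousLinearMap.proj k : A →L[ℝ] ℂ × ℝ) x :=
    (ContinuousLinearMap.proj k : A →L[ℝ] ℂ × ℝ).hasFDerivAt
  have h3 := (((contDiffAt_E (hx k)).differentiableAt (by simp)).hasFDerivAt).comp x h2
  have h4 := h1.unique h3
  have h5 := congrArg (fun L : A →L[ℝ] ℂ => L u) h4
  rw [← hasFDerivAt_E (hx k)]
  exact h5

lemma OA_dGA (a : Fin 3 → ℝ) {Z : V} (hZ : Z ∈ TT) (v w : V) :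
    OA a (GA Z) (dGA Z v) (dGA Z w) = OV a v w := by
  unfold OA OV
  refine Finset.sum_congr rfl fun k _ => ?_
  rw [dGA_apply hZ, dGA_apply hZ]
  rw [← T3_G (hZ k)]
  rfl

lemma OV_dEA (a : Fin 3 → ℝ) {x u w : A} (hs : ∀ k, sp (x k) (x k) = 1) (hx : ∀ k, -1 < (x k).2)
    (hu : ∀ k, sp (x k) (u k) = 0) (hw : ∀ k, sp (x k) (w k) = 0) :
    OV a (dEA x u) (dEA x w) = OA a x u w := by
  unfold OA OV
  refine Finset.sum_congr rfl fun k _ => ?_
  rw [dEA_apply hx, dEA_apply hx, T3_E (hs k) (hx k) (hu k) (hw k)]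

lemma OA_sgA (a : Fin 3 → ℝ) (ε : Fin 3 → Bool) (x u w : A) :
    OA a (sgA ε x) (sgA ε u) (sgA ε w) = OA a x u w := by
  unfold OA
  refine Finset.sum_congr rfl fun k _ => ?_
  rw [sgA_apply, sgA_apply, sgA_apply, T3_sgL]

/-- The form `η = ∑ a_k pr_k^* σ` on `M`, where `σ` is the area form of the unit sphere. -/
def eta (a : Fin 3 → ℝ) : TwoForm 𝓘(ℝ, V) M := fun x =>
  (omA a (co x)).compContinuousLinearMap (dco x)

lemma eta_apply (a : Fin 3 → ℝ) (x : M) (u w : V) :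
    eta a x ![u, w] = OA a (co x) (dco x u) (dco x w) := rfl

/-- the derivative of the inverse of a chart -/
def dsym (x₀ : M) (y : V) : V →L[ℝ] V :=
  mfderiv 𝓘(ℝ, V) 𝓘(ℝ, V) (extChartAt 𝓘(ℝ, V) x₀).symm y

lemma hasMFDerivAt_symm (x₀ : M) {y : V} (hy : y ∈ (extChartAt 𝓘(ℝ, V) x₀).target) :
    HasMFDerivAt 𝓘(ℝ, V) 𝓘(ℝ, V) (extChartAt 𝓘(ℝ, V) x₀).symm y (dsym x₀ y) := by
  have h1 := (contMDiffOn_extChartAt_symm (I := 𝓘(ℝ, V)) (n := ∞) x₀) y hy
  have h2 := h1.contMDiffAt ((isOpen_extChartAt_target x₀).mem_nhds hy)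
  exact (h2.mdifferentiableAt (by simp)).hasMFDerivAt

lemma dco_symm (x₀ : M) {y : V} (hy : y ∈ (extChartAt 𝓘(ℝ, V) x₀).target) (v : V) :
    dco ((extChartAt 𝓘(ℝ, V) x₀).symm y) (dsym x₀ y v) = sgA (idx x₀) (dGA y v) := by
  have h1 := HasMFDerivAt.comp y (hasMFDerivAt_co _) (hasMFDerivAt_symm x₀ hy)
  have hy' := mem_tgt_of hy
  have h2 : HasFDerivAt (fun Z => sgA (idx x₀) (GA Z)) ((sgA (idx x₀)).comp (dGA y)) y :=
    (sgA (idx x₀)).hasFDerivAt.comp y (hasFDerivAt_GA hy'.1)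
  have h3 : (co ∘ (extChartAt 𝓘(ℝ, V) x₀).symm) =ᶠ[𝓝 y] fun Z => sgA (idx x₀) (GA Z) := by
    filter_upwards [(ch (idx x₀)).open_target.mem_nhds hy'] with Z hZ
    exact co_ch_symm hZ
  have h4 := h1.congr_of_eventuallyEq h3.symm
  have h5 : HasFDerivAt (fun Z : V => sgA (idx x₀) (GA Z))
    ((dco ((extChartAt 𝓘(ℝ, V) x₀).symm y)).comp (dsym x₀ y)) y := h4.hasFDerivAt
  have h6 := h5.unique h2
  exact congrArg (fun L : V →L[ℝ] A => L v) h6

lemma inChart_eta (a : Fin 3 → ℝ) (x₀ : M) {y : V} (hy : y ∈ (extChartAt 𝓘(ℝ, V) x₀).target) :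
    (eta a).inChart x₀ y = omV a := by
  ext v
  change OA a (co _) (dco _ (dsym x₀ y (v 0))) (dco _ (dsym x₀ y (v 1))) = OV a (v 0) (v 1)
  rw [dco_symm x₀ hy, dco_symm x₀ hy]
  have hy' := mem_tgt_of hy
  have h1 : co ((extChartAt 𝓘(ℝ, V) x₀).symm y) = sgA (idx x₀) (GA y) := co_ch_symm hy'
  rw [h1, OA_sgA, OA_dGA a hy'.1]

lemma dEA_dco (x : M) (v : V) :
    dEA (sgA (idx x) (co x)) (sgA (idx x) (dco x v)) = v := by
  have h1 : HasFDerivAt (fun y => EA (sgA (idx x) y))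
      ((dEA (sgA (idx x) (co x))).comp (sgA (idx x))) (co x) :=
    (hasFDerivAt_EA (mem_source_idx x)).comp (co x) (sgA (idx x)).hasFDerivAt
  have h2 := HasMFDerivAt.comp x h1.hasMFDerivAt (hasMFDerivAt_co x)
  have h3 : HasMFDerivAt 𝓘(ℝ, V) 𝓘(ℝ, V) (extChartAt 𝓘(ℝ, V) x) x _ := h2
  have h4 := h3.mfderiv
  rw [mfderiv_extChartAt_self] at h4
  exact (congrArg (fun L : V →L[ℝ] V => L v) h4).symm

lemma eta_eq_OV (a : Fin 3 → ℝ) (x : M) (v w : V) : eta a x ![v, w] = OV a v w := by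
  rw [eta_apply, ← OA_sgA a (idx x), ← OV_dEA a _ (mem_source_idx x), dEA_dco, dEA_dco]
  · intro k
    rw [sgA_apply, sgA_apply, sp_sgL]
    exact sp_dco x v k
  · intro k
    rw [sgA_apply, sgA_apply, sp_sgL]
    exact sp_dco x w k
  · intro k
    rw [sgA_apply, sp_sgL]
    exact sp_co x k

theorem isSymplectic_eta {a : Fin 3 → ℝ} (ha : ∀ k, 0 < a k) : IsSymplectic (eta a) := by
  refine ⟨?_, ?_, ?_⟩
  · intro x₀
    exact (contDiffOn_const (c := omV a)).congr fun y hy => inChart_eta a x₀ hy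
  · intro x₀ y hy
    have hev : (eta a).inChart x₀ =ᶠ[𝓝 y] fun _ => omV a := by
      filter_upwards [(isOpen_extChartAt_target x₀).mem_nhds hy] with z hz
      exact inChart_eta a x₀ hz
    rw [hev.extDeriv_eq]
    unfold extDeriv
    rw [fderiv_const_apply]
    exact map_zero (ContinuousAlternatingMap.alternatizeUncurryFinCLM ℝ V ℝ)
  · intro x v hv
    refine omV_nondeg ha fun w => ?_
    have h1 := eta_eq_OV a x v w
    rw [← h1]
    exact hv w

end Pool.Agent.TH608.FX
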