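import Pool.Agent.TH608.FX.Area1

/-!
# Two maps into the sphere which are close and agree on the boundary sweep the same area
-/

open scoped ContDiff Topology
open Set Filter MeasureTheory

noncomputable section

namespace Pool.Agent.TH608.FX

section smooth

variable {E : Type} [NormedAddCommGroup E] [NormedSpace ℝ E]

lemma cda_re {f : E → ℂ × ℝ} {x : E} (hf : ContDiffAt ℝ ∞ f x) :
    ContDiffAt ℝ ∞ (fun y => (f y).1.re) x :=
  Complex.reCLM.contDiff.contDiffAt.comp x hf.fst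

lemma cda_im {f : E → ℂ × ℝ} {x : E} (hf : ContDiffAt ℝ ∞ f x) :
    ContDiffAt ℝ ∞ (fun y => (f y).1.im) x :=
  Complex.imCLM.contDiff.contDiffAt.comp x hf.fst

lemma cda_T3 {f g h : E → ℂ × ℝ} {x : E} (hf : ContDiffAt ℝ ∞ f x) (hg : ContDiffAt ℝ ∞ g x)
    (hh : ContDiffAt ℝ ∞ h x) : ContDiffAt ℝ ∞ (fun y => T3 (f y) (g y) (h y)) x := by
  unfold T3 cr
  have f1 := cda_re hf
  have f2 := cda_im hf
  have f3 := hf.snd
  have g1 := cda_re hg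
  have g2 := cda_im hg
  have g3 := hg.snd
  have h1 := cda_re hh
  have h2 := cda_im hh
  have h3 := hh.snd
  exact ((f3.mul ((g1.mul h2).sub (g2.mul h1))).add (h3.mul ((f1.mul g2).sub (f2.mul g1)))).sub
    (g3.mul ((f1.mul h2).sub (f2.mul h1)))

lemma cda_sp {f g : E → ℂ × ℝ} {x : E} (hf : ContDiffAt ℝ ∞ f x) (hg : ContDiffAt ℝ ∞ g x) :
    ContDiffAt ℝ ∞ (fun y => sp (f y) (g y)) x := by
  unfold sp dt
  have f1 := cda_re hf
  have f2 := cda_im hf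
  have f3 := hf.snd
  have g1 := cda_re hg
  have g2 := cda_im hg
  have g3 := hg.snd
  exact ((f1.mul g1).add (f2.mul g2)).add (f3.mul g3)

end smooth

section deriv

variable {f g h : ℝ → ℂ × ℝ} {f' g' h' : ℂ × ℝ} {t : ℝ}

lemma hda_re (hf : HasDerivAt f f' t) : HasDerivAt (fun s => (f s).1.re) f'.1.re t :=
  Complex.reCLM.hasFDerivAt.comp_hasDerivAt t hf.fst

lemma hda_im (hf : HasDerivAt f f' t) : HasDerivAt (fun s => (f s).1.im) f'.1.im t :=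
  Complex.imCLM.hasFDerivAt.comp_hasDerivAt t hf.fst

lemma hda_snd (hf : HasDerivAt f f' t) : HasDerivAt (fun s => (f s).2) f'.2 t :=
  (ContinuousLinearMap.snd ℝ ℂ ℝ).hasFDerivAt.comp_hasDerivAt t hf

lemma hda_T3 (hf : HasDerivAt f f' t) (hg : HasDerivAt g g' t) (hh : HasDerivAt h h' t) :
    HasDerivAt (fun s => T3 (f s) (g s) (h s))
      (T3 f' (g t) (h t) + T3 (f t) g' (h t) + T3 (f t) (g t) h') t := by
  unfold T3 cr
  have f1 := hda_re hf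
  have f2 := hda_im hf
  have f3 := hda_snd hf
  have g1 := hda_re hg
  have g2 := hda_im hg
  have g3 := hda_snd hg
  have h1 := hda_re hh
  have h2 := hda_im hh
  have h3 := hda_snd hh
  refine (((f3.mul ((g1.mul h2).sub (g2.mul h1))).add (h3.mul ((f1.mul g2).sub (f2.mul g1)))).sub
    (g3.mul ((f1.mul h2).sub (f2.mul h1)))).congr_deriv ?_
  simp only [Pi.sub_apply, Pi.mul_apply]
  ring

lemma hda_sp (hf : HasDerivAt f f' t) (hg : HasDerivAt g g' t) :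
    HasDerivAt (fun s => sp (f s) (g s)) (sp f' (g t) + sp (f t) g') t := by
  unfold sp dt
  have f1 := hda_re hf
  have f2 := hda_im hf
  have f3 := hda_snd hf
  have g1 := hda_re hg
  have g2 := hda_im hg
  have g3 := hda_snd hg
  refine (((f1.mul g1).add (f2.mul g2)).add (f3.mul g3)).congr_deriv ?_
  ring

end deriv

/-- partial derivatives -/
def pd (u : ℝ × ℝ → ℂ × ℝ) (e : ℝ × ℝ) (p : ℝ × ℝ) : ℂ × ℝ := fderiv ℝ u p e

/-- the area integrand -/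
def Fa (u : ℝ × ℝ → ℂ × ℝ) (p : ℝ × ℝ) : ℝ := T3 (u p) (pd u (1, 0) p) (pd u (0, 1) p)

/-- the primitive -/
def Lm (u0 u1 : ℝ × ℝ → ℂ × ℝ) (e p : ℝ × ℝ) : ℝ :=
  T3 (u0 p) (u1 p) (pd u0 e p + pd u1 e p) / (1 + sp (u0 p) (u1 p))

lemma contDiff_pd {u : ℝ × ℝ → ℂ × ℝ} (hu : ContDiff ℝ ∞ u) (e : ℝ × ℝ) :
    ContDiff ℝ ∞ (pd u e) := by
  have h1 : ContDiff ℝ ∞ (fderiv ℝ u) := hu.fderiv_right (m := ∞) (by simp)
  exact h1.clm_apply contDiff_const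

lemma line_deriv (p e : ℝ × ℝ) : HasDerivAt (fun r : ℝ => p + r • e) e 0 := by
  have := ((hasDerivAt_id (0 : ℝ)).smul_const e).const_add p
  simpa using this

lemma hda_line {F : Type} [NormedAddCommGroup F] [NormedSpace ℝ F] {u : ℝ × ℝ → F}
    {p : ℝ × ℝ} (hu : DifferentiableAt ℝ u p) (e : ℝ × ℝ) :
    HasDerivAt (fun r : ℝ => u (p + r • e)) (fderiv ℝ u p e) 0 := by
  have h1 : HasFDerivAt u (fderiv ℝ u p) ((fun r : ℝ => p + r • e) 0) := by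
    simpa using hu.hasFDerivAt
  exact h1.comp_hasDerivAt 0 (line_deriv p e)

variable {u0 u1 : ℝ × ℝ → ℂ × ℝ}

lemma cda_Lm (h0 : ContDiff ℝ ∞ u0) (h1 : ContDiff ℝ ∞ u1) {p : ℝ × ℝ}
    (hD : 1 + sp (u0 p) (u1 p) ≠ 0) (e : ℝ × ℝ) : ContDiffAt ℝ ∞ (Lm u0 u1 e) p := by
  have k1 : ContDiffAt ℝ ∞ (fun p => T3 (u0 p) (u1 p) (pd u0 e p + pd u1 e p)) p :=
    cda_T3 h0.contDiffAt h1.contDiffAt ((contDiff_pd h0 e).add (contDiff_pd h1 e)).contDiffAt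
  have k2 : ContDiffAt ℝ ∞ (fun p => 1 + sp (u0 p) (u1 p)) p :=
    contDiffAt_const.add (cda_sp h0.contDiffAt h1.contDiffAt)
  exact k1.div k2 hD

lemma fderiv_Lm (h0 : ContDiff ℝ ∞ u0) (h1 : ContDiff ℝ ∞ u1) {p : ℝ × ℝ}
    (hD : 1 + sp (u0 p) (u1 p) ≠ 0) (e f : ℝ × ℝ) :
    fderiv ℝ (Lm u0 u1 e) p f =
      ((T3 (pd u0 f p) (u1 p) (pd u0 e p + pd u1 e p) +
        T3 (u0 p) (pd u1 f p) (pd u0 e p + pd u1 e p) +
        T3 (u0 p) (u1 p) (fderiv ℝ (pd u0 e) p f + fderiv ℝ (pd u1 e) p f)) *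
          (1 + sp (u0 p) (u1 p)) -
        T3 (u0 p) (u1 p) (pd u0 e p + pd u1 e p) * (sp (pd u0 f p) (u1 p) + sp (u0 p) (pd u1 f p)))
        / (1 + sp (u0 p) (u1 p)) ^ 2 := by
  have d0 : HasDerivAt (fun r : ℝ => u0 (p + r • f)) (pd u0 f p) 0 :=
    hda_line ((h0.differentiable (by simp)) p) f
  have d1 : HasDerivAt (fun r : ℝ => u1 (p + r • f)) (pd u1 f p) 0 :=
    hda_line ((h1.differentiable (by simp)) p) f
  have d2 : HasDerivAt (fun r : ℝ => pd u0 e (p + r • f)) (fderiv ℝ (pd u0 e) p f) 0 :=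
    hda_line (((contDiff_pd h0 e).differentiable (by simp)) p) f
  have d3 : HasDerivAt (fun r : ℝ => pd u1 e (p + r • f)) (fderiv ℝ (pd u1 e) p f) 0 :=
    hda_line (((contDiff_pd h1 e).differentiable (by simp)) p) f
  have d4 : HasDerivAt (fun r : ℝ => Lm u0 u1 e (p + r • f)) (fderiv ℝ (Lm u0 u1 e) p f) 0 :=
    hda_line ((cda_Lm h0 h1 hD e).differentiableAt (by simp)) f
  have d5 := hda_T3 d0 d1 (d2.add d3)
  have d6 := (hda_sp d0 d1).const_add 1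
  have hD' : 1 + sp (u0 (p + (0 : ℝ) • f)) (u1 (p + (0 : ℝ) • f)) ≠ 0 := by
    simpa using hD
  have d7 := d5.div d6 hD'
  have d8 := d4.unique d7
  rw [d8]
  simp only [zero_smul, add_zero, Pi.add_apply]

lemma symm_pd {u : ℝ × ℝ → ℂ × ℝ} (hu : ContDiff ℝ ∞ u) (p e f : ℝ × ℝ) :
    fderiv ℝ (pd u e) p f = fderiv ℝ (pd u f) p e := by
  have h1 : ∀ e f, fderiv ℝ (pd u e) p f = fderiv ℝ (fderiv ℝ u) p f e := by
    intro e f
    have hd : DifferentiableAt ℝ (fderiv ℝ u) p :=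
      ((hu.fderiv_right (m := ∞) (by simp)).differentiable (by simp)) p
    have h2 : HasFDerivAt (pd u e) _ p := hd.hasFDerivAt.clm_apply (hasFDerivAt_const e p)
    rw [h2.fderiv]
    simp
  rw [h1, h1]
  have hs : IsSymmSndFDerivAt ℝ u p :=
    (hu.contDiffAt (x := p)).isSymmSndFDerivAt (by
      rw [minSmoothness_of_isRCLikeNormedField]; exact WithTop.coe_le_coe.2 (le_top : (2 : ℕ∞) ≤ ⊤))
  exact hs f e

lemma sp_pd {u : ℝ × ℝ → ℂ × ℝ} (hu : ContDiff ℝ ∞ u) (h1 : ∀ p, sp (u p) (u p) = 1)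
    (p e : ℝ × ℝ) : sp (u p) (pd u e p) = 0 := by
  have d0 : HasDerivAt (fun r : ℝ => u (p + r • e)) (pd u e p) 0 :=
    hda_line ((hu.differentiable (by simp)) p) e
  have d1 := hda_sp d0 d0
  have d2 : (fun s : ℝ => sp (u (p + s • e)) (u (p + s • e))) = fun _ => 1 := by
    funext s; exact h1 _
  rw [d2] at d1
  have d3 := d1.unique (hasDerivAt_const 0 (1 : ℝ))
  simp only [zero_smul, add_zero] at d3
  rw [sp_comm (pd u e p) (u p)] at d3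
  linarith

lemma div_Lm (h0 : ContDiff ℝ ∞ u0) (h1 : ContDiff ℝ ∞ u1) (hu0 : ∀ p, sp (u0 p) (u0 p) = 1)
    (hu1 : ∀ p, sp (u1 p) (u1 p) = 1) {p : ℝ × ℝ} (hD : 1 + sp (u0 p) (u1 p) ≠ 0) :
    fderiv ℝ (Lm u0 u1 (0, 1)) p (1, 0) - fderiv ℝ (Lm u0 u1 (1, 0)) p (0, 1) =
      Fa u1 p - Fa u0 p := by
  rw [fderiv_Lm h0 h1 hD, fderiv_Lm h0 h1 hD, symm_pd h0 p (0, 1) (1, 0),
    symm_pd h1 p (0, 1) (1, 0)]
  have h := idT (hu0 p) (hu1 p) (sp_pd h0 hu0 p (1, 0)) (sp_pd h0 hu0 p (0, 1))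
    (sp_pd h1 hu1 p (1, 0)) (sp_pd h1 hu1 p (0, 1))
  unfold Fa
  rw [← sub_div, div_eq_iff (pow_ne_zero 2 hD)]
  linear_combination h

lemma T3_self (x w : ℂ × ℝ) : T3 x x w = 0 := by
  simp only [T3, cr]; ring

theorem green {N : ℝ} (h0 : ContDiff ℝ ∞ u0) (h1 : ContDiff ℝ ∞ u1)
    (hu0 : ∀ p, sp (u0 p) (u0 p) = 1) (hu1 : ∀ p, sp (u1 p) (u1 p) = 1) (hN : 0 ≤ N)
    (hD : ∀ t ∈ Icc (0 : ℝ) 1, ∀ s ∈ Icc (-N) N, 0 < 1 + sp (u0 (t, s)) (u1 (t, s)))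
    (b0 : ∀ s ∈ Icc (-N) N, u0 (0, s) = u1 (0, s))
    (b1 : ∀ t ∈ Icc (0 : ℝ) 1, u0 (t, N) = u1 (t, N))
    (b2 : ∀ t ∈ Icc (0 : ℝ) 1, u0 (t, -N) = u1 (t, -N)) :
    (∫ t in (0 : ℝ)..1, ∫ s in (-N)..N, (Fa u1 (t, s) - Fa u0 (t, s))) =
      ∫ s in (-N)..N, Lm u0 u1 (0, 1) (1, s) := by
  have hN' : -N ≤ N := by linarith
  have hu : uIcc (0 : ℝ) 1 = Icc 0 1 := uIcc_of_le zero_le_one
  have hv : uIcc (-N) N = Icc (-N) N := uIcc_of_le hN'
  have cF : Continuous fun p => Fa u1 p - Fa u0 p := by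
    have k : ∀ {u : ℝ × ℝ → ℂ × ℝ}, ContDiff ℝ ∞ u → Continuous (Fa u) := by
      intro u hu
      refine continuous_iff_continuousAt.2 fun p => ?_
      exact (cda_T3 hu.contDiffAt (contDiff_pd hu _).contDiffAt
        (contDiff_pd hu _).contDiffAt).continuousAt
    exact (k h1).sub (k h0)
  have hDc : ∀ p ∈ Icc (0 : ℝ) 1 ×ˢ Icc (-N) N, 1 + sp (u0 p) (u1 p) ≠ 0 := by
    rintro ⟨t, s⟩ ⟨ht, hs⟩
    exact (hD t ht s hs).ne'
  have key := integral2_divergence_prod_of_hasFDerivAt_off_countable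
    (Lm u0 u1 (0, 1)) (fun p => - Lm u0 u1 (1, 0) p)
    (fun p => fderiv ℝ (Lm u0 u1 (0, 1)) p) (fun p => - fderiv ℝ (Lm u0 u1 (1, 0)) p)
    0 (-N) 1 N ∅ countable_empty ?_ ?_ ?_ ?_ ?_
  · have e1 : (∫ t in (0 : ℝ)..1, ∫ s in (-N)..N, (Fa u1 (t, s) - Fa u0 (t, s))) =
        ∫ x in (0 : ℝ)..1, ∫ y in (-N)..N, (fderiv ℝ (Lm u0 u1 (0, 1)) (x, y) (1, 0) +
          (-fderiv ℝ (Lm u0 u1 (1, 0)) (x, y)) (0, 1)) := by
      refine intervalIntegral.integral_congr fun t ht => ?_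
      refine intervalIntegral.integral_congr fun s hs => ?_
      rw [hu] at ht
      rw [hv] at hs
      change Fa u1 (t, s) - Fa u0 (t, s) = fderiv ℝ (Lm u0 u1 (0, 1)) (t, s) (1, 0) -
        fderiv ℝ (Lm u0 u1 (1, 0)) (t, s) (0, 1)
      exact (div_Lm h0 h1 hu0 hu1 (hDc (t, s) ⟨ht, hs⟩)).symm
    rw [e1, key]
    have z : ∀ (e p : ℝ × ℝ), u0 p = u1 p → Lm u0 u1 e p = 0 := by
      intro e p hp
      unfold Lm
      rw [hp, T3_self, zero_div]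
    have z1 : (∫ x in (0 : ℝ)..1, -Lm u0 u1 (1, 0) (x, N)) = 0 := by
      rw [intervalIntegral.integral_congr (g := fun _ => 0)]
      · simp
      · intro t ht
        rw [hu] at ht
        change -Lm u0 u1 (1, 0) (t, N) = 0
        rw [z _ _ (b1 t ht), neg_zero]
    have z2 : (∫ x in (0 : ℝ)..1, -Lm u0 u1 (1, 0) (x, -N)) = 0 := by
      rw [intervalIntegral.integral_congr (g := fun _ => 0)]
      · simp
      · intro t ht
        rw [hu] at ht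
        change -Lm u0 u1 (1, 0) (t, -N) = 0
        rw [z _ _ (b2 t ht), neg_zero]
    have z3 : (∫ y in (-N)..N, Lm u0 u1 (0, 1) (0, y)) = 0 := by
      rw [intervalIntegral.integral_congr (g := fun _ => 0)]
      · simp
      · intro s hs
        rw [hv] at hs
        exact z _ _ (b0 s hs)
    rw [z1, z2, z3]
    ring
  · rw [hu, hv]
    exact fun p hp => (cda_Lm h0 h1 (hDc p hp) _).continuousAt.continuousWithinAt
  · rw [hu, hv]
    exact fun p hp => (cda_Lm h0 h1 (hDc p hp) _).continuousAt.neg.continuousWithinAt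
  · rintro p ⟨⟨hp1, hp2⟩, -⟩
    rw [min_eq_left zero_le_one, max_eq_right zero_le_one] at hp1
    rw [min_eq_left hN', max_eq_right hN'] at hp2
    have hp : p ∈ Icc (0 : ℝ) 1 ×ˢ Icc (-N) N := ⟨Ioo_subset_Icc_self hp1, Ioo_subset_Icc_self hp2⟩
    exact ((cda_Lm h0 h1 (hDc p hp) _).differentiableAt (by simp)).hasFDerivAt
  · rintro p ⟨⟨hp1, hp2⟩, -⟩
    rw [min_eq_left zero_le_one, max_eq_right zero_le_one] at hp1
    rw [min_eq_left hN', max_eq_right hN'] at hp2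
    have hp : p ∈ Icc (0 : ℝ) 1 ×ˢ Icc (-N) N := ⟨Ioo_subset_Icc_self hp1, Ioo_subset_Icc_self hp2⟩
    exact ((cda_Lm h0 h1 (hDc p hp) _).differentiableAt (by simp)).hasFDerivAt.neg
  · rw [hu, hv]
    have h2 : IntegrableOn (fun p => Fa u1 p - Fa u0 p) (Icc (0 : ℝ) 1 ×ˢ Icc (-N) N) :=
      cF.continuousOn.integrableOn_compact (isCompact_Icc.prod isCompact_Icc)
    refine h2.congr_fun ?_ (measurableSet_Icc.prod measurableSet_Icc)
    intro p hp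
    change Fa u1 p - Fa u0 p = fderiv ℝ (Lm u0 u1 (0, 1)) p (1, 0) -
      fderiv ℝ (Lm u0 u1 (1, 0)) p (0, 1)
    exact (div_Lm h0 h1 hu0 hu1 (hDc p hp)).symm

end Pool.Agent.TH608.FX
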