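import Pool.Agent.TH608.FX.Swap

/-!
# The local symplectic map which interchanges two coordinates near the origin
-/

open scoped ContDiff Topology Manifold
open Set Filter

noncomputable section

namespace Pool.Agent.TH608.FX

/-- the scalar angle -/
def gm (a : Fin 3 → ℝ) (i j : Fin 3) (θ : ℝ → ℝ) (Z : V) : ℝ :=
  -2 * deriv θ (rr a Z) * PP a i j Z

/-- the local map -/
def bl (a : Fin 3 → ℝ) (i j : Fin 3) (θ : ℝ → ℝ) (Z : V) : V :=
  TR a i j (gm a i j θ Z) (θ (rr a Z)) Z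

/-- the derivative of `rr` -/
def drr (a : Fin 3 → ℝ) (Z v : V) : ℝ := 2 * ∑ k, a k * dt (Z k) (v k)

/-- the derivative of `PP` -/
def dPP (a : Fin 3 → ℝ) (i j : Fin 3) (Z v : V) : ℝ :=
  √(a i) * √(a j) * (cr (v i) (Z j) + cr (Z i) (v j))

/-- multiplication by the scalar `i` -/
def iV (Z : V) : V := fun k => Complex.I * Z k

variable {a : Fin 3 → ℝ} {i j : Fin 3}

lemma contDiff_rr : ContDiff ℝ ∞ (rr a) := by
  unfold rr
  refine ContDiff.sum fun k _ => contDiff_const.mul ?_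
  exact contDiff_dt.comp (contDiff_apply ℝ ℂ k)

lemma contDiff_PP : ContDiff ℝ ∞ (PP a i j) := by
  unfold PP cr
  have h1 : ∀ k : Fin 3, ContDiff ℝ ∞ (fun Z : V => (Z k).re) := fun k =>
    Complex.reCLM.contDiff.comp (contDiff_apply ℝ ℂ k)
  have h2 : ∀ k : Fin 3, ContDiff ℝ ∞ (fun Z : V => (Z k).im) := fun k =>
    Complex.imCLM.contDiff.comp (contDiff_apply ℝ ℂ k)
  exact contDiff_const.mul (((h1 i).mul (h2 j)).sub ((h2 i).mul (h1 j)))

lemma contDiff_TR : ContDiff ℝ ∞ (fun p : ℝ × ℝ × V => TR a i j p.1 p.2.1 p.2.2) := by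
  refine contDiff_pi.2 fun k => ?_
  have h1 : ContDiff ℝ ∞ (fun p : ℝ × ℝ × V => ee p.1) := contDiff_ee.comp contDiff_fst
  have h2 : ContDiff ℝ ∞ (fun p : ℝ × ℝ × V => Real.cos p.2.1) :=
    Real.contDiff_cos.comp contDiff_snd.fst
  have h3 : ContDiff ℝ ∞ (fun p : ℝ × ℝ × V => Real.sin p.2.1) :=
    Real.contDiff_sin.comp contDiff_snd.fst
  have h4 : ∀ k : Fin 3, ContDiff ℝ ∞ (fun p : ℝ × ℝ × V => p.2.2 k) := fun k =>
    (contDiff_apply ℝ ℂ k).comp contDiff_snd.snd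
  unfold TR
  by_cases e1 : k = i
  · simp only [e1, if_true]
    exact h1.mul ((h2.smul (h4 i)).sub ((contDiff_const.mul h3).smul (h4 j)))
  · by_cases e2 : k = j
    · simp only [e1, e2, if_true, if_false]
      by_cases e3 : j = i
      · simp only [e3, if_true]
        exact h1.mul ((h2.smul (h4 i)).sub ((contDiff_const.mul h3).smul (h4 i)))
      · simp only [e3, if_false]
        exact h1.mul (((contDiff_const.mul h3).smul (h4 i)).add (h2.smul (h4 j)))
    · simp only [e1, e2, if_false]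
      exact h1.mul (h4 k)

lemma contDiff_gm {θ : ℝ → ℝ} (hθ : ContDiff ℝ ∞ θ) : ContDiff ℝ ∞ (gm a i j θ) := by
  unfold gm
  have h1 : ContDiff ℝ ∞ (deriv θ) := (contDiff_infty_iff_deriv.1 hθ).2
  exact (contDiff_const.mul (h1.comp contDiff_rr)).mul contDiff_PP

lemma contDiff_bl {θ : ℝ → ℝ} (hθ : ContDiff ℝ ∞ θ) : ContDiff ℝ ∞ (bl a i j θ) := by
  have h1 : ContDiff ℝ ∞ (fun Z : V => (gm a i j θ Z, θ (rr a Z), Z)) :=
    (contDiff_gm hθ).prodMk ((hθ.comp contDiff_rr).prodMk contDiff_id)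
  exact contDiff_TR.comp h1

lemma hasDerivAt_rr {z : ℝ → V} {t : ℝ} {v : V} (hz : HasDerivAt z v t) :
    HasDerivAt (fun s => rr a (z s)) (drr a (z t) v) t := by
  have hzk : ∀ k, HasDerivAt (fun s => z s k) (v k) t := fun k => hasDerivAt_pi.1 hz k
  have h1 : ∀ k, HasDerivAt (fun s => a k * dt (z s k) (z s k)) (a k * (2 * dt (z t k) (v k))) t := by
    intro k
    have := (hasFDerivAt_dt (z t k)).comp_hasDerivAt t (hzk k)
    exact (this.const_mul (a k)).congr_deriv (by simp)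
  have h2 := HasDerivAt.fun_sum (u := Finset.univ) (fun k _ => h1 k)
  refine h2.congr_deriv ?_
  unfold drr
  rw [Finset.mul_sum]
  exact Finset.sum_congr rfl fun k _ => by ring

lemma hasDerivAt_cr {u v : ℝ → ℂ} {u' v' : ℂ} {t : ℝ} (hu : HasDerivAt u u' t)
    (hv : HasDerivAt v v' t) :
    HasDerivAt (fun s => cr (u s) (v s)) (cr u' (v t) + cr (u t) v') t := by
  have h1 : ∀ {w : ℝ → ℂ} {w' : ℂ}, HasDerivAt w w' t → HasDerivAt (fun s => (w s).re) w'.re t :=
    fun hw => Complex.reCLM.hasFDerivAt.comp_hasDerivAt t hw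
  have h2 : ∀ {w : ℝ → ℂ} {w' : ℂ}, HasDerivAt w w' t → HasDerivAt (fun s => (w s).im) w'.im t :=
    fun hw => Complex.imCLM.hasFDerivAt.comp_hasDerivAt t hw
  unfold cr
  refine (((h1 hu).mul (h2 hv)).sub ((h2 hu).mul (h1 hv))).congr_deriv ?_
  ring

lemma hasDerivAt_PP {z : ℝ → V} {t : ℝ} {v : V} (hz : HasDerivAt z v t) :
    HasDerivAt (fun s => PP a i j (z s)) (dPP a i j (z t) v) t := by
  have hzk : ∀ k, HasDerivAt (fun s => z s k) (v k) t := fun k => hasDerivAt_pi.1 hz k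
  exact (hasDerivAt_cr (hzk i) (hzk j)).const_mul _

/-- the derivative of `gm` -/
def dgm (a : Fin 3 → ℝ) (i j : Fin 3) (θ : ℝ → ℝ) (Z v : V) : ℝ :=
  -2 * (deriv (deriv θ) (rr a Z) * drr a Z v * PP a i j Z + deriv θ (rr a Z) * dPP a i j Z v)

lemma hasDerivAt_gm {θ : ℝ → ℝ} (hθ : ContDiff ℝ ∞ θ) {z : ℝ → V} {t : ℝ} {v : V}
    (hz : HasDerivAt z v t) :
    HasDerivAt (fun s => gm a i j θ (z s)) (dgm a i j θ (z t) v) t := by
  have h1 : ContDiff ℝ ∞ (deriv θ) := (contDiff_infty_iff_deriv.1 hθ).2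
  have h2 : HasDerivAt (deriv θ) (deriv (deriv θ) (rr a (z t))) (rr a (z t)) :=
    ((h1.differentiable (by simp)) _).hasDerivAt
  have h3 : HasDerivAt (fun s => deriv θ (rr a (z s))) (deriv (deriv θ) (rr a (z t)) * drr a (z t) v)
      t := HasDerivAt.comp (h₂ := deriv θ) (h := fun s => rr a (z s)) t h2 (hasDerivAt_rr hz)
  refine ((h3.const_mul (-2)).mul (hasDerivAt_PP hz)).congr_deriv ?_
  unfold dgm
  ring

section

variable (ha : ∀ k, 0 < a k) (hij : i ≠ j)
include ha hij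

lemma rr_bl (θ : ℝ → ℝ) (Z : V) : rr a (bl a i j θ Z) = rr a Z := rr_TR ha hij _ _ _

lemma PP_bl (θ : ℝ → ℝ) (Z : V) : PP a i j (bl a i j θ Z) = PP a i j Z := PP_TR ha hij _ _ _

lemma bl_bl {θ θ' : ℝ → ℝ} (h : ∀ r, θ r + θ' r = 0) (Z : V) :
    bl a i j θ (bl a i j θ' Z) = Z := by
  have e : θ = fun r => - θ' r := funext fun r => by linarith [h r]
  have hd : ∀ r, deriv θ r + deriv θ' r = 0 := by
    intro r
    rw [e]
    have : deriv (fun r => - θ' r) r = - deriv θ' r := deriv.fun_neg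
    rw [this]; ring
  have e1 : bl a i j θ (bl a i j θ' Z) =
      TR a i j (-2 * deriv θ (rr a (bl a i j θ' Z)) * PP a i j (bl a i j θ' Z))
        (θ (rr a (bl a i j θ' Z))) (bl a i j θ' Z) := rfl
  rw [e1, rr_bl ha hij, PP_bl ha hij]
  unfold bl
  rw [TR_TR ha hij, h]
  unfold gm
  have e2 : -2 * deriv θ (rr a Z) * PP a i j Z + -2 * deriv θ' (rr a Z) * PP a i j Z = 0 := by
    linear_combination (-2 * PP a i j Z) * hd (rr a Z)
  rw [e2, TR_zero hij]

lemma fderiv_bl {θ : ℝ → ℝ} (hθ : ContDiff ℝ ∞ θ) (Z v : V) :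
    fderiv ℝ (bl a i j θ) Z v = TR a i j (gm a i j θ Z) (θ (rr a Z))
      (v + dgm a i j θ Z v • iV Z + (deriv θ (rr a Z) * drr a Z v) • SS a i j Z) := by
  have h1 : HasFDerivAt (bl a i j θ) (fderiv ℝ (bl a i j θ) Z) Z :=
    (((contDiff_bl hθ).differentiable (by simp)) Z).hasFDerivAt
  have hz : HasDerivAt (fun s : ℝ => Z + s • v) v 0 := by
    have := ((hasDerivAt_id (0 : ℝ)).smul_const v).const_add Z
    simpa using this
  have hz0 : (fun s : ℝ => Z + s • v) 0 = Z := by simp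
  have h1' : HasFDerivAt (bl a i j θ) (fderiv ℝ (bl a i j θ) Z) ((fun s : ℝ => Z + s • v) 0) := by
    rw [hz0]; exact h1
  have h2 := h1'.comp_hasDerivAt 0 hz
  have h3 : HasDerivAt θ (deriv θ (rr a Z)) (rr a Z) :=
    ((hθ.differentiable (by simp)) _).hasDerivAt
  have h3' : HasDerivAt θ (deriv θ (rr a Z)) (rr a ((fun s : ℝ => Z + s • v) 0)) := by
    rw [hz0]; exact h3
  have h4 : HasDerivAt (fun s : ℝ => θ (rr a (Z + s • v)))
      (deriv θ (rr a Z) * drr a ((fun s : ℝ => Z + s • v) 0) v) 0 := h3'.comp 0 (hasDerivAt_rr hz)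
  have h5 := hasDerivAt_TR ha hij (hasDerivAt_gm (a := a) (i := i) (j := j) hθ hz) h4 hz
  have h6 := h2.unique h5
  simp only [zero_smul, add_zero] at h6
  exact h6

omit ha hij in
lemma OV_iV (Z w : V) : OV a (iV Z) w = - (1 / 2) * drr a Z w := by
  unfold OV iV drr
  rw [Finset.mul_sum, Finset.mul_sum]
  refine Finset.sum_congr rfl fun k _ => ?_
  have : cr (Complex.I * Z k) (w k) = - dt (Z k) (w k) := by simp [cr, dt]; ring
  rw [this]; ring

lemma OV_SS (Z w : V) : OV a (SS a i j Z) w = dPP a i j Z w := by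
  have hi := Real.sq_sqrt (ha i).le
  have hj := Real.sq_sqrt (ha j).le
  have si : 0 < √(a i) := Real.sqrt_pos.mpr (ha i)
  have sj : 0 < √(a j) := Real.sqrt_pos.mpr (ha j)
  unfold OV dPP
  rw [Finset.sum_eq_add i j hij]
  · have e1 : SS a i j Z i = -(√(a j) / √(a i)) • Z j := by simp [SS]
    have e2 : SS a i j Z j = (√(a i) / √(a j)) • Z i := by simp [SS, hij.symm]
    rw [e1, e2, cr_smul_left, cr_smul_left]
    generalize √(a i) = s at *
    generalize √(a j) = t at *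
    rw [← hi, ← hj]
    field_simp
    simp only [cr]
    ring
  · intro k _ hk
    have : SS a i j Z k = 0 := by simp [SS, hk.1, hk.2]
    rw [this]
    simp [cr]
  · intro h; exact absurd (Finset.mem_univ _) h
  · intro h; exact absurd (Finset.mem_univ _) h

omit ha in
lemma dPP_iV (Z : V) : dPP a i j Z (iV Z) = 0 := by
  unfold dPP iV
  have e : cr (Complex.I * Z i) (Z j) + cr (Z i) (Complex.I * Z j) = 0 := by
    simp [cr]; ring
  rw [e, mul_zero]

lemma OV_bl {θ : ℝ → ℝ} (hθ : ContDiff ℝ ∞ θ) (Z v w : V) :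
    OV a (fderiv ℝ (bl a i j θ) Z v) (fderiv ℝ (bl a i j θ) Z w) = OV a v w := by
  rw [fderiv_bl ha hij hθ, fderiv_bl ha hij hθ, OV_TR ha hij]
  have radd : ∀ u v w : V, OV a u (v + w) = OV a u v + OV a u w := fun u v w => by
    rw [OV_swap, OV_add, OV_swap a v u, OV_swap a w u]; ring
  have rsmul : ∀ (c : ℝ) (u v : V), OV a u (c • v) = c * OV a u v := fun c u v => by
    rw [OV_swap, OV_smul, OV_swap a v u]; ring
  have self : ∀ u : V, OV a u u = 0 := fun u => by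
    have := OV_swap a u u
    linarith
  simp only [OV_add, OV_smul, radd, rsmul, self]
  have e1 : OV a (SS a i j Z) (iV Z) = 0 := by rw [OV_SS ha hij, dPP_iV hij]
  have e2 : OV a (iV Z) (SS a i j Z) = 0 := by rw [OV_swap, e1, neg_zero]
  rw [e1, e2, OV_swap a v (iV Z), OV_swap a v (SS a i j Z), OV_iV, OV_iV, OV_SS ha hij,
    OV_SS ha hij]
  unfold dgm
  ring

end

end Pool.Agent.TH608.FX
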