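import Pool.Agent.TH608.FX.MB

/-!
# The loops of Hamiltonian diffeomorphisms and their Hamiltonians near `p` and `q`
-/

open scoped ContDiff Topology Manifold
open Set Filter

noncomputable section

namespace Pool.Agent.TH608.FX

open Pool.Agent.H844R2.AG

variable {a : Fin 3 → ℝ} {i j : Fin 3}

/-! ### Twist maps as Hamiltonian paths -/

/-- a function of the heights -/
def HG (a : Fin 3 → ℝ) (Γ : Fin 3 → ℝ → ℝ) (y : M) : ℝ := ∑ k, a k * Γ k (co y k).2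

lemma contMDiff_HG {Γ : Fin 3 → ℝ → ℝ} (hΓ : ∀ k, ContDiff ℝ ∞ (Γ k)) :
    ContMDiff 𝓘(ℝ, V) 𝓘(ℝ, ℝ) ∞ (HG a Γ) := by
  have h1 : ContDiff ℝ ∞ (fun y : A => ∑ k, a k * Γ k (y k).2) := by
    refine ContDiff.sum fun k _ => contDiff_const.mul ?_
    exact (hΓ k).comp (contDiff_apply ℝ (ℂ × ℝ) k).snd
  exact h1.contMDiff.comp contMDiff_co

lemma neg_comp {F : ℝ → M → M}
    (hF : ContMDiff (𝓘(ℝ, ℝ).prod 𝓘(ℝ, V)) 𝓘(ℝ, V) ∞ (fun p : ℝ × M => F p.1 p.2)) :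
    ContMDiff (𝓘(ℝ, ℝ).prod 𝓘(ℝ, V)) 𝓘(ℝ, V) ∞ (fun p : ℝ × M => F (-p.1) p.2) := by
  have e : ContMDiff (𝓘(ℝ, ℝ).prod 𝓘(ℝ, V)) (𝓘(ℝ, ℝ).prod 𝓘(ℝ, V)) ∞
      (fun p : ℝ × M => ((-p.1 : ℝ), p.2)) := by
    refine ContMDiff.prodMk ?_ contMDiff_snd
    have : ContMDiff 𝓘(ℝ, ℝ) 𝓘(ℝ, ℝ) ∞ (fun s : ℝ => -s) := contDiff_neg.contMDiff
    exact this.comp contMDiff_fst
  exact hF.comp e

lemma HP_RM (a : Fin 3 → ℝ) {Γ γ : Fin 3 → ℝ → ℝ} (hγ : ∀ k, ContDiff ℝ ∞ (γ k))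
    (hΓs : ∀ k, ContDiff ℝ ∞ (Γ k)) (hΓ : ∀ k h, HasDerivAt (Γ k) (γ k h) h) :
    HP (eta a) (fun _ y => HG a Γ y) (fun t x => RM γ t x) (fun t x => RM γ (-t) x) := by
  have e1 : ContMDiff (𝓘(ℝ, ℝ).prod 𝓘(ℝ, V)) 𝓘(ℝ, V) ∞ (fun p : ℝ × M => RM γ (-p.1) p.2) :=
    neg_comp (F := RM γ) (contMDiff_RM hγ)
  have e2 : ContMDiff (𝓘(ℝ, ℝ).prod 𝓘(ℝ, V)) 𝓘(ℝ, ℝ) ∞ (fun p : ℝ × M => HG a Γ p.2) :=
    (contMDiff_HG hΓs).comp contMDiff_snd
  have e3 : ∀ (t : ℝ) (x : M), ∃ X : V, FlowAt (eta a) (HG a Γ) (fun s => RM γ s x) t X :=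
    fun t x => flowAt_RM a hγ hΓ t x
  exact ⟨e2, contMDiff_RM hγ, e1, RM_zero γ, RM_neg γ, RM_neg' γ,
    fun t x => presAt_RM a hγ t x, e3⟩

/-! ### Rotations -/

/-- the weights `(1, -1)` in the factors `i`, `j` -/
def cv (i j : Fin 3) (k : Fin 3) : ℝ := if k = i then 1 else if k = j then -1 else 0

/-- constant angular velocities -/
def gc (i j : Fin 3) (k : Fin 3) (_ : ℝ) : ℝ := cv i j k

/-- their primitives -/
def Gc (i j : Fin 3) (k : Fin 3) (h : ℝ) : ℝ := cv i j k * (h - 1)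

lemma contDiff_gc (k : Fin 3) : ContDiff ℝ ∞ (gc i j k) := contDiff_const

lemma contDiff_Gc (k : Fin 3) : ContDiff ℝ ∞ (Gc i j k) :=
  contDiff_const.mul (contDiff_id.sub contDiff_const)

lemma hasDerivAt_Gc (k : Fin 3) (h : ℝ) : HasDerivAt (Gc i j k) (gc i j k h) h := by
  have := ((hasDerivAt_id h).sub_const 1).const_mul (cv i j k)
  refine this.congr_deriv ?_
  simp [gc]

/-- the rotation by `t` in the factor `i` and by `-t` in the factor `j` -/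
def rot (i j : Fin 3) (t : ℝ) (x : M) : M := RM (gc i j) t x

/-- the linear rotation of `V` -/
def dg (i j : Fin 3) (t : ℝ) (Z : V) : V := fun k => ee (t * cv i j k) * Z k

lemma EA_twA (t : ℝ) (x : A) : EA (twA (gc i j) t x) = dg i j t (EA x) := by
  funext k
  unfold EA Eh twA tw dg gc
  simp only [Complex.real_smul]
  ring

lemma GA_dg (t : ℝ) (Z : V) : GA (dg i j t Z) = twA (gc i j) t (GA Z) := by
  funext k
  unfold GA Gh twA tw dg gc
  simp only [dt_ee, Complex.real_smul]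
  refine Prod.ext ?_ rfl
  simp only
  ring

lemma rr_dg (t : ℝ) (Z : V) : rr a (dg i j t Z) = rr a Z := by
  unfold rr dg
  simp only [dt_ee]

lemma dg_dg (s t : ℝ) (Z : V) : dg i j s (dg i j t Z) = dg i j (s + t) Z := by
  funext k
  unfold dg
  rw [add_mul, ee_add, mul_assoc]

lemma rp_twA (γ : Fin 3 → ℝ → ℝ) (t : ℝ) (x : A) : rp a (twA γ t x) = rp a x := rfl

lemma rp_RM (γ : Fin 3 → ℝ → ℝ) (t : ℝ) (x : M) : rp a (co (RM γ t x)) = rp a (co x) := by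
  rw [co_RM]; rfl

lemma rq_RM (γ : Fin 3 → ℝ → ℝ) (t : ℝ) (x : M) : rq a (co (RM γ t x)) = rq a (co x) := by
  rw [co_RM]; rfl

lemma rp_rot (t : ℝ) (x : M) : rp a (co (rot i j t x)) = rp a (co x) := rp_RM _ _ _

lemma HG_RM (Γ γ : Fin 3 → ℝ → ℝ) (t : ℝ) (x : M) : HG a Γ (RM γ t x) = HG a Γ x := by
  unfold HG
  simp only [RM_snd]

section

variable (hij : i ≠ j)
include hij

lemma TR_dg {c : ℝ} (hc : Real.cos c = 0) (t : ℝ) (Z : V) :
    TR a i j 0 c (dg i j t Z) = dg i j (-t) (TR a i j 0 c Z) := by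
  funext k
  by_cases h1 : k = i
  · subst h1
    simp [TR, dg, cv, hc, hij.symm]
    ring
  · by_cases h2 : k = j
    · subst h2
      simp [TR, dg, cv, hc, hij.symm]
      ring
    · simp [TR, dg, cv, h1, h2, ee_zero]

variable (ha : ∀ k, 1 ≤ a k)
include ha

omit ha hij in
lemma bl_lt {θ : ℝ → ℝ} {c : ℝ} (hθ1 : ∀ r < 1, θ r = c) {Z : V} (h : rr a Z < 1) :
    bl a i j θ Z = TR a i j 0 c Z := by
  have e2 : deriv θ (rr a Z) = 0 := by
    have : θ =ᶠ[𝓝 (rr a Z)] fun _ => c := by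
      filter_upwards [Iio_mem_nhds h] with r hr
      exact hθ1 r hr
    rw [this.deriv_eq, deriv_const]
  unfold bl gm
  rw [e2, hθ1 _ h]
  simp only [mul_zero, zero_mul]

lemma co_bM_one {θ : ℝ → ℝ} {c : ℝ} (hθ1 : ∀ r < 1, θ r = c) {x : M} (h : rp a (co x) < 1) :
    co (bM a i j θ x) = GA (TR a i j 0 c (EA (co x))) := by
  have h3 : rp a (co x) < 3 := by linarith
  rw [co_bM_lt ha hij θ h3, bl_lt hθ1 (by rw [rr_EA ha (sp_co x) h3]; exact h)]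

lemma bM_rot {θ : ℝ → ℝ} {c : ℝ} (hθ1 : ∀ r < 1, θ r = c) (hc : Real.cos c = 0) {x : M}
    (h : rp a (co x) < 1) (t : ℝ) :
    bM a i j θ (rot i j t x) = rot i j (-t) (bM a i j θ x) := by
  apply co_inj
  unfold rot
  rw [co_bM_one hij ha hθ1 (by rw [rp_RM]; exact h), co_RM, co_RM, co_bM_one hij ha hθ1 h,
    EA_twA, TR_dg hij hc, GA_dg]

lemma HG_bM {θ : ℝ → ℝ} {c : ℝ} (hθ1 : ∀ r < 1, θ r = c) (hc : Real.cos c = 0) {x : M}
    (h : rp a (co x) < 1) :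
    HG a (Gc i j) (bM a i j θ x) = - HG a (Gc i j) x := by
  have h3 : rp a (co x) < 3 := by linarith
  have e0 : co x = GA (EA (co x)) := (GA_EA ha (sp_co x) h3).symm
  have e1 : HG a (Gc i j) x = ∑ k, a k * Gc i j k (GA (EA (co x)) k).2 := by
    rw [← e0]; rfl
  rw [e1]
  unfold HG
  rw [co_bM_one hij ha hθ1 h]
  generalize EA (co x) = Z
  have e2 : ∀ Z : V, ∑ k, a k * Gc i j k (GA Z k).2 = -(1 / 2) * ∑ k, a k * (cv i j k * dt (Z k) (Z k)) := by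
    intro Z
    rw [Finset.mul_sum]
    refine Finset.sum_congr rfl fun k _ => ?_
    unfold Gc GA Gh
    simp only
    ring
  rw [e2, e2]
  have e3 : ∑ k, a k * (cv i j k * dt (TR a i j 0 c Z k) (TR a i j 0 c Z k)) =
      ∑ k, -(a k * (cv i j k * dt (Z k) (Z k))) := by
    have hs : Real.sin c ^ 2 = 1 := by
      have := Real.cos_sq_add_sin_sq c
      rw [hc] at this
      linarith
    refine sum_two hij (fun k h1 h2 => by simp [cv, h1, h2]) ?_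
    have hi := Real.sq_sqrt (apos ha i).le
    have hj := Real.sq_sqrt (apos ha j).le
    have si : 0 < √(a i) := Real.sqrt_pos.mpr (apos ha i)
    have sj : 0 < √(a j) := Real.sqrt_pos.mpr (apos ha j)
    rw [TR_i (apos ha) hij, TR_j hij, hc]
    simp only [zero_smul, zero_sub, add_zero, dt_ee]
    have c1 : cv i j i = 1 := by simp [cv]
    have c2 : cv i j j = -1 := by simp [cv, hij.symm]
    rw [c1, c2]
    have n1 : ∀ u : ℂ, dt (-u) (-u) = dt u u := fun u => by simp [dt]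
    rw [n1, dt_smul_left, dt_smul_right, dt_smul_left, dt_smul_right]
    generalize √(a i) = s at *
    generalize √(a j) = t at *
    rw [← hi, ← hj]
    field_simp
    rw [hs]
    ring
  rw [e3, Finset.sum_neg_distrib]
  ring

end

end Pool.Agent.TH608.FX
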