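import Pool.Agent.TH608.FX.Loop

/-!
# The loops and their Hamiltonians near `p` and `q`, continued
-/

open scoped ContDiff Topology Manifold
open Set Filter

noncomputable section

namespace Pool.Agent.TH608.FX

open Pool.Agent.H844R2.AG

variable {a : Fin 3 → ℝ} {i j : Fin 3}

/-- the cut-off angles -/
def th (s : ℝ) (r : ℝ) : ℝ := s * (Real.pi / 2) * Real.smoothTransition (2 - r)

lemma contDiff_th (s : ℝ) : ContDiff ℝ ∞ (th s) := by
  unfold th
  exact contDiff_const.mul (Real.smoothTransition.contDiff.comp (contDiff_const.sub contDiff_id))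

lemma th_gt (s : ℝ) (r : ℝ) (h : 2 < r) : th s r = 0 := by
  unfold th
  rw [Real.smoothTransition.zero_of_nonpos (by linarith), mul_zero]

lemma th_lt (s : ℝ) (r : ℝ) (h : r < 1) : th s r = s * (Real.pi / 2) := by
  unfold th
  rw [Real.smoothTransition.one_of_one_le (by linarith), mul_one]

lemma th_add (r : ℝ) : th 1 r + th (-1) r = 0 := by
  unfold th; ring

lemma th_add' (r : ℝ) : th (-1) r + th 1 r = 0 := by
  unfold th; ring

lemma cos_pos1 : Real.cos (1 * (Real.pi / 2)) = 0 := by rw [one_mul]; exact Real.cos_pi_div_two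
lemma cos_neg1 : Real.cos (-1 * (Real.pi / 2)) = 0 := by
  rw [neg_one_mul, Real.cos_neg]; exact Real.cos_pi_div_two

/-- the symplectic diffeomorphism which interchanges the coordinates `i`, `j` near `p` and
near `q` -/
def bb (a : Fin 3 → ℝ) (i j : Fin 3) (x : M) : M :=
  bM a i j (th 1) (sM (bM a i j (th 1) (sM x)))

/-- its inverse -/
def bb' (a : Fin 3 → ℝ) (i j : Fin 3) (x : M) : M :=
  sM (bM a i j (th (-1)) (sM (bM a i j (th (-1)) x)))

lemma sM_rot (t : ℝ) (x : M) : sM (rot i j t x) = rot i j (-t) (sM x) := by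
  apply co_inj
  unfold rot
  rw [co_sM, co_RM, co_RM, co_sM]
  funext k
  rw [sgA_apply, sgL_true]
  unfold twA tw gc
  rw [sgA_apply, sgL_true]
  refine Prod.ext ?_ rfl
  simp only
  rw [map_mul]
  congr 1
  apply Complex.ext
  · rw [Complex.conj_re, ee_re, ee_re, neg_mul, Real.cos_neg]
  · rw [Complex.conj_im, ee_im, ee_im, neg_mul, Real.sin_neg]

lemma pres4 {η : TwoForm 𝓘(ℝ, V) M} {f s : M → M} (hf : ContMDiff 𝓘(ℝ, V) 𝓘(ℝ, V) ∞ f)
    (hs : ContMDiff 𝓘(ℝ, V) 𝓘(ℝ, V) ∞ s) (pf : ∀ x, PresAt η f x) (ps : ∀ x, PresAt η s x)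
    (x : M) : PresAt η (fun x => f (s (f (s x)))) x := by
  have df : ∀ z, MDifferentiableAt 𝓘(ℝ, V) 𝓘(ℝ, V) f z := fun z =>
    (hf z).mdifferentiableAt (by simp)
  have ds : ∀ z, MDifferentiableAt 𝓘(ℝ, V) 𝓘(ℝ, V) s z := fun z =>
    (hs z).mdifferentiableAt (by simp)
  have c1 : ContMDiff 𝓘(ℝ, V) 𝓘(ℝ, V) ∞ (fun x => f (s x)) := hf.comp hs
  have c2 : ContMDiff 𝓘(ℝ, V) 𝓘(ℝ, V) ∞ (fun x => s (f (s x))) := hs.comp c1
  have p1 : PresAt η (fun x => f (s x)) x := PresAt.comp (pf _) (ps x) (df _) (ds _)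
  have p2 : PresAt η (fun x => s (f (s x))) x :=
    PresAt.comp (ps _) p1 (ds _) ((c1 x).mdifferentiableAt (by simp))
  exact PresAt.comp (pf _) p2 (df _) ((c2 x).mdifferentiableAt (by simp))

/-- the sum of the weights -/
def CC (a : Fin 3 → ℝ) (i j : Fin 3) : ℝ := ∑ k, a k * cv i j k

lemma CC_eq (hij : i ≠ j) : CC a i j = a i - a j := by
  unfold CC
  rw [Finset.sum_eq_add i j hij]
  · simp [cv, hij.symm]; ring
  · intro k _ hk
    simp [cv, hk.1, hk.2]
  · intro h; exact absurd (Finset.mem_univ _) h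
  · intro h; exact absurd (Finset.mem_univ _) h

lemma HG_sM (x : M) : HG a (Gc i j) (sM x) = - HG a (Gc i j) x - 2 * CC a i j := by
  unfold HG CC Gc
  rw [Finset.mul_sum, ← Finset.sum_neg_distrib, ← Finset.sum_sub_distrib]
  refine Finset.sum_congr rfl fun k _ => ?_
  rw [sM_snd]; ring

section

variable (ha : ∀ k, 1 ≤ a k)
include ha

lemma rq_gt {x : M} (h : rp a (co x) < 1) : 2 < rq a (co x) := by
  have h1 := rp_add_rq (a := a) (co x)
  have h2 := sum_four ha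
  linarith

lemma rp_gt {x : M} (h : rq a (co x) < 1) : 2 < rp a (co x) := by
  have h1 := rp_add_rq (a := a) (co x)
  have h2 := sum_four ha
  linarith

variable (hij : i ≠ j)
include hij

lemma bb_bb' (x : M) : bb a i j (bb' a i j x) = x := by
  unfold bb bb'
  rw [sM_sM, bM_bM ha hij th_add, sM_sM, bM_bM ha hij th_add]

lemma bb'_bb (x : M) : bb' a i j (bb a i j x) = x := by
  unfold bb bb'
  rw [bM_bM ha hij th_add', sM_sM, bM_bM ha hij th_add', sM_sM]

lemma contMDiff_bb : ContMDiff 𝓘(ℝ, V) 𝓘(ℝ, V) ∞ (bb a i j) := by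
  have h := contMDiff_bM ha hij (contDiff_th 1) (th_gt 1)
  exact h.comp (contMDiff_sM.comp (h.comp contMDiff_sM))

lemma contMDiff_bb' : ContMDiff 𝓘(ℝ, V) 𝓘(ℝ, V) ∞ (bb' a i j) := by
  have h := contMDiff_bM ha hij (contDiff_th (-1)) (th_gt (-1))
  exact contMDiff_sM.comp (h.comp (contMDiff_sM.comp h))

lemma presAt_bb (x : M) : PresAt (eta a) (bb a i j) x :=
  pres4 (contMDiff_bM ha hij (contDiff_th 1) (th_gt 1)) contMDiff_sM
    (presAt_bM ha hij (contDiff_th 1) (th_gt 1)) (presAt_sM a) x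

lemma rq_bM (θ : ℝ → ℝ) (x : M) : rq a (co (bM a i j θ x)) = rq a (co x) := by
  have h1 := rp_add_rq (a := a) (co x)
  have h2 := rp_add_rq (a := a) (co (bM a i j θ x))
  rw [rp_bM ha hij] at h2
  linarith

lemma bb_near_p {x : M} (h : rp a (co x) < 1) : bb a i j x = bM a i j (th 1) x := by
  unfold bb
  rw [bM_gt ha hij (th_gt 1) (x := sM x) (by rw [rp_sM]; exact rq_gt ha h), sM_sM]

lemma bb'_near_p {x : M} (h : rp a (co x) < 1) : bb' a i j x = bM a i j (th (-1)) x := by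
  unfold bb'
  rw [bM_gt ha hij (th_gt (-1)) (x := sM (bM a i j (th (-1)) x))
    (by rw [rp_sM, rq_bM ha hij]; exact rq_gt ha h), sM_sM]

lemma bb_near_q {x : M} (h : rq a (co x) < 1) :
    bb a i j x = sM (bM a i j (th 1) (sM x)) := by
  unfold bb
  rw [bM_gt ha hij (th_gt 1) (x := sM (bM a i j (th 1) (sM x)))
    (by rw [rp_sM, rq_bM ha hij, rq_sM]; exact rp_gt ha h)]

lemma bb'_near_q {x : M} (h : rq a (co x) < 1) :
    bb' a i j x = sM (bM a i j (th (-1)) (sM x)) := by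
  unfold bb'
  rw [bM_gt ha hij (th_gt (-1)) (x := x) (rp_gt ha h)]

lemma conj_near_p {x : M} (h : rp a (co x) < 1) (t : ℝ) :
    bb a i j (rot i j t (bb' a i j x)) = rot i j (-t) x := by
  rw [bb'_near_p ha hij h]
  have h1 : rp a (co (bM a i j (th (-1)) x)) < 1 := by rw [rp_bM ha hij]; exact h
  rw [bb_near_p ha hij (by rw [rp_rot]; exact h1), bM_rot hij ha (th_lt 1) cos_pos1 h1,
    bM_bM ha hij th_add]

lemma conj_near_q {x : M} (h : rq a (co x) < 1) (t : ℝ) :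
    bb a i j (rot i j t (bb' a i j x)) = rot i j (-t) x := by
  rw [bb'_near_q ha hij h]
  have h0 : rp a (co (sM x)) < 1 := by rw [rp_sM]; exact h
  have h1 : rp a (co (bM a i j (th (-1)) (sM x))) < 1 := by rw [rp_bM ha hij]; exact h0
  have e1 : rot i j t (sM (bM a i j (th (-1)) (sM x))) =
      sM (rot i j (-t) (bM a i j (th (-1)) (sM x))) := by
    rw [sM_rot, neg_neg]
  rw [e1, bb_near_q ha hij (by rw [rq_sM, rp_rot]; exact h1), sM_sM,
    bM_rot hij ha (th_lt 1) cos_pos1 h1, bM_bM ha hij th_add, sM_rot, sM_sM, neg_neg]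

lemma HG_near_p {x : M} (h : rp a (co x) < 1) :
    HG a (Gc i j) (bb' a i j x) = - HG a (Gc i j) x := by
  rw [bb'_near_p ha hij h, HG_bM hij ha (th_lt (-1)) cos_neg1 h]

lemma HG_near_q {x : M} (h : rq a (co x) < 1) :
    HG a (Gc i j) (bb' a i j x) = - HG a (Gc i j) x - 4 * CC a i j := by
  have h0 : rp a (co (sM x)) < 1 := by rw [rp_sM]; exact h
  rw [bb'_near_q ha hij h, HG_sM, HG_bM hij ha (th_lt (-1)) cos_neg1 h0, HG_sM]
  ring

end

/-! ### Paths with controlled behaviour near `p` and `q` -/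

/-- a Hamiltonian path which is stationary near `p`, `q`, with Hamiltonian `0` near `p` and `ℓ`
near `q` -/
structure TP (a : Fin 3 → ℝ) (h : ℝ → M → ℝ) (Φ Ψ : ℝ → M → M) (ℓ : ℝ) : Prop where
  hp : HP (eta a) h Φ Ψ
  pΦ : ∀ t x, rp a (co x) < 1 → Φ t x = x
  ph : ∀ t x, rp a (co x) < 1 → h t x = 0
  qΦ : ∀ t x, rq a (co x) < 1 → Φ t x = x
  qh : ∀ t x, rq a (co x) < 1 → h t x = ℓ

lemma TP.comp {h h' : ℝ → M → ℝ} {Φ Φ' Ψ Ψ' : ℝ → M → M} {ℓ ℓ' : ℝ} (H : TP a h Φ Ψ ℓ)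
    (H' : TP a h' Φ' Ψ' ℓ') :
    TP a (fun t x => h t x + h' t (Ψ t x)) (fun t x => Φ t (Φ' t x))
      (fun t x => Ψ' t (Ψ t x)) (ℓ + ℓ') := by
  have e1 : ∀ t x, Φ t x = x → Ψ t x = x := fun t x h => by
    conv_lhs => rw [← h]
    exact H.hp.left_inv t x
  refine ⟨H.hp.comp H'.hp, ?_, ?_, ?_, ?_⟩
  · intro t x hx
    rw [H'.pΦ t x hx, H.pΦ t x hx]
  · intro t x hx
    rw [e1 t x (H.pΦ t x hx), H.ph t x hx, H'.ph t x hx, add_zero]
  · intro t x hx
    rw [H'.qΦ t x hx, H.qΦ t x hx]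
  · intro t x hx
    rw [e1 t x (H.qΦ t x hx), H.qh t x hx, H'.qh t x hx]

lemma TP.scale {h : ℝ → M → ℝ} {Φ Ψ : ℝ → M → M} {ℓ : ℝ} (H : TP a h Φ Ψ ℓ) (c : ℝ) :
    TP a (fun t x => c * h (c * t) x) (fun t x => Φ (c * t) x) (fun t x => Ψ (c * t) x)
      (c * ℓ) := by
  refine ⟨H.hp.scale c, fun t x hx => H.pΦ _ x hx, ?_, fun t x hx => H.qΦ _ x hx, ?_⟩
  · intro t x hx
    rw [H.ph _ x hx, mul_zero]
  · intro t x hx
    rw [H.qh _ x hx]

/-- the loop -/
def lam (a : Fin 3 → ℝ) (i j : Fin 3) (t : ℝ) (x : M) : M :=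
  rot i j t (bb a i j (rot i j t (bb' a i j x)))

/-- its inverse -/
def lam' (a : Fin 3 → ℝ) (i j : Fin 3) (t : ℝ) (x : M) : M :=
  bb a i j (rot i j (-t) (bb' a i j (rot i j (-t) x)))

/-- its Hamiltonian -/
def Hlam (a : Fin 3 → ℝ) (i j : Fin 3) (t : ℝ) (x : M) : ℝ :=
  HG a (Gc i j) x + HG a (Gc i j) (bb' a i j (rot i j (-t) x))

lemma HP_rot : HP (eta a) (fun _ y => HG a (Gc i j) y) (rot i j) (fun t => rot i j (-t)) :=
  HP_RM a contDiff_gc contDiff_Gc hasDerivAt_Gc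

lemma rot_zero (x : M) : rot i j 0 x = x := RM_zero _ _

lemma rot_neg (t : ℝ) (x : M) : rot i j t (rot i j (-t) x) = x := RM_neg _ _ _

lemma rot_two_pi (n : ℤ) (x : M) : rot i j (2 * Real.pi * n) x = x := by
  apply co_inj
  unfold rot
  rw [co_RM]
  funext k
  unfold twA tw gc
  have : ee (2 * Real.pi * n * cv i j k) = 1 := by
    obtain ⟨m, hm⟩ : ∃ m : ℤ, cv i j k = m := by
      unfold cv
      split_ifs
      · exact ⟨1, by simp⟩
      · exact ⟨-1, by simp⟩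
      · exact ⟨0, by simp⟩
    rw [hm]
    have := ee_two_pi_int (n * m)
    push_cast at this
    rw [← this]
    congr 1
    ring
  rw [this, one_mul]

lemma TP_lam (ha : ∀ k, 1 ≤ a k) (hij : i ≠ j) :
    TP a (Hlam a i j) (lam a i j) (lam' a i j) (-4 * (a i - a j)) := by
  have h1 := HP.comp (HP_rot (a := a) (i := i) (j := j))
    (HP.conj (HP_rot (a := a) (i := i) (j := j)) (contMDiff_bb ha hij) (contMDiff_bb' ha hij)
      (bb_bb' ha hij) (bb'_bb ha hij) (presAt_bb ha hij))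
  refine ⟨h1, ?_, ?_, ?_, ?_⟩
  · intro t x hx
    unfold lam
    rw [conj_near_p ha hij hx, rot_neg]
  · intro t x hx
    unfold Hlam
    rw [HG_near_p ha hij (by rw [rp_rot]; exact hx)]
    unfold rot
    rw [HG_RM]; ring
  · intro t x hx
    unfold lam
    rw [conj_near_q ha hij hx, rot_neg]
  · intro t x hx
    unfold Hlam
    rw [HG_near_q ha hij (by unfold rot; rw [rq_RM]; exact hx)]
    unfold rot
    rw [HG_RM, CC_eq hij]; ring

lemma lam_two_pi (ha : ∀ k, 1 ≤ a k) (hij : i ≠ j) (n : ℤ) (x : M) :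
    lam a i j (2 * Real.pi * n) x = x := by
  unfold lam
  rw [rot_two_pi, rot_two_pi, bb_bb' ha hij]

end Pool.Agent.TH608.FX
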