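import Pool.Agent.TH608.FX.Comp

/-!
# Hamiltonian paths, with their inverses
-/

open scoped Manifold ContDiff Topology
open Set Filter

noncomputable section

namespace Pool.Agent.TH608.FX

open Pool.Agent.H844R2.AG

variable {E : Type} [NormedAddCommGroup E] [NormedSpace ℝ E]
  {H : Type} [TopologicalSpace H] {I : ModelWithCorners ℝ E H}
  {M : Type} [TopologicalSpace M] [ChartedSpace H M]

/-- A smooth path `Φ` of symplectic diffeomorphisms with inverses `Ψ`, starting at the identity,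
which is the flow of the smooth time-dependent Hamiltonian `h` (no condition on supports). -/
structure HP (η : TwoForm I M) (h : ℝ → M → ℝ) (Φ Ψ : ℝ → M → M) : Prop where
  smooth_h : ContMDiff (𝓘(ℝ, ℝ).prod I) 𝓘(ℝ, ℝ) ∞ (fun p : ℝ × M => h p.1 p.2)
  smooth : ContMDiff (𝓘(ℝ, ℝ).prod I) I ∞ (fun p : ℝ × M => Φ p.1 p.2)
  smooth' : ContMDiff (𝓘(ℝ, ℝ).prod I) I ∞ (fun p : ℝ × M => Ψ p.1 p.2)
  zero : ∀ x, Φ 0 x = x
  right_inv : ∀ t x, Φ t (Ψ t x) = x
  left_inv : ∀ t x, Ψ t (Φ t x) = x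
  pres : ∀ t x, PresAt η (Φ t) x
  flow : ∀ t x, ∃ X : E, FlowAt η (h t) (fun s => Φ s x) t X

lemma slice_mdiff {E' : Type} [NormedAddCommGroup E'] [NormedSpace ℝ E']
    {H' : Type} [TopologicalSpace H'] {I' : ModelWithCorners ℝ E' H'}
    {N : Type} [TopologicalSpace N] [ChartedSpace H' N] {F : ℝ → M → N}
    (hF : ContMDiff (𝓘(ℝ, ℝ).prod I) I' ∞ (fun p : ℝ × M => F p.1 p.2)) (t : ℝ) :
    ContMDiff I I' ∞ (F t) := by
  have h1 : ContMDiff I (𝓘(ℝ, ℝ).prod I) ∞ (fun x : M => (t, x)) :=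
    contMDiff_const.prodMk contMDiff_id
  exact (hF.comp h1).congr fun x => rfl

lemma slice_md {E' : Type} [NormedAddCommGroup E'] [NormedSpace ℝ E']
    {H' : Type} [TopologicalSpace H'] {I' : ModelWithCorners ℝ E' H'}
    {N : Type} [TopologicalSpace N] [ChartedSpace H' N] {F : ℝ → M → N}
    (hF : ContMDiff (𝓘(ℝ, ℝ).prod I) I' ∞ (fun p : ℝ × M => F p.1 p.2)) (t : ℝ) :
    MDifferentiable I I' (F t) := (slice_mdiff hF t).mdifferentiable (by simp)

lemma PresAt.comp {η : TwoForm I M} {f g : M → M} {x : M} (hf : PresAt η f (g x))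
    (hg : PresAt η g x) (df : MDifferentiableAt I I f (g x)) (dg : MDifferentiableAt I I g x) :
    PresAt η (fun y => f (g y)) x := by
  intro v w
  have e : (derivAt I (fun y => f (g y)) x : E →L[ℝ] E) =
      ((derivAt I f (g x)).comp (derivAt I g x) : E →L[ℝ] E) := by
    have h1 : HasMFDerivAt I I (f ∘ g) x ((derivAt I f (g x)).comp (derivAt I g x) : E →L[ℝ] E) :=
      HasMFDerivAt.comp x df.hasMFDerivAt dg.hasMFDerivAt
    exact h1.mfderiv
  rw [e]
  exact (hf _ _).trans (hg _ _)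

lemma PresAt.inv {η : TwoForm I M} {f g : M → M} {x : M} (hf : PresAt η f (g x))
    (hi : ∀ z, f (g z) = z) (df : MDifferentiableAt I I f (g x))
    (dg : MDifferentiableAt I I g x) : PresAt η g x := by
  intro v w
  have e : ((derivAt I f (g x)).comp (derivAt I g x) : E →L[ℝ] E) =
      ContinuousLinearMap.id ℝ E := by
    have h1 : HasMFDerivAt I I (f ∘ g) x ((derivAt I f (g x)).comp (derivAt I g x) : E →L[ℝ] E) :=
      HasMFDerivAt.comp x df.hasMFDerivAt dg.hasMFDerivAt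
    have h2 : f ∘ g = id := funext hi
    rw [h2] at h1
    have := h1.mfderiv
    rw [mfderiv_id] at this
    exact this.symm
  have e1 : ∀ u : E, derivAt I f (g x) (derivAt I g x u) = u := fun u =>
    congrArg (fun L : E →L[ℝ] E => L u) e
  have h3 := hf (derivAt I g x v) (derivAt I g x w)
  rw [e1, e1] at h3
  rw [← h3, hi]

lemma FlowAt.cast {η : TwoForm I M} {g g' : M → ℝ} {c c' : ℝ → M} {t : ℝ} {X : E}
    (h : FlowAt η g c t X) (hg : g = g') (hc : c = c') : FlowAt η g' c' t X := by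
  subst hg hc; exact h

variable {η : TwoForm I M} {h h' : ℝ → M → ℝ} {Φ Φ' Ψ Ψ' : ℝ → M → M}

lemma HP.comp (hp : HP η h Φ Ψ) (hp' : HP η h' Φ' Ψ') :
    HP η (fun t x => h t x + h' t (Ψ t x)) (fun t x => Φ t (Φ' t x))
      (fun t x => Ψ' t (Ψ t x)) where
  smooth_h := by
    have e : ContMDiff (𝓘(ℝ, ℝ).prod I) (𝓘(ℝ, ℝ).prod I) ∞
      (fun p : ℝ × M => (p.1, Ψ p.1 p.2)) := contMDiff_fst.prodMk hp.smooth'
    exact hp.smooth_h.add (hp'.smooth_h.comp e)
  smooth := by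
    have e : ContMDiff (𝓘(ℝ, ℝ).prod I) (𝓘(ℝ, ℝ).prod I) ∞
      (fun p : ℝ × M => (p.1, Φ' p.1 p.2)) := contMDiff_fst.prodMk hp'.smooth
    exact hp.smooth.comp e
  smooth' := by
    have e : ContMDiff (𝓘(ℝ, ℝ).prod I) (𝓘(ℝ, ℝ).prod I) ∞
      (fun p : ℝ × M => (p.1, Ψ p.1 p.2)) := contMDiff_fst.prodMk hp.smooth'
    exact hp'.smooth'.comp e
  zero x := by rw [hp'.zero, hp.zero]
  right_inv t x := by rw [hp'.right_inv, hp.right_inv]
  left_inv t x := by rw [hp.left_inv, hp'.left_inv]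
  pres t x := PresAt.comp (hp.pres t _) (hp'.pres t x) (slice_md hp.smooth t _)
    (slice_md hp'.smooth t _)
  flow t x := by
    obtain ⟨X, hX⟩ := hp.flow t (Φ' t x)
    obtain ⟨Y, hY⟩ := hp'.flow t x
    exact ⟨_, FlowAt.two hp.smooth (slice_md hp.smooth_h t) (slice_md hp'.smooth_h t)
      (slice_md hp.smooth' t) (hp.right_inv t) (hp.left_inv t _) (hp.pres t _) hX hY⟩

/-- conjugation by a symplectic diffeomorphism -/
lemma HP.conj (hp : HP η h Φ Ψ) {b b' : M → M} (hb : ContMDiff I I ∞ b)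
    (hb' : ContMDiff I I ∞ b') (h1 : ∀ z, b (b' z) = z) (h2 : ∀ z, b' (b z) = z)
    (h3 : ∀ z, PresAt η b z) :
    HP η (fun t x => h t (b' x)) (fun t x => b (Φ t (b' x))) (fun t x => b (Ψ t (b' x))) where
  smooth_h := by
    have e : ContMDiff (𝓘(ℝ, ℝ).prod I) (𝓘(ℝ, ℝ).prod I) ∞
      (fun p : ℝ × M => (p.1, b' p.2)) := contMDiff_fst.prodMk (hb'.comp contMDiff_snd)
    exact hp.smooth_h.comp e
  smooth := by
    have e : ContMDiff (𝓘(ℝ, ℝ).prod I) (𝓘(ℝ, ℝ).prod I) ∞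
      (fun p : ℝ × M => (p.1, b' p.2)) := contMDiff_fst.prodMk (hb'.comp contMDiff_snd)
    exact hb.comp (hp.smooth.comp e)
  smooth' := by
    have e : ContMDiff (𝓘(ℝ, ℝ).prod I) (𝓘(ℝ, ℝ).prod I) ∞
      (fun p : ℝ × M => (p.1, b' p.2)) := contMDiff_fst.prodMk (hb'.comp contMDiff_snd)
    exact hb.comp (hp.smooth'.comp e)
  zero x := by rw [hp.zero, h1]
  right_inv t x := by rw [h2, hp.right_inv, h1]
  left_inv t x := by rw [h2, hp.left_inv, h1]
  pres t x := by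
    have db : ∀ z, MDifferentiableAt I I b z := fun z => (hb z).mdifferentiableAt (by simp)
    have db' : ∀ z, MDifferentiableAt I I b' z := fun z => (hb' z).mdifferentiableAt (by simp)
    have p' : PresAt η b' x := PresAt.inv (h3 _) h1 (db _) (db' _)
    have k1 : PresAt η (fun z => Φ t (b' z)) x :=
      PresAt.comp (hp.pres t _) p' (slice_md hp.smooth t _) (db' x)
    have dk : MDifferentiableAt I I (fun z => Φ t (b' z)) x :=
      MDifferentiableAt.comp x (slice_md hp.smooth t _) (db' x)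
    exact PresAt.comp (h3 _) k1 (db _) dk
  flow t x := by
    obtain ⟨X, hX⟩ := hp.flow t (b' x)
    exact ⟨_, FlowAt.map hb (slice_md hp.smooth_h t) (hb'.mdifferentiable (by simp)) h1 h2
      (h3 _) hX⟩

/-- linear change of time -/
lemma HP.scale (hp : HP η h Φ Ψ) (c : ℝ) :
    HP η (fun t x => c * h (c * t) x) (fun t x => Φ (c * t) x) (fun t x => Ψ (c * t) x) := by
  have e : ContMDiff (𝓘(ℝ, ℝ).prod I) (𝓘(ℝ, ℝ).prod I) ∞
      (fun p : ℝ × M => ((c * p.1 : ℝ), p.2)) := by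
    refine ContMDiff.prodMk ?_ contMDiff_snd
    have : ContMDiff 𝓘(ℝ, ℝ) 𝓘(ℝ, ℝ) ∞ (fun s : ℝ => c * s) :=
      (contDiff_const.mul contDiff_id).contMDiff
    exact this.comp contMDiff_fst
  refine ⟨?_, hp.smooth.comp e, hp.smooth'.comp e, fun x => by rw [mul_zero, hp.zero],
    fun t x => hp.right_inv _ _, fun t x => hp.left_inv _ _, fun t x => hp.pres _ _, ?_⟩
  · have g1 : ContMDiff 𝓘(ℝ, ℝ) 𝓘(ℝ, ℝ) ∞ (fun s : ℝ => c * s) :=
      (contDiff_const.mul contDiff_id).contMDiff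
    exact g1.comp (hp.smooth_h.comp e)
  · intro t x
    obtain ⟨X, hX⟩ := hp.flow (c * t) x
    have hd : HasDerivAt (fun s : ℝ => c * s) c t := by
      simpa using (hasDerivAt_id t).const_mul c
    exact ⟨_, FlowAt.rescale hX hd (slice_md hp.smooth_h _)⟩

end Pool.Agent.TH608.FX
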