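import Pool.Agent.TH608.FX.Loc
import Pool.Agent.TH608.FX.Path

/-!
# The symplectic map of `M` which interchanges two coordinates near `p`
-/

open scoped ContDiff Topology Manifold
open Set Filter

noncomputable section

namespace Pool.Agent.TH608.FX

open Pool.Agent.H844R2.AG

/-- the function `∑ a_k |Z_k|² = 2 ∑ a_k (1 - h_k)` -/
def rp (a : Fin 3 → ℝ) (x : A) : ℝ := ∑ k, a k * (2 * (1 - (x k).2))

/-- the function `2 ∑ a_k (1 + h_k)` -/
def rq (a : Fin 3 → ℝ) (x : A) : ℝ := ∑ k, a k * (2 * (1 + (x k).2))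

variable {a : Fin 3 → ℝ} {i j : Fin 3}

lemma contDiff_rp : ContDiff ℝ ∞ (rp a) := by
  unfold rp
  refine ContDiff.sum fun k _ => contDiff_const.mul (contDiff_const.mul (contDiff_const.sub ?_))
  exact (contDiff_apply ℝ (ℂ × ℝ) k).snd

lemma continuous_rp : Continuous (rp a) := contDiff_rp.continuous

lemma rp_add_rq (x : A) : rp a x + rq a x = ∑ k, a k * 4 := by
  unfold rp rq
  rw [← Finset.sum_add_distrib]
  exact Finset.sum_congr rfl fun k _ => by ring

lemma rp_GA (Z : V) : rp a (GA Z) = rr a Z := by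
  unfold rp rr
  refine Finset.sum_congr rfl fun k _ => ?_
  unfold GA Gh
  simp only
  ring

section

variable (ha : ∀ k, 1 ≤ a k)
include ha

lemma apos (k : Fin 3) : 0 < a k := lt_of_lt_of_le one_pos (ha k)

lemma sum_four : 12 ≤ ∑ k, a k * 4 := by
  have : ∑ _k : Fin 3, (4 : ℝ) ≤ ∑ k, a k * 4 :=
    Finset.sum_le_sum fun k _ => by linarith [ha k]
  simp at this
  linarith

lemma height_of_rp {x : A} (hx : ∀ k, sp (x k) (x k) = 1) {c : ℝ} (h : rp a x < c) (k : Fin 3) :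
    2 * (1 - (x k).2) < c := by
  have h0 : ∀ k ∈ Finset.univ, 0 ≤ a k * (2 * (1 - (x k).2)) := fun k _ =>
    mul_nonneg (apos ha k).le (by linarith [snd_le (hx k)])
  have h1 := Finset.single_le_sum h0 (Finset.mem_univ k)
  have h2 : 2 * (1 - (x k).2) ≤ a k * (2 * (1 - (x k).2)) := by
    have := ha k
    have h3 : 0 ≤ 2 * (1 - (x k).2) := by linarith [snd_le (hx k)]
    nlinarith
  unfold rp at h
  linarith

lemma src_of_rp {x : A} (hx : ∀ k, sp (x k) (x k) = 1) (h : rp a x < 3) (k : Fin 3) :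
    -1 < (x k).2 := by
  have := height_of_rp ha hx h k
  linarith

lemma rr_EA {x : A} (hx : ∀ k, sp (x k) (x k) = 1) (h : rp a x < 3) : rr a (EA x) = rp a x := by
  unfold rr rp
  refine Finset.sum_congr rfl fun k _ => ?_
  unfold EA
  rw [dt_E (hx k) (src_of_rp ha hx h k)]

lemma TT_of_rr {Z : V} {c : ℝ} (hc : c ≤ 4) (h : rr a Z < c) : Z ∈ TT := by
  intro k
  have h0 : ∀ k ∈ Finset.univ, 0 ≤ a k * dt (Z k) (Z k) := fun k _ =>
    mul_nonneg (apos ha k).le (dt_self_nonneg _)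
  have h1 := Finset.single_le_sum h0 (Finset.mem_univ k)
  have h2 : dt (Z k) (Z k) ≤ a k * dt (Z k) (Z k) := by
    have := ha k
    have h3 := dt_self_nonneg (Z k)
    nlinarith
  unfold rr at h
  linarith

lemma GA_EA {x : A} (hx : ∀ k, sp (x k) (x k) = 1) (h : rp a x < 3) : GA (EA x) = x :=
  funext fun k => G_E (hx k) (src_of_rp ha hx h k)

lemma EA_GA {Z : V} (h : rr a Z < 3) : EA (GA Z) = Z :=
  funext fun k => E_G (TT_of_rr ha (by norm_num) h k)

lemma rp_pos {x : A} (hx : InM x) : 0 < rp a x := by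
  obtain ⟨h1, ⟨k, hk⟩, -⟩ := hx
  have h0 : ∀ k ∈ Finset.univ, 0 ≤ a k * (2 * (1 - (x k).2)) := fun k _ =>
    mul_nonneg (apos ha k).le (by linarith [snd_le (h1 k)])
  refine Finset.sum_pos' h0 ⟨k, Finset.mem_univ k, mul_pos (apos ha k) ?_⟩
  have := lt_of_le_of_ne (snd_le (h1 k)) hk
  linarith

lemma InM_GA {Z : V} (h : rr a Z < 3) (h0 : 0 < rr a Z) : InM (GA Z) := by
  refine ⟨fun k => sp_G (TT_of_rr ha (by norm_num) h k), ?_, ⟨0, ?_⟩⟩
  · by_contra hcon
    push Not at hcon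
    have : rp a (GA Z) = 0 := by
      unfold rp
      refine Finset.sum_eq_zero fun k _ => ?_
      rw [hcon k]; ring
    rw [rp_GA] at this
    linarith
  · have := G_snd_gt (TT_of_rr ha (by norm_num) h 0)
    exact this.ne'

end

open Classical in
/-- the map on the ambient space -/
def bA (a : Fin 3 → ℝ) (i j : Fin 3) (θ : ℝ → ℝ) (x : A) : A :=
  if rp a x < 3 then GA (bl a i j θ (EA x)) else x

/-- the map of `M` supported near `p` -/
def bM (a : Fin 3 → ℝ) (i j : Fin 3) (θ : ℝ → ℝ) (x : M) : M := toM (bA a i j θ (co x))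

section

variable (ha : ∀ k, 1 ≤ a k) (hij : i ≠ j)
include ha hij

lemma bA_InM (θ : ℝ → ℝ) {x : A} (hx : InM x) : InM (bA a i j θ x) := by
  unfold bA
  split_ifs with h
  · have e : rr a (bl a i j θ (EA x)) = rp a x := by
      rw [rr_bl (apos ha) hij, rr_EA ha hx.1 h]
    exact InM_GA ha (by rw [e]; exact h) (by rw [e]; exact rp_pos ha hx)
  · exact hx

lemma co_bM (θ : ℝ → ℝ) (x : M) : co (bM a i j θ x) = bA a i j θ (co x) :=
  co_toM (bA_InM ha hij θ x.2)

lemma co_bM_lt (θ : ℝ → ℝ) {x : M} (h : rp a (co x) < 3) :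
    co (bM a i j θ x) = GA (bl a i j θ (EA (co x))) := by
  rw [co_bM ha hij]
  unfold bA
  rw [if_pos h]

lemma rp_bM (θ : ℝ → ℝ) (x : M) : rp a (co (bM a i j θ x)) = rp a (co x) := by
  rw [co_bM ha hij]
  unfold bA
  split_ifs with h
  · rw [rp_GA, rr_bl (apos ha) hij, rr_EA ha (sp_co x) h]
  · rfl

lemma bM_bM {θ θ' : ℝ → ℝ} (hθ : ∀ r, θ r + θ' r = 0) (x : M) :
    bM a i j θ (bM a i j θ' x) = x := by
  apply co_inj
  by_cases h : rp a (co x) < 3
  · rw [co_bM_lt ha hij θ (by rw [rp_bM ha hij]; exact h), co_bM_lt ha hij θ' h]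
    have e : rr a (bl a i j θ' (EA (co x))) = rp a (co x) := by
      rw [rr_bl (apos ha) hij, rr_EA ha (sp_co x) h]
    rw [EA_GA ha (by rw [e]; exact h), bl_bl (apos ha) hij hθ, GA_EA ha (sp_co x) h]
  · rw [co_bM ha hij]
    unfold bA
    rw [if_neg (by rw [rp_bM ha hij]; exact h), co_bM ha hij]
    unfold bA
    rw [if_neg h]

lemma co_bM_gt {θ : ℝ → ℝ} (hθ2 : ∀ r, 2 < r → θ r = 0) {x : M} (h : 2 < rp a (co x)) :
    co (bM a i j θ x) = co x := by
  by_cases h3 : rp a (co x) < 3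
  · rw [co_bM_lt ha hij θ h3]
    have e : rr a (EA (co x)) = rp a (co x) := rr_EA ha (sp_co x) h3
    have e1 : θ (rr a (EA (co x))) = 0 := hθ2 _ (by rw [e]; exact h)
    have e2 : deriv θ (rr a (EA (co x))) = 0 := by
      have : θ =ᶠ[𝓝 (rr a (EA (co x)))] fun _ => 0 := by
        filter_upwards [Ioi_mem_nhds (by rw [e]; exact h : (2 : ℝ) < rr a (EA (co x)))] with r hr
        exact hθ2 r hr
      rw [this.deriv_eq, deriv_const]
    unfold bl gm
    rw [e1, e2]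
    simp only [mul_zero, zero_mul]
    rw [TR_zero hij, GA_EA ha (sp_co x) h3]
  · rw [co_bM ha hij]
    unfold bA
    rw [if_neg h3]

lemma bM_gt {θ : ℝ → ℝ} (hθ2 : ∀ r, 2 < r → θ r = 0) {x : M} (h : 2 < rp a (co x)) :
    bM a i j θ x = x := co_inj (co_bM_gt ha hij hθ2 h)

lemma contDiffAt_loc {θ : ℝ → ℝ} (hθ : ContDiff ℝ ∞ θ) {x : M} (h : rp a (co x) < 3) :
    ContDiffAt ℝ ∞ (fun y => GA (bl a i j θ (EA y))) (co x) := by
  have e : rr a (bl a i j θ (EA (co x))) = rp a (co x) := by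
    rw [rr_bl (apos ha) hij, rr_EA ha (sp_co x) h]
  have h1 : ContDiffAt ℝ ∞ EA (co x) := contDiffAt_EA (src_of_rp ha (sp_co x) h)
  have h2 : ContDiffAt ℝ ∞ (fun y => bl a i j θ (EA y)) (co x) :=
    ContDiffAt.comp (co x) (contDiff_bl hθ).contDiffAt h1
  exact ContDiffAt.comp (g := GA) (f := fun y => bl a i j θ (EA y)) (co x)
    (contDiffAt_GA (TT_of_rr ha (c := 3) (by norm_num) (by rw [e]; exact h))) h2

lemma evt_lt (θ : ℝ → ℝ) {x : M} (h : rp a (co x) < 3) :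
    (fun y => co (bM a i j θ y)) =ᶠ[𝓝 x] fun y => GA (bl a i j θ (EA (co y))) := by
  have h1 : {y : M | rp a (co y) < 3} ∈ 𝓝 x :=
    (isOpen_lt (continuous_rp.comp continuous_co) continuous_const).mem_nhds h
  filter_upwards [h1] with y hy
  exact co_bM_lt ha hij θ hy

lemma evt_gt {θ : ℝ → ℝ} (hθ2 : ∀ r, 2 < r → θ r = 0) {x : M} (h : 2 < rp a (co x)) :
    (fun y => co (bM a i j θ y)) =ᶠ[𝓝 x] fun y => co y := by
  have h1 : {y : M | 2 < rp a (co y)} ∈ 𝓝 x :=
    (isOpen_lt continuous_const (continuous_rp.comp continuous_co)).mem_nhds h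
  filter_upwards [h1] with y hy
  exact co_bM_gt ha hij hθ2 hy

lemma contMDiff_bM {θ : ℝ → ℝ} (hθ : ContDiff ℝ ∞ θ) (hθ2 : ∀ r, 2 < r → θ r = 0) :
    ContMDiff 𝓘(ℝ, V) 𝓘(ℝ, V) ∞ (bM a i j θ) := by
  intro x
  refine contMDiffAt_to ?_
  by_cases h : rp a (co x) < 3
  · have h1 := (contDiffAt_loc ha hij hθ h).contMDiffAt
    have h2 := ContMDiffAt.comp x h1 (contMDiff_co x)
    exact h2.congr_of_eventuallyEq (evt_lt ha hij θ h)
  · push Not at h
    exact (contMDiff_co x).congr_of_eventuallyEq (evt_gt ha hij hθ2 (by linarith))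

lemma presAt_bM {θ : ℝ → ℝ} (hθ : ContDiff ℝ ∞ θ) (hθ2 : ∀ r, 2 < r → θ r = 0) (x : M) :
    PresAt (eta a) (bM a i j θ) x := by
  have hmd : MDifferentiableAt 𝓘(ℝ, V) 𝓘(ℝ, V) (bM a i j θ) x :=
    (contMDiff_bM ha hij hθ hθ2 x).mdifferentiableAt (by simp)
  intro v w
  change OA a (co (bM a i j θ x)) (dco _ (derivAt 𝓘(ℝ, V) (bM a i j θ) x v))
    (dco _ (derivAt 𝓘(ℝ, V) (bM a i j θ) x w)) = OA a (co x) (dco x v) (dco x w)
  by_cases h : rp a (co x) < 3
  · have e : rr a (bl a i j θ (EA (co x))) = rp a (co x) := by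
      rw [rr_bl (apos ha) hij, rr_EA ha (sp_co x) h]
    have hT : bl a i j θ (EA (co x)) ∈ TT := TT_of_rr ha (c := 3) (by norm_num) (by rw [e]; exact h)
    have d1 : HasFDerivAt EA (dEA (co x)) (co x) := hasFDerivAt_EA (src_of_rp ha (sp_co x) h)
    have d2 : HasFDerivAt (bl a i j θ) (fderiv ℝ (bl a i j θ) (EA (co x))) (EA (co x)) :=
      (((contDiff_bl hθ).differentiable (by simp)) _).hasFDerivAt
    have d3 := hasFDerivAt_GA hT
    have d4 : HasFDerivAt (fun y => GA (bl a i j θ (EA y)))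
        ((dGA (bl a i j θ (EA (co x)))).comp ((fderiv ℝ (bl a i j θ) (EA (co x))).comp
          (dEA (co x)))) (co x) :=
      HasFDerivAt.comp (g := GA) (f := fun y => bl a i j θ (EA y)) (co x) d3 (d2.comp (co x) d1)
    have h1 : ∀ v, dco (bM a i j θ x) (derivAt 𝓘(ℝ, V) (bM a i j θ) x v) =
        dGA (bl a i j θ (EA (co x))) (fderiv ℝ (bl a i j θ) (EA (co x)) (dEA (co x) (dco x v))) :=
      fun v => dco_derivAt hmd d4 (evt_lt ha hij θ h) v
    rw [h1, h1, co_bM_lt ha hij θ h, OA_dGA a hT, OV_bl (apos ha) hij hθ,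
      OV_dEA a (sp_co x) (src_of_rp ha (sp_co x) h) (sp_dco x v) (sp_dco x w)]
  · push Not at h
    have h1 : ∀ v, dco (bM a i j θ x) (derivAt 𝓘(ℝ, V) (bM a i j θ) x v) = dco x v :=
      fun v => dco_derivAt hmd (hasFDerivAt_id (co x)) (evt_gt ha hij hθ2 (by linarith)) v
    rw [h1, h1, co_bM_gt ha hij hθ2 (by linarith)]

end

/-! ### The rotation which interchanges `p` and `q` -/

/-- the rotation `(ζ, h) ↦ (conj ζ, -h)` in all factors -/
def sM (x : M) : M := toM (sgA (fun _ => true) (co x))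

lemma sg_InM {x : A} (hx : InM x) : InM (sgA (fun _ => true) x) := by
  refine ⟨fun k => by rw [sgA_apply, sp_sgL]; exact hx.1 k, ?_, ?_⟩
  · obtain ⟨k, hk⟩ := hx.2.2
    refine ⟨k, ?_⟩
    rw [sgA_apply, sgL_true]
    intro h
    apply hk
    simp only at h
    linarith
  · obtain ⟨k, hk⟩ := hx.2.1
    refine ⟨k, ?_⟩
    rw [sgA_apply, sgL_true]
    intro h
    apply hk
    simp only at h
    linarith

lemma co_sM (x : M) : co (sM x) = sgA (fun _ => true) (co x) := co_toM (sg_InM x.2)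

lemma sM_sM (x : M) : sM (sM x) = x := by
  apply co_inj
  rw [co_sM, co_sM, sgA_sgA]

lemma sM_snd (x : M) (k : Fin 3) : (co (sM x) k).2 = -(co x k).2 := by
  rw [co_sM, sgA_apply, sgL_true]

lemma rp_sM (x : M) : rp a (co (sM x)) = rq a (co x) := by
  unfold rp rq
  refine Finset.sum_congr rfl fun k _ => ?_
  rw [sM_snd]; ring

lemma rq_sM (x : M) : rq a (co (sM x)) = rp a (co x) := by
  unfold rp rq
  refine Finset.sum_congr rfl fun k _ => ?_
  rw [sM_snd]; ring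

lemma contMDiff_sM : ContMDiff 𝓘(ℝ, V) 𝓘(ℝ, V) ∞ sM := by
  refine contMDiff_to ?_
  have h := (sgA (fun _ => true)).contDiff.contMDiff.comp contMDiff_co
  refine h.congr fun x => ?_
  exact co_sM x

lemma presAt_sM (a : Fin 3 → ℝ) (x : M) : PresAt (eta a) sM x := by
  have hmd : MDifferentiableAt 𝓘(ℝ, V) 𝓘(ℝ, V) sM x :=
    (contMDiff_sM x).mdifferentiableAt (by simp)
  intro v w
  change OA a (co (sM x)) (dco _ (derivAt 𝓘(ℝ, V) sM x v))
    (dco _ (derivAt 𝓘(ℝ, V) sM x w)) = OA a (co x) (dco x v) (dco x w)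
  have h1 : ∀ v, dco (sM x) (derivAt 𝓘(ℝ, V) sM x v) = sgA (fun _ => true) (dco x v) :=
    fun v => dco_derivAt hmd (sgA (fun _ => true)).hasFDerivAt
      (Eventually.of_forall fun y => co_sM y) v
  rw [h1, h1, co_sM, OA_sgA]

end Pool.Agent.TH608.FX
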