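import Pool.Agent.TH608.FX.Sph

/-!
# The manifold `(S² × S² × S²) ∖ {p, q}`
-/

open scoped ContDiff Topology Manifold
open Set Filter

noncomputable section

namespace Pool.Agent.TH608.FX

/-- the ambient space `(ℝ³)³` -/
abbrev A : Type := Fin 3 → ℂ × ℝ

/-- the model space `ℂ³ = ℝ⁶` -/
abbrev V : Type := Fin 3 → ℂ

/-- the rotation `(ζ, h) ↦ (conj ζ, -h)` of `ℂ × ℝ = ℝ³` if `b`, else the identity -/
def sgL (b : Bool) : (ℂ × ℝ) →L[ℝ] (ℂ × ℝ) :=
  if b then ((Complex.conjCLE : ℂ →L[ℝ] ℂ).comp (ContinuousLinearMap.fst ℝ ℂ ℝ)).prod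
    (-(ContinuousLinearMap.snd ℝ ℂ ℝ)) else ContinuousLinearMap.id ℝ (ℂ × ℝ)

lemma sgL_true (x : ℂ × ℝ) : sgL true x = ((starRingEnd ℂ) x.1, -x.2) := by
  simp [sgL]

lemma sgL_false (x : ℂ × ℝ) : sgL false x = x := by simp [sgL]

lemma sgL_sgL (b : Bool) (x : ℂ × ℝ) : sgL b (sgL b x) = x := by
  cases b
  · simp [sgL_false]
  · simp [sgL_true]

lemma sp_sgL (b : Bool) (x u : ℂ × ℝ) : sp (sgL b x) (sgL b u) = sp x u := by
  cases b
  · simp [sgL_false]
  · simp [sgL_true, sp, dt]

lemma T3_sgL (b : Bool) (x u w : ℂ × ℝ) : T3 (sgL b x) (sgL b u) (sgL b w) = T3 x u w := by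
  cases b
  · simp [sgL_false]
  · simp [sgL_true, T3, cr]; ring

/-- the rotations in the factors given by `ε` -/
def sgA (ε : Fin 3 → Bool) : A →L[ℝ] A :=
  ContinuousLinearMap.pi fun k => (sgL (ε k)).comp (ContinuousLinearMap.proj k)

@[simp] lemma sgA_apply (ε : Fin 3 → Bool) (x : A) (k : Fin 3) : sgA ε x k = sgL (ε k) (x k) := rfl

lemma sgA_sgA (ε : Fin 3 → Bool) (x : A) : sgA ε (sgA ε x) = x := by
  funext k; simp [sgL_sgL]

/-- the product of the Lambert charts -/
def EA (x : A) : V := fun k => Eh (x k)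

/-- its inverse -/
def GA (Z : V) : A := fun k => Gh (Z k)

/-- Membership of the product of the three unit spheres minus the points `p`, all of whose
coordinates are the north pole `(0, 1)`, and `q`, all of whose coordinates are the south pole
`(0, -1)`. -/
def InM (x : A) : Prop := (∀ k, sp (x k) (x k) = 1) ∧ (∃ k, (x k).2 ≠ 1) ∧ ∃ k, (x k).2 ≠ -1

/-- `M = (S² × S² × S²) ∖ {p, q}` -/
def M : Type := {x : A // InM x}

instance : TopologicalSpace M := inferInstanceAs (TopologicalSpace {x : A // InM x})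
instance : T2Space M := inferInstanceAs (T2Space {x : A // InM x})
instance : SecondCountableTopology M :=
  inferInstanceAs (SecondCountableTopology {x : A // InM x})

/-- the inclusion of `M` into the ambient space -/
def co (x : M) : A := x.1

lemma isEmbedding_co : Topology.IsEmbedding co := Topology.IsEmbedding.subtypeVal

lemma continuous_co : Continuous co := continuous_subtype_val

lemma co_inj {x y : M} (h : co x = co y) : x = y := Subtype.ext h

lemma sp_co (x : M) (k : Fin 3) : sp (co x k) (co x k) = 1 := x.2.1 k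

lemma snd_sq_le {x : ℂ × ℝ} (hx : sp x x = 1) : x.2 ^ 2 ≤ 1 := by
  unfold sp at hx
  nlinarith [dt_self_nonneg x.1]

lemma snd_le {x : ℂ × ℝ} (hx : sp x x = 1) : x.2 ≤ 1 := by
  nlinarith [snd_sq_le hx]

lemma le_snd {x : ℂ × ℝ} (hx : sp x x = 1) : -1 ≤ x.2 := by
  nlinarith [snd_sq_le hx]

lemma continuous_sp : Continuous fun x : ℂ × ℝ => sp x x := by
  unfold sp dt
  have h1 : Continuous fun x : ℂ × ℝ => x.1.re := Complex.continuous_re.comp continuous_fst
  have h2 : Continuous fun x : ℂ × ℝ => x.1.im := Complex.continuous_im.comp continuous_fst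
  exact ((h1.mul h1).add (h2.mul h2)).add (continuous_snd.mul continuous_snd)

lemma continuous_dt : Continuous fun z : ℂ => dt z z := contDiff_dt.continuous

lemma continuous_Gh : Continuous Gh := by
  unfold Gh
  exact ((continuous_const.sub (continuous_dt.div_const 4)).sqrt.smul continuous_id).prodMk
    (continuous_const.sub (continuous_dt.div_const 2))

lemma continuous_GA : Continuous GA :=
  continuous_pi fun k => continuous_Gh.comp (continuous_apply k)

/-- a base point -/
def pt0 : M := ⟨fun _ => (1, 0), fun k => by simp [sp, dt], ⟨0, by norm_num⟩, ⟨0, by norm_num⟩⟩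

/-- the point of `M` with coordinates `x` -/
def mkM (x : A) (h : InM x) : M := ⟨x, h⟩

open Classical in
/-- the point of `M` with coordinates `x` (the base point if `x` is not in `M`) -/
def toM (x : A) : M := if h : InM x then mkM x h else pt0

lemma co_toM {x : A} (h : InM x) : co (toM x) = x := by
  unfold toM
  rw [dif_pos h]
  rfl

/-- the target of the charts, without the condition on `p` and `q` -/
def TT : Set V := {Z | ∀ k, dt (Z k) (Z k) < 4}

lemma isOpen_TT : IsOpen TT := by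
  have : TT = ⋂ k, {Z : V | dt (Z k) (Z k) < 4} := by
    ext Z; simp [TT]
  rw [this]
  exact isOpen_iInter_of_finite fun k =>
    isOpen_lt (continuous_dt.comp (continuous_apply k)) continuous_const

lemma contDiffAt_GA {Z : V} (hZ : Z ∈ TT) : ContDiffAt ℝ ∞ GA Z :=
  contDiffAt_pi.2 fun k => (contDiffAt_G (hZ k)).comp Z (contDiffAt_apply ℝ ℂ k Z)

lemma contDiffAt_EA {x : A} (hx : ∀ k, -1 < (x k).2) : ContDiffAt ℝ ∞ EA x :=
  contDiffAt_pi.2 fun k => (contDiffAt_E (hx k)).comp x (contDiffAt_apply ℝ (ℂ × ℝ) k x)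

lemma sp_GA {Z : V} (hZ : Z ∈ TT) (ε : Fin 3 → Bool) (k : Fin 3) :
    sp (sgA ε (GA Z) k) (sgA ε (GA Z) k) = 1 := by
  rw [sgA_apply, sp_sgL]
  exact sp_G (hZ k)

/-- The chart of `M` centred at the point with coordinates the poles given by `ε`. -/
def ch (ε : Fin 3 → Bool) : OpenPartialHomeomorph M V where
  toFun x := EA (sgA ε (co x))
  invFun Z := toM (sgA ε (GA Z))
  source := {x | ∀ k, -1 < (sgA ε (co x) k).2}
  target := {Z | Z ∈ TT ∧ (∃ k, (sgA ε (GA Z) k).2 ≠ 1) ∧ ∃ k, (sgA ε (GA Z) k).2 ≠ -1}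
  map_source' := by
    intro x hx
    have hx1 : ∀ k, sp (sgA ε (co x) k) (sgA ε (co x) k) = 1 := fun k => by
      rw [sgA_apply, sp_sgL]; exact sp_co x k
    have e1 : GA (EA (sgA ε (co x))) = sgA ε (co x) := funext fun k => G_E (hx1 k) (hx k)
    refine ⟨fun k => ?_, ?_⟩
    · change dt (Eh _) (Eh _) < 4
      rw [dt_E (hx1 k) (hx k)]
      have := hx k
      linarith
    · rw [e1, sgA_sgA]
      exact x.2.2
  map_target' := by
    intro Z hZ
    have h : InM (sgA ε (GA Z)) := ⟨sp_GA hZ.1 ε, hZ.2⟩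
    intro k
    rw [co_toM h, sgA_sgA]
    exact G_snd_gt (hZ.1 k)
  left_inv' := by
    intro x hx
    have hx1 : ∀ k, sp (sgA ε (co x) k) (sgA ε (co x) k) = 1 := fun k => by
      rw [sgA_apply, sp_sgL]; exact sp_co x k
    have e1 : GA (EA (sgA ε (co x))) = sgA ε (co x) := funext fun k => G_E (hx1 k) (hx k)
    have h : InM (sgA ε (GA (EA (sgA ε (co x))))) := by
      rw [e1, sgA_sgA]; exact x.2
    apply co_inj
    rw [co_toM h, e1, sgA_sgA]
  right_inv' := by
    intro Z hZ
    have h : InM (sgA ε (GA Z)) := ⟨sp_GA hZ.1 ε, hZ.2⟩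
    rw [co_toM h, sgA_sgA]
    exact funext fun k => E_G (hZ.1 k)
  open_source := by
    have : {x : M | ∀ k, -1 < (sgA ε (co x) k).2} = ⋂ k, {x : M | -1 < (sgA ε (co x) k).2} := by
      ext x; simp
    rw [this]
    refine isOpen_iInter_of_finite fun k => isOpen_lt continuous_const ?_
    exact continuous_snd.comp ((continuous_apply k).comp ((sgA ε).continuous.comp continuous_co))
  open_target := by
    have hc : ∀ k, Continuous fun Z : V => (sgA ε (GA Z) k).2 := fun k =>
      continuous_snd.comp ((continuous_apply k).comp ((sgA ε).continuous.comp continuous_GA))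
    have e : {Z : V | Z ∈ TT ∧ (∃ k, (sgA ε (GA Z) k).2 ≠ 1) ∧ ∃ k, (sgA ε (GA Z) k).2 ≠ -1} =
        TT ∩ ((⋃ k, {Z : V | (sgA ε (GA Z) k).2 ≠ 1}) ∩
          ⋃ k, {Z : V | (sgA ε (GA Z) k).2 ≠ -1}) := by
      ext Z
      simp only [mem_inter_iff, mem_iUnion, mem_ofPred_eq]
    rw [e]
    exact isOpen_TT.inter ((isOpen_iUnion fun k => isOpen_ne_fun (hc k) continuous_const).inter
      (isOpen_iUnion fun k => isOpen_ne_fun (hc k) continuous_const))
  continuousOn_toFun := by
    intro x hx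
    refine ContinuousAt.continuousWithinAt ?_
    exact ContinuousAt.comp (x := x) (g := EA) (f := fun x => sgA ε (co x))
      (contDiffAt_EA hx).continuousAt ((sgA ε).continuous.comp continuous_co).continuousAt
  continuousOn_invFun := by
    rw [isEmbedding_co.isInducing.continuousOn_iff]
    refine (((sgA ε).continuous.comp continuous_GA).continuousOn).congr ?_
    intro Z hZ
    have h : InM (sgA ε (GA Z)) := ⟨sp_GA hZ.1 ε, hZ.2⟩
    simp only [Function.comp_apply]
    rw [co_toM h]

lemma ch_apply (ε : Fin 3 → Bool) (x : M) : ch ε x = EA (sgA ε (co x)) := rfl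

lemma co_ch_symm {ε : Fin 3 → Bool} {Z : V} (hZ : Z ∈ (ch ε).target) :
    co ((ch ε).symm Z) = sgA ε (GA Z) := by
  have h : InM (sgA ε (GA Z)) := ⟨sp_GA hZ.1 ε, hZ.2⟩
  exact co_toM h

/-- the index of the preferred chart at `x` -/
def idx (x : M) : Fin 3 → Bool := fun k => decide ((co x k).2 < 0)

lemma mem_source_idx (x : M) : x ∈ (ch (idx x)).source := by
  intro k
  rw [sgA_apply]
  by_cases h : (co x k).2 < 0
  · have : idx x k = true := by simp [idx, h]
    rw [this, sgL_true]
    simp only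
    linarith
  · have : idx x k = false := by simp [idx, h]
    rw [this, sgL_false]
    push Not at h
    linarith

instance : ChartedSpace V M where
  atlas := range ch
  chartAt x := ch (idx x)
  mem_chart_source := mem_source_idx
  chart_mem_atlas _ := ⟨_, rfl⟩

lemma chartAt_eq (x : M) : chartAt V x = ch (idx x) := rfl

instance : IsManifold 𝓘(ℝ, V) ∞ M := by
  refine isManifold_of_contDiffOn 𝓘(ℝ, V) ∞ M ?_
  rintro _ _ ⟨ε, rfl⟩ ⟨ε', rfl⟩
  simp only [modelWithCornersSelf_coe, modelWithCornersSelf_coe_symm, Function.id_comp,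
    Function.comp_id, preimage_id, range_id, inter_univ]
  intro Z hZ
  have hZ1 : Z ∈ (ch ε).target := hZ.1
  have hZ2 : (ch ε).symm Z ∈ (ch ε').source := hZ.2
  refine ContDiffAt.contDiffWithinAt ?_
  have h3 : ∀ k, -1 < (sgA ε' (sgA ε (GA Z)) k).2 := by
    intro k
    have := hZ2 k
    rwa [co_ch_symm hZ1] at this
  have h4 : ContDiffAt ℝ ∞ (fun Z => EA (sgA ε' (sgA ε (GA Z)))) Z := by
    refine ContDiffAt.comp (g := EA) (f := fun Z => sgA ε' (sgA ε (GA Z))) Z (contDiffAt_EA h3) ?_
    exact (sgA ε').contDiff.contDiffAt.comp Z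
      ((sgA ε).contDiff.contDiffAt.comp Z (contDiffAt_GA hZ1.1))
  refine h4.congr_of_eventuallyEq ?_
  filter_upwards [(ch ε).open_target.mem_nhds hZ1] with Y hY
  change EA (sgA ε' (co ((ch ε).symm Y))) = _
  rw [co_ch_symm hY]

end Pool.Agent.TH608.FX
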