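import Pool.Agent.TH608.FX.Form
import Pool.Agent.TH608.FX.Comp

/-!
# Twist maps of `M`
-/

open scoped ContDiff Topology Manifold
open Set Filter

noncomputable section

namespace Pool.Agent.TH608.FX

open Pool.Agent.H844R2.AG

/-! ### One factor -/

/-- `e^{i t}` -/
def ee (t : ℝ) : ℂ := Complex.exp (Complex.I * t)

lemma ee_re (t : ℝ) : (ee t).re = Real.cos t := by
  unfold ee; rw [mul_comm, Complex.exp_mul_I]; simp [Complex.cos_ofReal_re]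

lemma ee_im (t : ℝ) : (ee t).im = Real.sin t := by
  unfold ee; rw [mul_comm, Complex.exp_mul_I]; simp [Complex.sin_ofReal_re]

lemma ee_zero : ee 0 = 1 := by simp [ee]

lemma ee_add (s t : ℝ) : ee (s + t) = ee s * ee t := by
  unfold ee; rw [← Complex.exp_add]; congr 1; push_cast; ring

lemma ee_two_pi_int (n : ℤ) : ee (2 * Real.pi * n) = 1 := by
  unfold ee
  rw [Complex.exp_eq_one_iff]
  exact ⟨n, by push_cast; ring⟩

lemma contDiff_ee : ContDiff ℝ ∞ ee := by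
  unfold ee
  have h1 : ContDiff ℝ ∞ (fun t : ℝ => (t : ℂ)) := Complex.ofRealCLM.contDiff
  exact (contDiff_const.mul h1).cexp

lemma hasDerivAt_ee (t : ℝ) : HasDerivAt ee (Complex.I * ee t) t := by
  have h1 : HasDerivAt (fun t : ℝ => (t : ℂ)) 1 t := Complex.ofRealCLM.hasDerivAt
  have h2 := (h1.const_mul Complex.I).cexp
  refine h2.congr_deriv ?_
  unfold ee; ring

lemma cr_ee (t : ℝ) (u v : ℂ) : cr (ee t * u) (ee t * v) = cr u v := by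
  have h := Real.cos_sq_add_sin_sq t
  simp only [cr, Complex.mul_re, Complex.mul_im, ee_re, ee_im]
  linear_combination (u.re * v.im - u.im * v.re) * h

lemma dt_ee (t : ℝ) (u v : ℂ) : dt (ee t * u) (ee t * v) = dt u v := by
  have h := Real.cos_sq_add_sin_sq t
  simp only [dt, Complex.mul_re, Complex.mul_im, ee_re, ee_im]
  linear_combination (u.re * v.re + u.im * v.im) * h

/-- the twist `(ζ, h) ↦ (e^{i t γ(h)} ζ, h)` -/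
def tw (γ : ℝ → ℝ) (t : ℝ) (x : ℂ × ℝ) : ℂ × ℝ := (ee (t * γ x.2) * x.1, x.2)

lemma tw_zero (γ : ℝ → ℝ) (x : ℂ × ℝ) : tw γ 0 x = x := by
  simp [tw, ee_zero]

lemma tw_tw (γ : ℝ → ℝ) (s t : ℝ) (x : ℂ × ℝ) : tw γ s (tw γ t x) = tw γ (s + t) x := by
  simp only [tw]
  rw [add_mul, ee_add, mul_assoc]

lemma sp_tw (γ : ℝ → ℝ) (t : ℝ) (x : ℂ × ℝ) : sp (tw γ t x) (tw γ t x) = sp x x := by
  unfold sp tw
  simp only
  rw [dt_ee]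

/-- the derivative of the twist -/
def dtw (γ : ℝ → ℝ) (t : ℝ) (x u : ℂ × ℝ) : ℂ × ℝ :=
  (ee (t * γ x.2) * (u.1 + (t * deriv γ x.2 * u.2) • (Complex.I * x.1)), u.2)

lemma contDiff_tw {γ : ℝ → ℝ} (hγ : ContDiff ℝ ∞ γ) :
    ContDiff ℝ ∞ (fun p : ℝ × (ℂ × ℝ) => tw γ p.1 p.2) := by
  unfold tw
  have h1 : ContDiff ℝ ∞ (fun p : ℝ × (ℂ × ℝ) => p.2.2) := contDiff_snd.snd
  have h2 : ContDiff ℝ ∞ (fun p : ℝ × (ℂ × ℝ) => p.1 * γ p.2.2) := contDiff_fst.mul (hγ.comp h1)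
  exact ((contDiff_ee.comp h2).mul (contDiff_snd.fst)).prodMk h1

lemma fderiv_tw {γ : ℝ → ℝ} (hγ : ContDiff ℝ ∞ γ) (t : ℝ) (x u : ℂ × ℝ) :
    fderiv ℝ (tw γ t) x u = dtw γ t x u := by
  have h1 : HasFDerivAt (fun x : ℂ × ℝ => x.2) (ContinuousLinearMap.snd ℝ ℂ ℝ) x := hasFDerivAt_snd
  have h2 : HasDerivAt γ (deriv γ x.2) x.2 := ((hγ.differentiable (by simp)) _).hasDerivAt
  have h3 : HasDerivAt (fun h : ℝ => ee (t * γ h)) ((t * deriv γ x.2) • (Complex.I * ee (t * γ x.2)))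
      x.2 := (hasDerivAt_ee _).scomp x.2 (h2.const_mul t)
  have h4 := HasFDerivAt.comp x h3.hasFDerivAt h1
  have h5 := h4.mul (hasFDerivAt_fst (𝕜 := ℝ) (p := x))
  have h6 := h5.prodMk h1
  have h7 : fderiv ℝ (tw γ t) x = _ := h6.fderiv
  rw [h7]
  unfold dtw
  refine Prod.ext ?_ ?_
  · simp
    ring
  · simp

lemma hasDerivAt_tw (γ : ℝ → ℝ) (t : ℝ) (x : ℂ × ℝ) :
    HasDerivAt (fun s => tw γ s x) (γ x.2 • (Complex.I * (tw γ t x).1), 0) t := by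
  have h1 : HasDerivAt (fun s : ℝ => s * γ x.2) (γ x.2) t := by
    simpa using (hasDerivAt_id t).mul_const (γ x.2)
  have h2 := ((hasDerivAt_ee _).scomp t h1).mul_const x.1
  have h3 := h2.prodMk (hasDerivAt_const t x.2)
  refine h3.congr_deriv ?_
  refine Prod.ext ?_ rfl
  simp [tw]
  ring

lemma T3_rot {x w : ℂ × ℝ} (hx : sp x x = 1) (hw : sp x w = 0) (c : ℝ) :
    T3 x (c • (Complex.I * x.1), 0) w = c * w.2 := by
  obtain ⟨⟨x1, x2⟩, x3⟩ := x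
  obtain ⟨⟨w1, w2⟩, w3⟩ := w
  simp only [sp, dt] at hx hw
  simp [T3, cr]
  linear_combination c * w3 * hx - c * x3 * hw

lemma T3_tw {γ : ℝ → ℝ} {t : ℝ} {x u w : ℂ × ℝ} (hu : sp x u = 0)
    (hw : sp x w = 0) : T3 (tw γ t x) (dtw γ t x u) (dtw γ t x w) = T3 x u w := by
  unfold T3 tw dtw
  simp only [cr_ee, cr_add_left, cr_add_right, cr_smul_left, cr_smul_right, cr_self]
  have e1 : ∀ z : ℂ, cr x.1 (Complex.I * x.1) = dt x.1 x.1 := fun _ => by simp [cr, dt]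
  have e2 : ∀ z : ℂ, cr (Complex.I * x.1) z = - dt x.1 z := fun z => by simp [cr, dt]; ring
  have e3 : ∀ z : ℂ, cr z (Complex.I * x.1) = dt x.1 z := fun z => by simp [cr, dt]; ring
  rw [e2, e3, e3]
  unfold sp at hu hw
  linear_combination (t * deriv γ x.2 * w.2 * x.2) * hu - (t * deriv γ x.2 * u.2 * x.2) * hw

/-! ### The product -/

/-- the twist map of the ambient space -/
def twA (γ : Fin 3 → ℝ → ℝ) (t : ℝ) (x : A) : A := fun k => tw (γ k) t (x k)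

lemma twA_InM {γ : Fin 3 → ℝ → ℝ} {t : ℝ} {x : A} (hx : InM x) : InM (twA γ t x) :=
  ⟨fun k => by unfold twA; rw [sp_tw]; exact hx.1 k, hx.2⟩

/-- the twist map of `M` -/
def RM (γ : Fin 3 → ℝ → ℝ) (t : ℝ) (x : M) : M := toM (twA γ t (co x))

lemma co_RM (γ : Fin 3 → ℝ → ℝ) (t : ℝ) (x : M) : co (RM γ t x) = twA γ t (co x) :=
  co_toM (twA_InM x.2)

lemma RM_snd (γ : Fin 3 → ℝ → ℝ) (t : ℝ) (x : M) (k : Fin 3) :
    (co (RM γ t x) k).2 = (co x k).2 := by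
  rw [co_RM]; rfl

lemma RM_zero (γ : Fin 3 → ℝ → ℝ) (x : M) : RM γ 0 x = x := by
  apply co_inj
  rw [co_RM]
  funext k
  exact tw_zero _ _

lemma RM_RM (γ : Fin 3 → ℝ → ℝ) (s t : ℝ) (x : M) : RM γ s (RM γ t x) = RM γ (s + t) x := by
  apply co_inj
  rw [co_RM, co_RM, co_RM]
  funext k
  exact tw_tw _ _ _ _

lemma RM_neg (γ : Fin 3 → ℝ → ℝ) (t : ℝ) (x : M) : RM γ t (RM γ (-t) x) = x := by
  rw [RM_RM, add_neg_cancel, RM_zero]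

lemma RM_neg' (γ : Fin 3 → ℝ → ℝ) (t : ℝ) (x : M) : RM γ (-t) (RM γ t x) = x := by
  rw [RM_RM, neg_add_cancel, RM_zero]

lemma contDiff_twA {γ : Fin 3 → ℝ → ℝ} (hγ : ∀ k, ContDiff ℝ ∞ (γ k)) :
    ContDiff ℝ ∞ (fun p : ℝ × A => twA γ p.1 p.2) := by
  refine contDiff_pi.2 fun k => ?_
  have h1 : ContDiff ℝ ∞ (fun p : ℝ × A => (p.1, p.2 k)) :=
    contDiff_fst.prodMk ((contDiff_apply ℝ (ℂ × ℝ) k).comp contDiff_snd)
  exact (contDiff_tw (hγ k)).comp h1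

lemma contMDiff_RM {γ : Fin 3 → ℝ → ℝ} (hγ : ∀ k, ContDiff ℝ ∞ (γ k)) :
    ContMDiff (𝓘(ℝ, ℝ).prod 𝓘(ℝ, V)) 𝓘(ℝ, V) ∞ (fun p : ℝ × M => RM γ p.1 p.2) := by
  refine contMDiff_to ?_
  have h1' : ContMDiff (𝓘(ℝ, ℝ).prod 𝓘(ℝ, V)) 𝓘(ℝ, ℝ × A) ∞
      (fun p : ℝ × M => (p.1, co p.2)) :=
    contMDiff_fst.prodMk_space (contMDiff_co.comp contMDiff_snd)
  have h2 := (contDiff_twA hγ).contMDiff.comp h1'
  refine h2.congr fun p => ?_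
  exact co_RM _ _ _

lemma contMDiff_RM_t {γ : Fin 3 → ℝ → ℝ} (hγ : ∀ k, ContDiff ℝ ∞ (γ k)) (t : ℝ) :
    ContMDiff 𝓘(ℝ, V) 𝓘(ℝ, V) ∞ (RM γ t) := by
  have h1 : ContMDiff 𝓘(ℝ, V) (𝓘(ℝ, ℝ).prod 𝓘(ℝ, V)) ∞ (fun x : M => (t, x)) :=
    contMDiff_const.prodMk contMDiff_id
  exact ((contMDiff_RM hγ).comp h1).congr fun x => rfl

lemma hasFDerivAt_twA {γ : Fin 3 → ℝ → ℝ} (hγ : ∀ k, ContDiff ℝ ∞ (γ k)) (t : ℝ) (x : A) :
    HasFDerivAt (twA γ t) (fderiv ℝ (twA γ t) x) x := by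
  have h1 : ContDiff ℝ ∞ (twA γ t) :=
    (contDiff_twA hγ).comp (contDiff_const.prodMk contDiff_id)
  exact ((h1.differentiable (by simp)) x).hasFDerivAt

lemma fderiv_twA {γ : Fin 3 → ℝ → ℝ} (hγ : ∀ k, ContDiff ℝ ∞ (γ k)) (t : ℝ) (x u : A)
    (k : Fin 3) : fderiv ℝ (twA γ t) x u k = dtw (γ k) t (x k) (u k) := by
  have h1 := hasFDerivAt_pi'.1 (hasFDerivAt_twA hγ t x) k
  have h2 : HasFDerivAt (fun y : A => y k) (ContinuousLinearMap.proj k : A →L[ℝ] ℂ × ℝ) x :=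
    (ContinuousLinearMap.proj k : A →L[ℝ] ℂ × ℝ).hasFDerivAt
  have h0 : ContDiff ℝ ∞ (tw (γ k) t) :=
    (contDiff_tw (hγ k)).comp (contDiff_const.prodMk contDiff_id)
  have h3 := (((h0.differentiable (by simp)) (x k)).hasFDerivAt).comp x h2
  have h4 := h1.unique h3
  have h5 := congrArg (fun L : A →L[ℝ] ℂ × ℝ => L u) h4
  rw [← fderiv_tw (hγ k)]
  exact h5

/-- the chain rule for a map of `M` with a local expression in the ambient space -/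
lemma dco_derivAt {f : M → M} {F : A → A} {F' : A →L[ℝ] A} {x : M}
    (hf : MDifferentiableAt 𝓘(ℝ, V) 𝓘(ℝ, V) f x)
    (hF : HasFDerivAt F F' (co x)) (he : (fun y => co (f y)) =ᶠ[𝓝 x] fun y => F (co y)) (v : V) :
    dco (f x) (derivAt 𝓘(ℝ, V) f x v) = F' (dco x v) := by
  have h1 : HasMFDerivAt 𝓘(ℝ, V) 𝓘(ℝ, A) (co ∘ f) x
      ((dco (f x)).comp (derivAt 𝓘(ℝ, V) f x) : V →L[ℝ] A) :=
    HasMFDerivAt.comp x (hasMFDerivAt_co (f x)) hf.hasMFDerivAt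
  have h2 : HasMFDerivAt 𝓘(ℝ, V) 𝓘(ℝ, A) (F ∘ co) x (F'.comp (dco x) : V →L[ℝ] A) :=
    HasMFDerivAt.comp x hF.hasMFDerivAt (hasMFDerivAt_co x)
  have h3 := h2.congr_of_eventuallyEq he
  have h4 : ((dco (f x)).comp (derivAt 𝓘(ℝ, V) f x) : V →L[ℝ] A) = F'.comp (dco x) :=
    h1.mfderiv.symm.trans h3.mfderiv
  exact congrArg (fun L : V →L[ℝ] A => L v) h4

lemma presAt_RM (a : Fin 3 → ℝ) {γ : Fin 3 → ℝ → ℝ} (hγ : ∀ k, ContDiff ℝ ∞ (γ k)) (t : ℝ)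
    (x : M) : PresAt (eta a) (RM γ t) x := by
  intro v w
  change OA a (co (RM γ t x)) (dco _ (derivAt 𝓘(ℝ, V) (RM γ t) x v))
    (dco _ (derivAt 𝓘(ℝ, V) (RM γ t) x w)) = OA a (co x) (dco x v) (dco x w)
  have h1 : ∀ v, dco (RM γ t x) (derivAt 𝓘(ℝ, V) (RM γ t) x v) =
      fderiv ℝ (twA γ t) (co x) (dco x v) := fun v =>
    dco_derivAt ((contMDiff_RM_t hγ t x).mdifferentiableAt (by simp)) (hasFDerivAt_twA hγ t (co x))
      (Eventually.of_forall fun y => co_RM γ t y) v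
  rw [h1, h1, co_RM]
  unfold OA
  refine Finset.sum_congr rfl fun k _ => ?_
  rw [fderiv_twA hγ, fderiv_twA hγ]
  congr 1
  exact T3_tw (sp_dco x v k) (sp_dco x w k)

/-- the velocity of a curve in `M` -/
lemma curve_vel {c : ℝ → M} {t : ℝ} {D : A} (hc : MDifferentiableAt 𝓘(ℝ, ℝ) 𝓘(ℝ, V) c t)
    (hD : HasDerivAt (fun s => co (c s)) D t) :
    ∃ X : V, HasMFDerivAt 𝓘(ℝ, ℝ) 𝓘(ℝ, V) c t (((1 : ℝ →L[ℝ] ℝ).smulRight X : ℝ →L[ℝ] V)) ∧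
      dco (c t) X = D := by
  obtain ⟨L, hL⟩ : ∃ L : ℝ →L[ℝ] V, HasMFDerivAt 𝓘(ℝ, ℝ) 𝓘(ℝ, V) c t L :=
    ⟨_, hc.hasMFDerivAt⟩
  have e : L = (1 : ℝ →L[ℝ] ℝ).smulRight (L 1) := by ext; simp
  refine ⟨L 1, e ▸ hL, ?_⟩
  have h1 : HasMFDerivAt 𝓘(ℝ, ℝ) 𝓘(ℝ, A) (co ∘ c) t ((dco (c t)).comp L : ℝ →L[ℝ] A) :=
    HasMFDerivAt.comp t (hasMFDerivAt_co (c t)) hL
  have h2 : HasMFDerivAt 𝓘(ℝ, ℝ) 𝓘(ℝ, A) (co ∘ c) t
      ((1 : ℝ →L[ℝ] ℝ).smulRight D : ℝ →L[ℝ] A) := hD.hasFDerivAt.hasMFDerivAt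
  have h3 : ((dco (c t)).comp L : ℝ →L[ℝ] A) = (1 : ℝ →L[ℝ] ℝ).smulRight D :=
    h1.mfderiv.symm.trans h2.mfderiv
  have h4 := congrArg (fun L : ℝ →L[ℝ] A => L 1) h3
  simpa using h4

/-- the differential of a function of the heights -/
lemma dAt_heights {Γ : Fin 3 → ℝ → ℝ} {γ : Fin 3 → ℝ → ℝ} (a : Fin 3 → ℝ)
    (hΓ : ∀ k h, HasDerivAt (Γ k) (γ k h) h) (x : M) (w : V) :
    dAt 𝓘(ℝ, V) (fun y => ∑ k, a k * Γ k (co y k).2) x w =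
      ∑ k, a k * (γ k (co x k).2 * (dco x w k).2) := by
  have h1 : ∀ k, HasFDerivAt (fun y : A => (y k).2)
      ((ContinuousLinearMap.snd ℝ ℂ ℝ).comp (ContinuousLinearMap.proj k : A →L[ℝ] ℂ × ℝ)) (co x) :=
    fun k => ((ContinuousLinearMap.snd ℝ ℂ ℝ).comp
      (ContinuousLinearMap.proj k : A →L[ℝ] ℂ × ℝ)).hasFDerivAt
  have h2 : HasFDerivAt (fun y : A => ∑ k, a k * Γ k (y k).2)
      (∑ k, a k • (γ k (co x k).2 • ((ContinuousLinearMap.snd ℝ ℂ ℝ).comp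
        (ContinuousLinearMap.proj k : A →L[ℝ] ℂ × ℝ)))) (co x) :=
    HasFDerivAt.fun_sum fun k _ => ((hΓ k _).comp_hasFDerivAt _ (h1 k)).const_mul (a k)
  have h3 : HasMFDerivAt 𝓘(ℝ, V) 𝓘(ℝ, ℝ) ((fun y : A => ∑ k, a k * Γ k (y k).2) ∘ co) x
      ((∑ k, a k • (γ k (co x k).2 • ((ContinuousLinearMap.snd ℝ ℂ ℝ).comp
        (ContinuousLinearMap.proj k : A →L[ℝ] ℂ × ℝ)))).comp (dco x) : V →L[ℝ] ℝ) :=
    HasMFDerivAt.comp x h2.hasMFDerivAt (hasMFDerivAt_co x)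
  have h4 : dAt 𝓘(ℝ, V) (fun y => ∑ k, a k * Γ k (co y k).2) x = _ := h3.mfderiv
  rw [h4]
  simp

/-- The twist maps form the Hamiltonian flow of the corresponding function of the heights. -/
lemma flowAt_RM (a : Fin 3 → ℝ) {Γ γ : Fin 3 → ℝ → ℝ} (hγ : ∀ k, ContDiff ℝ ∞ (γ k))
    (hΓ : ∀ k h, HasDerivAt (Γ k) (γ k h) h) (t : ℝ) (x : M) :
    ∃ X : V, FlowAt (eta a) (fun y => ∑ k, a k * Γ k (co y k).2) (fun s => RM γ s x) t X := by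
  have h0 : ContMDiff 𝓘(ℝ, ℝ) (𝓘(ℝ, ℝ).prod 𝓘(ℝ, V)) ∞ (fun s : ℝ => (s, x)) :=
    contMDiff_id.prodMk contMDiff_const
  have h1 : MDifferentiableAt 𝓘(ℝ, ℝ) 𝓘(ℝ, V) (fun s => RM γ s x) t :=
    (((contMDiff_RM hγ).comp h0) t).mdifferentiableAt (by simp)
  have h2 : HasDerivAt (fun s => co (RM γ s x))
      (fun k => (γ k (co x k).2 • (Complex.I * (co (RM γ t x) k).1), 0)) t := by
    have : (fun s => co (RM γ s x)) = fun s => twA γ s (co x) := funext fun s => co_RM _ _ _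
    rw [this]
    refine hasDerivAt_pi.2 fun k => ?_
    rw [co_RM]
    exact hasDerivAt_tw (γ k) t (co x k)
  obtain ⟨X, hX1, hX2⟩ := curve_vel h1 h2
  refine ⟨X, hX1, fun w => ?_⟩
  change OA a (co (RM γ t x)) (dco (RM γ t x) X) (dco (RM γ t x) w) = _
  rw [hX2, dAt_heights a hΓ]
  unfold OA
  refine Finset.sum_congr rfl fun k _ => ?_
  rw [T3_rot (sp_co _ k) (sp_dco _ w k), RM_snd]

end Pool.Agent.TH608.FX
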