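import Mathlib

/-!
# The unit sphere of `ℂ × ℝ`: the Lambert chart and the area form
-/

open scoped ContDiff Topology
open Set Filter

noncomputable section

namespace Pool.Agent.TH608.FX

/-- `Im (conj u * v)` -/
def cr (u v : ℂ) : ℝ := u.re * v.im - u.im * v.re

/-- `Re (conj u * v)` -/
def dt (u v : ℂ) : ℝ := u.re * v.re + u.im * v.im

/-- the triple product `x · (u × w)` of `ℂ × ℝ = ℝ³` -/
def T3 (x u w : ℂ × ℝ) : ℝ := x.2 * cr u.1 w.1 + w.2 * cr x.1 u.1 - u.2 * cr x.1 w.1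

/-- the scalar product of `ℂ × ℝ = ℝ³` -/
def sp (x u : ℂ × ℝ) : ℝ := dt x.1 u.1 + x.2 * u.2

/-- Lambert's chart -/
def Eh (x : ℂ × ℝ) : ℂ := √(2 / (1 + x.2)) • x.1

/-- the inverse of Lambert's chart -/
def Gh (Z : ℂ) : ℂ × ℝ := (√(1 - dt Z Z / 4) • Z, 1 - dt Z Z / 2)

/-- the derivative of `Eh` -/
def dEh (x u : ℂ × ℝ) : ℂ :=
  √(2 / (1 + x.2)) • (u.1 - (u.2 / (2 * (1 + x.2))) • x.1)

/-- the derivative of `Gh` -/
def dGh (Z v : ℂ) : ℂ × ℝ :=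
  (√(1 - dt Z Z / 4) • v - (dt Z v / (4 * √(1 - dt Z Z / 4))) • Z, - dt Z v)

lemma cr_smul_left (c : ℝ) (u v : ℂ) : cr (c • u) v = c * cr u v := by
  simp [cr]; ring

lemma cr_smul_right (c : ℝ) (u v : ℂ) : cr u (c • v) = c * cr u v := by
  simp [cr]; ring

lemma cr_sub_left (u u' v : ℂ) : cr (u - u') v = cr u v - cr u' v := by
  simp [cr]; ring

lemma cr_sub_right (u v v' : ℂ) : cr u (v - v') = cr u v - cr u v' := by
  simp [cr]; ring

lemma cr_add_left (u u' v : ℂ) : cr (u + u') v = cr u v + cr u' v := by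
  simp [cr]; ring

lemma cr_add_right (u v v' : ℂ) : cr u (v + v') = cr u v + cr u v' := by
  simp [cr]; ring

lemma cr_self (u : ℂ) : cr u u = 0 := by simp [cr]; ring

lemma cr_swap (u v : ℂ) : cr u v = - cr v u := by simp [cr]; ring

lemma dt_smul_left (c : ℝ) (u v : ℂ) : dt (c • u) v = c * dt u v := by
  simp [dt]; ring

lemma dt_smul_right (c : ℝ) (u v : ℂ) : dt u (c • v) = c * dt u v := by
  simp [dt]; ring

lemma dt_self_nonneg (u : ℂ) : 0 ≤ dt u u := by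
  unfold dt; nlinarith [sq_nonneg u.re, sq_nonneg u.im]

lemma T3_G {Z v w : ℂ} (hZ : dt Z Z < 4) : T3 (Gh Z) (dGh Z v) (dGh Z w) = cr v w := by
  have h0 : 0 < 1 - dt Z Z / 4 := by linarith
  have hg : 0 < √(1 - dt Z Z / 4) := Real.sqrt_pos.mpr h0
  have hg2 : √(1 - dt Z Z / 4) ^ 2 = 1 - dt Z Z / 4 := Real.sq_sqrt h0.le
  unfold T3 Gh dGh
  simp only [cr_smul_left, cr_smul_right, cr_sub_left, cr_sub_right, cr_self]
  have e1 : dt Z Z = 4 * (1 - √(1 - dt Z Z / 4) ^ 2) := by rw [hg2]; ring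
  generalize √(1 - dt Z Z / 4) = g at *
  have e2 : dt Z w * cr Z v - dt Z v * cr Z w = - dt Z Z * cr v w := by
    simp only [dt, cr]; ring
  have e3 : cr v Z = - cr Z v := cr_swap _ _
  rw [e3]
  field_simp
  rw [e1] at e2 ⊢
  linear_combination (-16 * g ^ 4 - 8 * g ^ 2) * e2


lemma T3_E {x u w : ℂ × ℝ} (hx : sp x x = 1) (h2 : -1 < x.2) (hu : sp x u = 0) (hw : sp x w = 0) :
    cr (dEh x u) (dEh x w) = T3 x u w := by
  have h0 : 0 < 1 + x.2 := by linarith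
  have hs : √(2 / (1 + x.2)) ^ 2 = 2 / (1 + x.2) := Real.sq_sqrt (by positivity)
  unfold dEh
  simp only [cr_smul_left, cr_smul_right, cr_sub_left, cr_sub_right, cr_self]
  have e1 : √(2 / (1 + x.2)) * (√(2 / (1 + x.2)) * (cr u.1 w.1 - u.2 / (2 * (1 + x.2)) * cr x.1 w.1)
      - w.2 / (2 * (1 + x.2)) * (√(2 / (1 + x.2)) * (cr u.1 x.1 - u.2 / (2 * (1 + x.2)) * 0))) =
      (√(2 / (1 + x.2)) ^ 2) * (cr u.1 w.1 - u.2 / (2 * (1 + x.2)) * cr x.1 w.1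
      - w.2 / (2 * (1 + x.2)) * cr u.1 x.1) := by ring
  rw [e1, hs]
  unfold T3
  obtain ⟨⟨x1, x2⟩, x3⟩ := x
  obtain ⟨⟨u1, u2⟩, u3⟩ := u
  obtain ⟨⟨w1, w2⟩, w3⟩ := w
  simp only [sp, dt, cr] at *
  field_simp
  linear_combination (2 + x3) * (-(u1 * w2 - u2 * w1) * hx + (x1 * w2 - x2 * w1) * hu
    - (x1 * u2 - x2 * u1) * hw)

lemma dt_E {x : ℂ × ℝ} (hx : sp x x = 1) (h2 : -1 < x.2) : dt (Eh x) (Eh x) = 2 * (1 - x.2) := by
  have h0 : 0 < 1 + x.2 := by linarith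
  have hs : √(2 / (1 + x.2)) ^ 2 = 2 / (1 + x.2) := Real.sq_sqrt (by positivity)
  have e1 : dt (Eh x) (Eh x) = √(2 / (1 + x.2)) ^ 2 * dt x.1 x.1 := by
    unfold Eh; rw [dt_smul_left, dt_smul_right]; ring
  rw [e1, hs]
  unfold sp at hx
  field_simp
  linear_combination hx

lemma sp_G {Z : ℂ} (hZ : dt Z Z < 4) : sp (Gh Z) (Gh Z) = 1 := by
  have h0 : 0 < 1 - dt Z Z / 4 := by linarith
  have hg2 : √(1 - dt Z Z / 4) ^ 2 = 1 - dt Z Z / 4 := Real.sq_sqrt h0.le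
  unfold sp Gh
  simp only [dt_smul_left, dt_smul_right]
  linear_combination dt Z Z * hg2

lemma G_snd_gt {Z : ℂ} (hZ : dt Z Z < 4) : -1 < (Gh Z).2 := by
  unfold Gh; simp only; linarith

lemma E_G {Z : ℂ} (hZ : dt Z Z < 4) : Eh (Gh Z) = Z := by
  have h0 : 0 < 1 - dt Z Z / 4 := by linarith
  have hg : 0 < √(1 - dt Z Z / 4) := Real.sqrt_pos.mpr h0
  unfold Eh Gh
  simp only
  have e1 : (2 : ℝ) / (1 + (1 - dt Z Z / 2)) = (1 - dt Z Z / 4)⁻¹ := by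
    refine eq_inv_of_mul_eq_one_left ?_
    rw [div_mul_eq_mul_div, div_eq_one_iff_eq (by linarith)]
    ring
  rw [e1, Real.sqrt_inv, smul_smul, inv_mul_cancel₀ hg.ne', one_smul]

lemma G_E {x : ℂ × ℝ} (hx : sp x x = 1) (h2 : -1 < x.2) : Gh (Eh x) = x := by
  have h0 : 0 < 1 + x.2 := by linarith
  unfold Gh
  rw [dt_E hx h2]
  have e1 : 1 - 2 * (1 - x.2) / 4 = (2 / (1 + x.2))⁻¹ := by
    rw [inv_div]; ring
  have hp : 0 < √(2 / (1 + x.2)) := Real.sqrt_pos.mpr (by positivity)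
  rw [e1, Real.sqrt_inv]
  unfold Eh
  rw [smul_smul, inv_mul_cancel₀ hp.ne', one_smul]
  ext <;> simp

/-- `dt Z` as a linear map -/
def dtL (Z : ℂ) : ℂ →L[ℝ] ℝ := Z.re • Complex.reCLM + Z.im • Complex.imCLM

@[simp] lemma dtL_apply (Z v : ℂ) : dtL Z v = dt Z v := by simp [dtL, dt]

lemma hasFDerivAt_dt (Z : ℂ) : HasFDerivAt (fun Z : ℂ => dt Z Z) ((2 : ℝ) • dtL Z) Z := by
  have h1 : HasFDerivAt (fun z : ℂ => z.re) Complex.reCLM Z := Complex.reCLM.hasFDerivAt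
  have h2 : HasFDerivAt (fun z : ℂ => z.im) Complex.imCLM Z := Complex.imCLM.hasFDerivAt
  have h3 := (h1.mul h1).add (h2.mul h2)
  refine h3.congr_fderiv ?_
  ext v
  simp [dt]
  ring

lemma contDiff_dt : ContDiff ℝ ∞ (fun Z : ℂ => dt Z Z) := by
  have h1 : ContDiff ℝ ∞ (fun z : ℂ => z.re) := Complex.reCLM.contDiff
  have h2 : ContDiff ℝ ∞ (fun z : ℂ => z.im) := Complex.imCLM.contDiff
  exact (h1.mul h1).add (h2.mul h2)

lemma contDiffAt_G {Z : ℂ} (hZ : dt Z Z < 4) : ContDiffAt ℝ ∞ Gh Z := by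
  have h0 : 1 - dt Z Z / 4 ≠ 0 := by linarith
  have h1 : ContDiffAt ℝ ∞ (fun Z : ℂ => 1 - dt Z Z / 4) Z :=
    contDiffAt_const.sub (contDiff_dt.contDiffAt.div_const 4)
  exact ((h1.sqrt h0).smul contDiffAt_id).prodMk
    (contDiffAt_const.sub (contDiff_dt.contDiffAt.div_const 2))

lemma contDiffAt_E {x : ℂ × ℝ} (h2 : -1 < x.2) : ContDiffAt ℝ ∞ Eh x := by
  have h0 : (1 + x.2) ≠ 0 := by linarith
  have h1 : ContDiffAt ℝ ∞ (fun x : ℂ × ℝ => 2 / (1 + x.2)) x :=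
    contDiffAt_const.div (contDiffAt_const.add contDiffAt_snd) h0
  have h3 : 2 / (1 + x.2) ≠ 0 := by
    have : 0 < 1 + x.2 := by linarith
    positivity
  exact (h1.sqrt h3).smul contDiffAt_fst

lemma hasFDerivAt_G {Z : ℂ} (hZ : dt Z Z < 4) (v : ℂ) : fderiv ℝ Gh Z v = dGh Z v := by
  have h0 : 0 < 1 - dt Z Z / 4 := by linarith
  have hg : 0 < √(1 - dt Z Z / 4) := Real.sqrt_pos.mpr h0
  have h1 := ((hasFDerivAt_dt Z).mul_const (1 / 4 : ℝ)).const_sub 1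
  have h1' : HasFDerivAt (fun Z : ℂ => 1 - dt Z Z / 4) (-((1 / 4 : ℝ) • (2 : ℝ) • dtL Z)) Z := by
    refine h1.congr_of_eventuallyEq (Eventually.of_forall fun y => ?_)
    simp only; ring
  have h2 := h1'.sqrt h0.ne'
  have h3 := h2.smul (hasFDerivAt_id Z)
  have h4 := ((hasFDerivAt_dt Z).mul_const (1 / 2 : ℝ)).const_sub 1
  have h4' : HasFDerivAt (fun Z : ℂ => 1 - dt Z Z / 2) (-((1 / 2 : ℝ) • (2 : ℝ) • dtL Z)) Z := by
    refine h4.congr_of_eventuallyEq (Eventually.of_forall fun y => ?_)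
    simp only; ring
  have h5 := h3.prodMk h4'
  have h6 : fderiv ℝ Gh Z = _ := h5.fderiv
  rw [h6]
  unfold dGh
  simp only [ContinuousLinearMap.prod_apply, _root_.add_apply, _root_.smul_apply,
    ContinuousLinearMap.smulRight_apply, _root_.neg_apply, dtL_apply, smul_eq_mul,
    ContinuousLinearMap.id_apply]
  refine Prod.ext ?_ ?_
  · change √(1 - dt Z Z / 4) • v + (1 / (2 * √(1 - dt Z Z / 4)) * -(1 / 4 * (2 * dt Z v))) • Z =
      √(1 - dt Z Z / 4) • v - (dt Z v / (4 * √(1 - dt Z Z / 4))) • Z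
    rw [sub_eq_add_neg (√(1 - dt Z Z / 4) • v), ← neg_smul]
    congr 2
    field_simp
  · simp only; ring

lemma hasFDerivAt_E {x : ℂ × ℝ} (h2 : -1 < x.2) (u : ℂ × ℝ) : fderiv ℝ Eh x u = dEh x u := by
  have h0 : 0 < 1 + x.2 := by linarith
  have hp : 0 < 2 / (1 + x.2) := by positivity
  have hs : 0 < √(2 / (1 + x.2)) := Real.sqrt_pos.mpr hp
  have hs2 : √(2 / (1 + x.2)) ^ 2 = 2 / (1 + x.2) := Real.sq_sqrt hp.le
  have h1 : HasFDerivAt (fun x : ℂ × ℝ => 1 + x.2) (ContinuousLinearMap.snd ℝ ℂ ℝ) x :=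
    (hasFDerivAt_snd).const_add 1
  have h3 := ((hasDerivAt_inv h0.ne').comp_hasFDerivAt x h1).const_mul 2
  have h3' : HasFDerivAt (fun x : ℂ × ℝ => 2 / (1 + x.2))
      ((2 : ℝ) • (-((1 + x.2) ^ 2)⁻¹ • ContinuousLinearMap.snd ℝ ℂ ℝ)) x := by
    refine h3.congr_of_eventuallyEq (Eventually.of_forall fun y => ?_)
    simp only [Function.comp_apply]; rw [div_eq_mul_inv]
  have h4 := (h3'.sqrt hp.ne').smul (hasFDerivAt_fst (𝕜 := ℝ) (p := x))
  have h6 : fderiv ℝ Eh x = _ := h4.fderiv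
  rw [h6]
  unfold dEh
  simp only [_root_.add_apply, _root_.smul_apply,
    ContinuousLinearMap.smulRight_apply, smul_eq_mul,
    ContinuousLinearMap.coe_fst', ContinuousLinearMap.coe_snd']
  rw [smul_sub, smul_smul, sub_eq_add_neg, ← neg_smul]
  congr 2
  generalize √(2 / (1 + x.2)) = s at *
  have e2 : s ^ 2 * (1 + x.2) = 2 := by rw [hs2]; field_simp
  field_simp
  linear_combination u.2 * e2

end Pool.Agent.TH608.FX
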