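import Pool.Agent.TH608.FX.Rot

/-!
# The swap map of `ℂ³`
-/

open scoped ContDiff Topology Manifold
open Set Filter

noncomputable section

namespace Pool.Agent.TH608.FX

/-- `r = ∑ a_k |Z_k|²` -/
def rr (a : Fin 3 → ℝ) (Z : V) : ℝ := ∑ k, a k * dt (Z k) (Z k)

/-- `√(a_i a_j) Im (conj Z_i * Z_j)` -/
def PP (a : Fin 3 → ℝ) (i j : Fin 3) (Z : V) : ℝ := √(a i) * √(a j) * cr (Z i) (Z j)

/-- the product of the rotation by the angle `θ` in the coordinates `i`, `j` (orthonormal for the
metric with weights `a_k`) and of the scalar `e^{i γ}` -/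
def TR (a : Fin 3 → ℝ) (i j : Fin 3) (γ θ : ℝ) (Z : V) : V := fun k =>
  if k = i then ee γ * (Real.cos θ • Z i - (√(a j) / √(a i) * Real.sin θ) • Z j)
  else if k = j then ee γ * ((√(a i) / √(a j) * Real.sin θ) • Z i + Real.cos θ • Z j)
  else ee γ * Z k

/-- the infinitesimal rotation -/
def SS (a : Fin 3 → ℝ) (i j : Fin 3) (Z : V) : V := fun k =>
  if k = i then -(√(a j) / √(a i)) • Z j else if k = j then (√(a i) / √(a j)) • Z i else 0

lemma sum_two {i j : Fin 3} (hij : i ≠ j) {f g : Fin 3 → ℝ}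
    (h : ∀ k, k ≠ i → k ≠ j → f k = g k) (h2 : f i + f j = g i + g j) :
    ∑ k, f k = ∑ k, g k := by
  have h3 : ∑ k, (f k - g k) = (f i - g i) + (f j - g j) := by
    refine Finset.sum_eq_add i j hij ?_ ?_ ?_
    · intro k _ hk
      rw [h k hk.1 hk.2, sub_self]
    · intro h; exact absurd (Finset.mem_univ _) h
    · intro h; exact absurd (Finset.mem_univ _) h
  rw [Finset.sum_sub_distrib] at h3
  linarith

variable {a : Fin 3 → ℝ} {i j : Fin 3}

lemma dt_mul_ee (γ : ℝ) (u v : ℂ) : dt (ee γ * u) (ee γ * v) = dt u v := dt_ee γ u v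

section
variable (ha : ∀ k, 0 < a k) (hij : i ≠ j)
include ha hij

lemma TR_i (γ θ : ℝ) (Z : V) : TR a i j γ θ Z i =
    ee γ * (Real.cos θ • Z i - (√(a j) / √(a i) * Real.sin θ) • Z j) := by simp [TR]

omit ha in
lemma TR_j (γ θ : ℝ) (Z : V) : TR a i j γ θ Z j =
    ee γ * ((√(a i) / √(a j) * Real.sin θ) • Z i + Real.cos θ • Z j) := by
  simp [TR, hij.symm]

omit ha hij in
lemma TR_k (γ θ : ℝ) (Z : V) {k : Fin 3} (h1 : k ≠ i) (h2 : k ≠ j) :
    TR a i j γ θ Z k = ee γ * Z k := by
  simp [TR, h1, h2]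

lemma rr_TR (γ θ : ℝ) (Z : V) : rr a (TR a i j γ θ Z) = rr a Z := by
  unfold rr
  refine sum_two hij (fun k h1 h2 => by rw [TR_k γ θ Z h1 h2, dt_ee]) ?_
  rw [TR_i ha hij, TR_j hij, dt_ee, dt_ee]
  have hi := Real.sq_sqrt (ha i).le
  have hj := Real.sq_sqrt (ha j).le
  have si : 0 < √(a i) := Real.sqrt_pos.mpr (ha i)
  have sj : 0 < √(a j) := Real.sqrt_pos.mpr (ha j)
  generalize √(a i) = s at *
  generalize √(a j) = t at *
  rw [← hi, ← hj]
  have hc := Real.cos_sq_add_sin_sq θ
  simp only [dt, Complex.add_re, Complex.sub_re, Complex.add_im, Complex.sub_im,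
    Complex.real_smul, Complex.mul_re, Complex.mul_im, Complex.ofReal_re, Complex.ofReal_im]
  field_simp
  linear_combination (s ^ 2 * ((Z i).re ^ 2 + (Z i).im ^ 2) + t ^ 2 * ((Z j).re ^ 2 + (Z j).im ^ 2))
    * hc

lemma PP_TR (γ θ : ℝ) (Z : V) : PP a i j (TR a i j γ θ Z) = PP a i j Z := by
  unfold PP
  rw [TR_i ha hij, TR_j hij, cr_ee]
  have hi := Real.sq_sqrt (ha i).le
  have hj := Real.sq_sqrt (ha j).le
  have si : 0 < √(a i) := Real.sqrt_pos.mpr (ha i)
  have sj : 0 < √(a j) := Real.sqrt_pos.mpr (ha j)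
  generalize √(a i) = s at *
  generalize √(a j) = t at *
  have hc := Real.cos_sq_add_sin_sq θ
  simp only [cr, Complex.add_re, Complex.sub_re, Complex.add_im, Complex.sub_im,
    Complex.real_smul, Complex.mul_re, Complex.mul_im, Complex.ofReal_re, Complex.ofReal_im]
  field_simp
  linear_combination (s * t * ((Z i).re * (Z j).im - (Z i).im * (Z j).re)) * hc

lemma OV_TR (γ θ : ℝ) (u w : V) : OV a (TR a i j γ θ u) (TR a i j γ θ w) = OV a u w := by
  unfold OV
  refine sum_two hij (fun k h1 h2 => by rw [TR_k γ θ u h1 h2, TR_k γ θ w h1 h2, cr_ee]) ?_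
  rw [TR_i ha hij, TR_j hij, TR_i ha hij, TR_j hij, cr_ee, cr_ee]
  have hi := Real.sq_sqrt (ha i).le
  have hj := Real.sq_sqrt (ha j).le
  have si : 0 < √(a i) := Real.sqrt_pos.mpr (ha i)
  have sj : 0 < √(a j) := Real.sqrt_pos.mpr (ha j)
  generalize √(a i) = s at *
  generalize √(a j) = t at *
  rw [← hi, ← hj]
  have hc := Real.cos_sq_add_sin_sq θ
  simp only [cr, Complex.add_re, Complex.sub_re, Complex.add_im, Complex.sub_im,
    Complex.real_smul, Complex.mul_re, Complex.mul_im, Complex.ofReal_re, Complex.ofReal_im]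
  field_simp
  linear_combination (s ^ 2 * ((u i).re * (w i).im - (u i).im * (w i).re) +
    t ^ 2 * ((u j).re * (w j).im - (u j).im * (w j).re)) * hc

lemma TR_TR (γ γ' θ θ' : ℝ) (Z : V) :
    TR a i j γ θ (TR a i j γ' θ' Z) = TR a i j (γ + γ') (θ + θ') Z := by
  have si : 0 < √(a i) := Real.sqrt_pos.mpr (ha i)
  have sj : 0 < √(a j) := Real.sqrt_pos.mpr (ha j)
  funext k
  by_cases h1 : k = i
  · subst h1
    rw [TR_i ha hij, TR_i ha hij, TR_j hij, TR_i ha hij, ee_add, Real.cos_add, Real.sin_add]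
    generalize √(a k) = s at *
    generalize √(a j) = t at *
    have e1 : t / s * (s / t) = 1 := by field_simp
    simp only [Complex.real_smul]
    push_cast
    have e1' : (t : ℂ) / s * (s / t) = 1 := by exact_mod_cast e1
    linear_combination (-(ee γ * ee γ' * Complex.sin θ * Complex.sin θ' * Z k)) * e1'
  · by_cases h2 : k = j
    · subst h2
      rw [TR_j hij, TR_i ha hij, TR_j hij, TR_j hij, ee_add, Real.cos_add, Real.sin_add]
      generalize √(a k) = t at *
      generalize √(a i) = s at *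
      have e1 : t / s * (s / t) = 1 := by field_simp
      simp only [Complex.real_smul]
      push_cast
      have e1' : (t : ℂ) / s * (s / t) = 1 := by exact_mod_cast e1
      linear_combination (-(ee γ * ee γ' * Complex.sin θ * Complex.sin θ' * Z k)) * e1'
    · rw [TR_k _ _ _ h1 h2, TR_k _ _ _ h1 h2, TR_k _ _ _ h1 h2, ee_add, mul_assoc]

omit ha in
lemma TR_zero (Z : V) : TR a i j 0 0 Z = Z := by
  funext k
  by_cases h1 : k = i
  · subst h1; simp [TR, ee_zero]
  · by_cases h2 : k = j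
    · subst h2; simp [TR, hij.symm, ee_zero]
    · rw [TR_k _ _ _ h1 h2, ee_zero, one_mul]

/-- the derivative of a composite -/
lemma hasDerivAt_TR {γ θ : ℝ → ℝ} {z : ℝ → V} {γ' θ' t : ℝ} {v : V} (hγ : HasDerivAt γ γ' t)
    (hθ : HasDerivAt θ θ' t) (hz : HasDerivAt z v t) :
    HasDerivAt (fun s => TR a i j (γ s) (θ s) (z s))
      (TR a i j (γ t) (θ t) (v + γ' • (fun k => Complex.I * z t k) + θ' • SS a i j (z t))) t := by
  have si : 0 < √(a i) := Real.sqrt_pos.mpr (ha i)
  have sj : 0 < √(a j) := Real.sqrt_pos.mpr (ha j)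
  have hzk : ∀ k, HasDerivAt (fun s => z s k) (v k) t := fun k => hasDerivAt_pi.1 hz k
  have he : HasDerivAt (fun s => ee (γ s)) (γ' • (Complex.I * ee (γ t))) t :=
    (hasDerivAt_ee _).scomp t hγ
  have hcos : HasDerivAt (fun s => Real.cos (θ s)) (-Real.sin (θ t) * θ') t := hθ.cos
  have hsin : HasDerivAt (fun s => Real.sin (θ s)) (Real.cos (θ t) * θ') t := hθ.sin
  refine hasDerivAt_pi.2 fun k => ?_
  by_cases h1 : k = i
  · subst h1
    simp only [TR_i ha hij]
    refine (he.mul ((hcos.smul (hzk k)).sub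
      ((hsin.const_mul (√(a j) / √(a k))).smul (hzk j)))).congr_deriv ?_
    simp only [Pi.add_apply, Pi.smul_apply, SS, if_true, hij.symm, if_false, Pi.sub_apply,
      Pi.smul_apply']
    generalize √(a k) = s at *
    generalize √(a j) = r at *
    have e1 : r / s * (s / r) = 1 := by field_simp
    simp only [Complex.real_smul]
    push_cast
    have e1' : (r : ℂ) / s * (s / r) = 1 := by exact_mod_cast e1
    linear_combination (ee (γ t) * Complex.sin (θ t) * θ' * z t k) * e1'
  · by_cases h2 : k = j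
    · subst h2
      simp only [TR_j hij]
      refine (he.mul (((hsin.const_mul (√(a i) / √(a k))).smul (hzk i)).add
        (hcos.smul (hzk k)))).congr_deriv ?_
      simp only [Pi.add_apply, Pi.smul_apply, SS, if_true, hij.symm, if_false, Pi.sub_apply,
        Pi.smul_apply']
      generalize √(a k) = r at *
      generalize √(a i) = s at *
      have e1 : r / s * (s / r) = 1 := by field_simp
      simp only [Complex.real_smul]
      push_cast
      have e1' : (r : ℂ) / s * (s / r) = 1 := by exact_mod_cast e1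
      linear_combination (ee (γ t) * Complex.sin (θ t) * θ' * z t k) * e1'
    · simp only [TR_k _ _ _ h1 h2]
      refine (he.mul (hzk k)).congr_deriv ?_
      simp only [Pi.add_apply, Pi.smul_apply, SS, h1, h2, if_false, smul_zero, add_zero,
        Complex.real_smul]
      ring

end

end Pool.Agent.TH608.FX
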